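import Pool.Agent.Y743.CC.Stm
import Pool.Agent.Y429.LP.Main

/-! Project CC: few pairs of different primes `(p, q)` lie near the curve `p = q ^ s`. -/

set_option autoImplicit false

namespace Pool.Agent.Y429.LP

theorem lp : Pool.Agent.Y743.CC.S_LP := by
  intro ε hε
  have hP : ∀ X, ∀ p ∈ Pool.Agent.Y743.AF.Prm X, p.Prime ∧ p ≤ X := by
    intro X p hp
    unfold Pool.Agent.Y743.AF.Prm at hp
    rw [Finset.mem_filter, Finset.mem_Icc] at hp
    exact ⟨hp.2, hp.1.2⟩
  obtain ⟨η, T0, h1, h2, h3⟩ := main Pool.Agent.Y743.AF.Prm hP ε hε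
  refine ⟨η, T0, h1, h2, fun T hT X hX u hu s hs1 hs2 => ?_⟩
  refine le_trans (le_of_eq ?_) (h3 T hT X hX u hu s hs1 hs2)
  refine Finset.sum_congr rfl fun p _ => Finset.sum_congr ?_ fun _ _ => rfl
  ext q
  simp only [Finset.mem_filter]
  rfl

end Pool.Agent.Y429.LP
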