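import Mathlib

/-!
# Triangle-free 4-critical graphs have at most `0.249 n²` edges

Let `G` be a triangle-free graph with at least `0.249 n²` edges, `x` a vertex of maximum degree,
`A = N(x)`, `B` the complement of `A`. Then at most `0.002 n²` pairs of `A × B` are not edges. Let
`U` be the set of the vertices that miss at least `n / 10` vertices of the other class. If `G` is not
3-colourable, but `G - ab` is 3-colourable for an edge `ab` with `a ∈ A \ U`, `b ∈ B \ U`, there are
`u, u' ∈ U` such that `ab` is the only edge between `N(u) ∩ (A \ U)` and `N(u') ∩ (B \ U)`. Hence the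
number of such edges is at most `|U|²`, a contradiction.
-/

set_option autoImplicit false

namespace Pool.Agent.Y429.Crit

open Finset

theorem fin3_third : ∀ i j : Fin 3, j ≠ i → ∃ l, l ≠ i ∧ l ≠ j := by decide

theorem fin3_cases : ∀ i j l : Fin 3, j ≠ i → l ≠ i → l ≠ j → ∀ c, c = i ∨ c = j ∨ c = l := by
  decide

open scoped Classical in
/-- the colouring argument -/
theorem unique_edge {n : ℕ} (G : SimpleGraph (Fin n)) (hchi : ¬ G.Colorable 3)
    (A B U : Finset (Fin n)) (hAB : Disjoint A B) (hU : ∀ v, v ∉ A → v ∉ B → v ∈ U)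
    (hA : ∀ a ∈ A, ∀ a' ∈ A, ¬ G.Adj a a') (hB : ∀ b ∈ B, ∀ b' ∈ B, ¬ G.Adj b b')
    (k : ℕ)
    (hmA : ∀ a ∈ A, (B.filter (fun b => ¬ G.Adj a b)).card ≤ k)
    (hmB : ∀ b ∈ B, (A.filter (fun a => ¬ G.Adj b a)).card ≤ k)
    (hcA : 2 * k + 1 < A.card) (hcB : 3 * k + 1 < B.card)
    (a b : Fin n) (ha : a ∈ A) (hb : b ∈ B) (hab : G.Adj a b)
    (hcol : (G.deleteEdges {s(a, b)}).Colorable 3) :
    ∃ u ∈ U, ∃ u' ∈ U, G.Adj u a ∧ G.Adj u' b ∧
      ∀ a' ∈ A, ∀ b' ∈ B, G.Adj u a' → G.Adj u' b' → G.Adj a' b' → a' = a ∧ b' = b := by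
  obtain ⟨C⟩ := hcol
  have hC : ∀ v w, G.Adj v w → s(v, w) ≠ s(a, b) → C v ≠ C w := by
    intro v w hvw hne
    apply C.valid
    rw [SimpleGraph.deleteEdges_adj]
    exact ⟨hvw, by simpa using hne⟩
  have hanb : a ≠ b := hab.ne
  -- a and b have the same colour
  have hsame : C a = C b := by
    by_contra hne
    apply hchi
    refine ⟨SimpleGraph.Coloring.mk C ?_⟩
    intro v w hvw
    by_cases h : s(v, w) = s(a, b)
    · rw [Sym2.eq_iff] at h
      rcases h with ⟨rfl, rfl⟩ | ⟨rfl, rfl⟩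
      · exact hne
      · exact fun h => hne h.symm
    · exact hC v w hvw h
  have hAnB : ∀ v ∈ A, v ∉ B := fun v hv hv' => (Finset.disjoint_left.mp hAB hv) hv'
  have haB : a ∉ B := hAnB a ha
  have hbA : b ∉ A := fun h => hAnB b h hb
  -- X and Y
  have hXcard : k < (A.filter (fun v => G.Adj b v ∧ v ≠ a)).card := by
    have h1 : A.card ≤ (A.filter (fun v => G.Adj b v ∧ v ≠ a)).card +
        (A.filter (fun v => ¬ G.Adj b v)).card + 1 := by
      calc A.card ≤ ((A.filter (fun v => G.Adj b v ∧ v ≠ a)) ∪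
          (A.filter (fun v => ¬ G.Adj b v)) ∪ {a}).card := by
            apply Finset.card_le_card
            intro v hv
            simp only [Finset.mem_union, Finset.mem_filter, Finset.mem_singleton]
            tauto
        _ ≤ _ := by
            refine (Finset.card_union_le _ _).trans ?_
            have := Finset.card_union_le (A.filter (fun v => G.Adj b v ∧ v ≠ a))
              (A.filter (fun v => ¬ G.Adj b v))
            simp only [Finset.card_singleton]
            omega
    have := hmB b hb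
    omega
  have hYcard : 2 * k < (B.filter (fun v => G.Adj a v ∧ v ≠ b)).card := by
    have h1 : B.card ≤ (B.filter (fun v => G.Adj a v ∧ v ≠ b)).card +
        (B.filter (fun v => ¬ G.Adj a v)).card + 1 := by
      calc B.card ≤ ((B.filter (fun v => G.Adj a v ∧ v ≠ b)) ∪
          (B.filter (fun v => ¬ G.Adj a v)) ∪ {b}).card := by
            apply Finset.card_le_card
            intro v hv
            simp only [Finset.mem_union, Finset.mem_filter, Finset.mem_singleton]
            tauto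
        _ ≤ _ := by
            refine (Finset.card_union_le _ _).trans ?_
            have := Finset.card_union_le (B.filter (fun v => G.Adj a v ∧ v ≠ b))
              (B.filter (fun v => ¬ G.Adj a v))
            simp only [Finset.card_singleton]
            omega
    have := hmA a ha
    omega
  -- the colours
  obtain ⟨x₀, hx₀⟩ : ∃ x₀, x₀ ∈ A.filter (fun v => G.Adj b v ∧ v ≠ a) := by
    have : 0 < (A.filter (fun v => G.Adj b v ∧ v ≠ a)).card := by omega
    obtain ⟨x, hx⟩ := Finset.card_pos.mp this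
    exact ⟨x, hx⟩
  simp only [Finset.mem_filter] at hx₀
  obtain ⟨hx₀A, hbx₀, hx₀a⟩ := hx₀
  have hXi : ∀ v, v ≠ a → G.Adj b v → C v ≠ C a := by
    intro v hva hbv
    rw [hsame]
    apply hC v b hbv.symm
    intro h
    rw [Sym2.eq_iff] at h
    rcases h with ⟨h1, _⟩ | ⟨h1, h2⟩
    · exact hva h1
    · exact hanb h2.symm
  have hYi : ∀ v, v ≠ b → G.Adj a v → C v ≠ C a := by
    intro v hvb hav
    apply hC v a hav.symm
    intro h
    rw [Sym2.eq_iff] at h
    rcases h with ⟨h1, h2⟩ | ⟨h1, h2⟩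
    · exact hanb h2
    · exact hvb h1
  obtain ⟨l, hli, hlj⟩ : ∃ l : Fin 3, l ≠ C a ∧ l ≠ C x₀ :=
    fin3_third _ _ (hXi x₀ hx₀a hbx₀)
  have hthree : ∀ c : Fin 3, c = C a ∨ c = C x₀ ∨ c = l :=
    fin3_cases _ _ _ (hXi x₀ hx₀a hbx₀) hli hlj
  -- more than k vertices of Y have colour l
  have hYl : k < (B.filter (fun v => G.Adj a v ∧ v ≠ b ∧ C v = l)).card := by
    have h1 : (B.filter (fun v => G.Adj a v ∧ v ≠ b)).card ≤
        (B.filter (fun v => G.Adj a v ∧ v ≠ b ∧ C v = l)).card +
        (B.filter (fun v => ¬ G.Adj x₀ v)).card := by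
      refine le_trans (Finset.card_le_card ?_) (Finset.card_union_le _ _)
      intro v hv
      simp only [Finset.mem_union, Finset.mem_filter] at hv ⊢
      obtain ⟨hvB, hav, hvb⟩ := hv
      rcases hthree (C v) with h | h | h
      · exact absurd h (hYi v hvb hav)
      · right
        refine ⟨hvB, fun hadj => ?_⟩
        refine hC x₀ v hadj ?_ h.symm
        intro h'
        rw [Sym2.eq_iff] at h'
        rcases h' with ⟨h1, _⟩ | ⟨h1, h2⟩
        · exact hx₀a h1
        · exact haB (h2 ▸ hvB)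
      · left
        exact ⟨hvB, hav, hvb, h⟩
    have := hmA x₀ hx₀A
    omega
  -- A has the colours C a and C x₀ only
  have hAcol : ∀ v ∈ A, C v ≠ l := by
    intro v hv hvl
    by_cases hva : v = a
    · rw [hva] at hvl
      exact hli hvl.symm
    · have h1 : (B.filter (fun w => G.Adj a w ∧ w ≠ b ∧ C w = l)).card ≤
          (B.filter (fun w => ¬ G.Adj v w)).card := by
        apply Finset.card_le_card
        intro w hw
        simp only [Finset.mem_filter] at hw ⊢
        refine ⟨hw.1, fun hadj => ?_⟩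
        refine hC v w hadj ?_ (by rw [hvl, hw.2.2.2])
        intro h'
        rw [Sym2.eq_iff] at h'
        rcases h' with ⟨h1, _⟩ | ⟨h1, h2⟩
        · exact hva h1
        · exact haB (h2 ▸ hw.1)
      have := hmA v hv
      omega
  -- B has the colours C a and l only
  have hBcol : ∀ v ∈ B, C v ≠ C x₀ := by
    intro v hv hvl
    by_cases hvb : v = b
    · rw [hvb, ← hsame] at hvl
      exact hXi x₀ hx₀a hbx₀ hvl.symm
    · have h1 : (A.filter (fun w => G.Adj b w ∧ w ≠ a)).card ≤
          (A.filter (fun w => ¬ G.Adj v w)).card := by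
        apply Finset.card_le_card
        intro w hw
        simp only [Finset.mem_filter] at hw ⊢
        refine ⟨hw.1, fun hadj => ?_⟩
        have hwc : C w = C x₀ := by
          rcases hthree (C w) with h | h | h
          · exact absurd h (hXi w hw.2.2 hw.2.1)
          · exact h
          · exact absurd h (hAcol w hw.1)
        refine hC v w hadj ?_ (by rw [hvl, hwc])
        intro h'
        rw [Sym2.eq_iff] at h'
        rcases h' with ⟨h1, h2⟩ | ⟨h1, h2⟩
        · exact hbA (h2 ▸ hw.1)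
        · exact hvb h1
      have := hmB v hv
      omega
  -- recolour a
  obtain ⟨u, hau, hu⟩ : ∃ u, G.Adj a u ∧ C u = C x₀ := by
    by_contra hno
    push Not at hno
    apply hchi
    refine ⟨SimpleGraph.Coloring.mk (Function.update C a (C x₀)) ?_⟩
    intro v w hvw
    by_cases hva : v = a
    · subst hva
      have hwv : w ≠ v := hvw.ne'
      rw [Function.update_self, Function.update_of_ne hwv]
      exact fun h => hno w hvw h.symm
    · by_cases hwa : w = a
      · subst hwa
        rw [Function.update_self, Function.update_of_ne hva]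
        exact fun h => hno v hvw.symm h
      · rw [Function.update_of_ne hva, Function.update_of_ne hwa]
        apply hC v w hvw
        intro h'
        rw [Sym2.eq_iff] at h'
        rcases h' with ⟨h1, h2⟩ | ⟨h1, h2⟩
        · exact hva h1
        · exact hwa h2
  -- recolour b
  obtain ⟨u', hbu', hu'⟩ : ∃ u, G.Adj b u ∧ C u = l := by
    by_contra hno
    push Not at hno
    apply hchi
    refine ⟨SimpleGraph.Coloring.mk (Function.update C b l) ?_⟩
    intro v w hvw
    by_cases hva : v = b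
    · subst hva
      have hwv : w ≠ v := hvw.ne'
      rw [Function.update_self, Function.update_of_ne hwv]
      exact fun h => hno w hvw h.symm
    · by_cases hwa : w = b
      · subst hwa
        rw [Function.update_self, Function.update_of_ne hva]
        exact fun h => hno v hvw.symm h
      · rw [Function.update_of_ne hva, Function.update_of_ne hwa]
        apply hC v w hvw
        intro h'
        rw [Sym2.eq_iff] at h'
        rcases h' with ⟨h1, h2⟩ | ⟨h1, h2⟩
        · exact hwa h2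
        · exact hva h1
  have huA : u ∉ A := fun h => hA a ha u h hau
  have huB : u ∉ B := fun h => hBcol u h hu
  have huU : u ∈ U := hU u huA huB
  have huA' : u' ∉ A := fun h => hAcol u' h hu'
  have huB' : u' ∉ B := fun h => hB b hb u' h hbu'
  have huU' : u' ∈ U := hU u' huA' huB'
  refine ⟨u, huU, u', huU', hau.symm, hbu'.symm, ?_⟩
  intro a' ha' b' hb' hua' hub' hadj
  have h1 : C a' = C a := by
    rcases hthree (C a') with h | h | h
    · exact h
    · exfalso
      refine hC u a' hua' ?_ (by rw [hu, h])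
      intro h'
      rw [Sym2.eq_iff] at h'
      rcases h' with ⟨h1, h2⟩ | ⟨h1, h2⟩
      · exact huA (h1 ▸ ha)
      · exact huB (h1 ▸ hb)
    · exact absurd h (hAcol a' ha')
  have h2 : C b' = C a := by
    rcases hthree (C b') with h | h | h
    · exact h
    · exact absurd h (hBcol b' hb')
    · exfalso
      refine hC u' b' hub' ?_ (by rw [hu', h])
      intro h'
      rw [Sym2.eq_iff] at h'
      rcases h' with ⟨h1, h2⟩ | ⟨h1, h2⟩
      · exact huA' (h1 ▸ ha)
      · exact huB' (h1 ▸ hb)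
  by_contra hne
  refine hC a' b' hadj ?_ (by rw [h1, h2])
  intro h'
  rw [Sym2.eq_iff] at h'
  rcases h' with ⟨h1, h2⟩ | ⟨h1, h2⟩
  · exact hne ⟨h1, h2⟩
  · exact hAnB a' ha' (h1 ▸ hb)

theorem num1 {P M S E a b n : ℝ} (h1 : P + M = a * b) (h2 : 2 * E = 2 * P + S)
    (h3 : P + S ≤ b * a) (h4 : a + b = n) (h5 : 249 / 1000 * n ^ 2 < E) :
    M ≤ 2 / 1000 * n ^ 2 := by
  have : a * b ≤ n ^ 2 / 4 := by rw [← h4]; nlinarith [sq_nonneg (a - b)]
  have : b * a = a * b := mul_comm _ _
  linarith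

theorem num2 {P M S E a b n : ℝ} (h1 : P + M = a * b) (h2 : 2 * E = 2 * P + S)
    (h3 : P + S ≤ b * a) (h4 : a + b = n) (h5 : 249 / 1000 * n ^ 2 < E) (hM : 0 ≤ M)
    (ha : 0 ≤ a) (hn : 100 ≤ n) : 4 / 10 * n ≤ a := by
  have h6 : b * a = a * b := mul_comm _ _
  have h7 : 249 / 1000 * n ^ 2 ≤ a * b := by linarith
  by_contra hlt
  push Not at hlt
  have hb : b = n - a := by linarith
  rw [hb] at h7
  nlinarith

theorem num3 {u k M n : ℝ} (h1 : u * (k + 1) ≤ M) (hk : n ≤ 10 * (k + 1)) (hu : 0 ≤ u)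
    (hM : M ≤ 2 / 1000 * n ^ 2) (hn : 100 ≤ n) : u ≤ 2 / 100 * n := by
  have h3 : u * n ≤ 2 / 100 * n * n := by nlinarith
  exact le_of_mul_le_mul_right h3 (by linarith)

theorem num4 {a b u k n : ℝ} (h : b * (a - k) ≤ u * u) (hu : u ≤ 4 / 100 * n) (hu0 : 0 ≤ u)
    (ha : 28 / 100 * n ≤ a - k) (hb : 28 / 100 * n ≤ b) (hn : 100 ≤ n) : False := by
  have h1 : u * u ≤ (4 / 100 * n) * (4 / 100 * n) := mul_le_mul hu hu hu0 (by linarith)
  have h2 : (28 / 100 * n) * (28 / 100 * n) ≤ b * (a - k) := by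
    apply mul_le_mul hb ha (by linarith) (by linarith)
  nlinarith

open scoped Classical in
/-- Mantel's theorem with stability -/
theorem structure_lemma {n : ℕ} (hn : 100 ≤ n) (G : SimpleGraph (Fin n))
    (htf : G.CliqueFree 3) (hcon : 249 / 1000 * (n : ℝ) ^ 2 < (G.edgeSet.ncard : ℝ)) :
    ∃ A B : Finset (Fin n), Disjoint A B ∧ (∀ v, v ∉ A → v ∈ B) ∧
      (∀ a ∈ A, ∀ a' ∈ A, ¬ G.Adj a a') ∧
      ((∑ a ∈ A, (B.filter (fun b => ¬ G.Adj a b)).card : ℕ) : ℝ) ≤ 2 / 1000 * (n : ℝ) ^ 2 ∧
      ((∑ b ∈ B, (A.filter (fun a => ¬ G.Adj b a)).card : ℕ) : ℝ) ≤ 2 / 1000 * (n : ℝ) ^ 2 ∧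
      4 / 10 * (n : ℝ) ≤ A.card ∧ 4 / 10 * (n : ℝ) ≤ B.card := by
  have tri : ∀ a b c, G.Adj a b → G.Adj a c → G.Adj b c → False := by
    intro a b c hab hac hbc
    exact htf {a, b, c} (SimpleGraph.is3Clique_iff.mpr ⟨a, b, c, hab, hac, hbc, rfl⟩)
  have hne : Nonempty (Fin n) := ⟨⟨0, by omega⟩⟩
  obtain ⟨x, hx⟩ := G.exists_maximal_degree_vertex
  obtain ⟨A, hAdef⟩ : ∃ A, A = G.neighborFinset x := ⟨_, rfl⟩
  obtain ⟨B, hBdef⟩ : ∃ B, B = Aᶜ := ⟨_, rfl⟩
  have hAB : Disjoint A B := hBdef ▸ disjoint_compl_right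
  have hA : ∀ a ∈ A, ∀ a' ∈ A, ¬ G.Adj a a' := by
    intro a ha a' ha' h
    rw [hAdef, SimpleGraph.mem_neighborFinset] at ha ha'
    exact tri x a a' ha ha' h
  have hdeg : ∀ v, G.degree v = (A.filter (G.Adj v)).card + (B.filter (G.Adj v)).card := by
    intro v
    rw [← SimpleGraph.card_neighborFinset_eq_degree]
    have : G.neighborFinset v = A.filter (G.Adj v) ∪ B.filter (G.Adj v) := by
      ext w
      simp only [SimpleGraph.mem_neighborFinset, Finset.mem_union, Finset.mem_filter, hBdef,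
        Finset.mem_compl]
      tauto
    rw [this, Finset.card_union_of_disjoint]
    exact Finset.disjoint_filter_filter hAB
  have hmax : ∀ v, G.degree v ≤ A.card := by
    intro v
    rw [hAdef, SimpleGraph.card_neighborFinset_eq_degree, ← hx]
    exact G.degree_le_maxDegree v
  have hAcol : ∀ a ∈ A, (A.filter (G.Adj a)).card = 0 := by
    intro a ha
    rw [Finset.card_eq_zero, Finset.filter_eq_empty_iff]
    intro w hw
    exact hA a ha w hw
  obtain ⟨P, hP⟩ : ∃ P, P = ∑ a ∈ A, (B.filter (G.Adj a)).card := ⟨_, rfl⟩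
  have hP' : P = ∑ b ∈ B, (A.filter (G.Adj b)).card := by
    rw [hP]
    simp only [Finset.card_filter]
    rw [Finset.sum_comm]
    refine Finset.sum_congr rfl fun b _ => Finset.sum_congr rfl fun a _ => ?_
    simp only [G.adj_comm]
  obtain ⟨M, hM⟩ : ∃ M, M = ∑ a ∈ A, (B.filter (fun b => ¬ G.Adj a b)).card := ⟨_, rfl⟩
  have hM' : M = ∑ b ∈ B, (A.filter (fun a => ¬ G.Adj b a)).card := by
    rw [hM]
    simp only [Finset.card_filter]
    rw [Finset.sum_comm]
    refine Finset.sum_congr rfl fun b _ => Finset.sum_congr rfl fun a _ => ?_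
    simp only [G.adj_comm]
  have hPM : P + M = A.card * B.card := by
    rw [hP, hM, ← Finset.sum_add_distrib]
    rw [Finset.sum_congr rfl fun a _ => Finset.card_filter_add_card_filter_not (s := B) (G.Adj a)]
    rw [Finset.sum_const, smul_eq_mul]
  obtain ⟨S, hS⟩ : ∃ S, S = ∑ b ∈ B, (B.filter (G.Adj b)).card := ⟨_, rfl⟩
  have hE : 2 * G.edgeFinset.card = 2 * P + S := by
    rw [← G.sum_degrees_eq_twice_card_edges]
    rw [← Finset.sum_add_sum_compl A]
    have h1 : ∑ a ∈ A, G.degree a = P := by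
      rw [hP]
      refine Finset.sum_congr rfl fun a ha => ?_
      rw [hdeg a, hAcol a ha, zero_add]
    have h2 : ∑ b ∈ Aᶜ, G.degree b = P + S := by
      rw [hP', hS, ← Finset.sum_add_distrib, ← hBdef]
      exact Finset.sum_congr rfl fun b _ => hdeg b
    rw [h1, h2]
    ring
  have hPS : P + S ≤ B.card * A.card := by
    rw [hP', hS, ← Finset.sum_add_distrib]
    calc ∑ b ∈ B, ((A.filter (G.Adj b)).card + (B.filter (G.Adj b)).card)
        ≤ ∑ _b ∈ B, A.card := Finset.sum_le_sum fun b _ => by rw [← hdeg b]; exact hmax b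
      _ = B.card * A.card := by rw [Finset.sum_const, smul_eq_mul]
  have hcardAB : A.card + B.card = n := by
    rw [hBdef, Finset.card_compl, Fintype.card_fin]
    have := Finset.card_le_univ A
    rw [Fintype.card_fin] at this
    omega
  have hedge : (G.edgeSet.ncard : ℝ) = (G.edgeFinset.card : ℝ) := by
    rw [Set.ncard_eq_toFinset_card']
    rfl
  rw [hedge] at hcon
  have hnR : (100 : ℝ) ≤ n := by exact_mod_cast hn
  have rPM : (P : ℝ) + M = A.card * B.card := by exact_mod_cast hPM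
  have rE : 2 * (G.edgeFinset.card : ℝ) = 2 * P + S := by exact_mod_cast hE
  have rPS : (P : ℝ) + S ≤ B.card * A.card := by exact_mod_cast hPS
  have rAB : (A.card : ℝ) + B.card = n := by exact_mod_cast hcardAB
  have hMle : (M : ℝ) ≤ 2 / 1000 * (n : ℝ) ^ 2 := num1 rPM rE rPS rAB hcon
  refine ⟨A, B, hAB, ?_, hA, ?_, ?_, ?_, ?_⟩
  · intro v hv
    rw [hBdef, Finset.mem_compl]
    exact hv
  · rw [← hM]
    exact hMle
  · rw [← hM']
    exact hMle
  · exact num2 rPM rE rPS rAB hcon (Nat.cast_nonneg _) (Nat.cast_nonneg _) hnR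
  · exact num2 (rPM.trans (mul_comm _ _)) rE (rPS.trans (mul_comm _ _).le)
      ((add_comm _ _).trans rAB) hcon (Nat.cast_nonneg _) (Nat.cast_nonneg _) hnR

open scoped Classical in
theorem core {n : ℕ} (hn : 100 ≤ n) (G : SimpleGraph (Fin n))
    (htf : G.CliqueFree 3) (hchi : ¬ G.Colorable 3)
    (hcrit : ∀ e ∈ G.edgeSet, (G.deleteEdges {e}).Colorable 3) :
    (G.edgeSet.ncard : ℝ) ≤ (249 / 1000) * (n : ℝ) ^ 2 := by
  by_contra hcon
  push Not at hcon
  have tri : ∀ a b c, G.Adj a b → G.Adj a c → G.Adj b c → False := by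
    intro a b c hab hac hbc
    exact htf {a, b, c} (SimpleGraph.is3Clique_iff.mpr ⟨a, b, c, hab, hac, hbc, rfl⟩)
  obtain ⟨A, B, hAB, hBmem, hA, hMA, hMB, hAge, hBge⟩ := structure_lemma hn G htf hcon
  have hnR : (100 : ℝ) ≤ n := by exact_mod_cast hn
  obtain ⟨k, hk⟩ : ∃ k, k = n / 10 := ⟨_, rfl⟩
  obtain ⟨UA, hUA⟩ : ∃ UA, UA = A.filter (fun a => k < (B.filter (fun b => ¬ G.Adj a b)).card) :=
    ⟨_, rfl⟩
  obtain ⟨UB, hUB⟩ : ∃ UB, UB = B.filter (fun b => k < (A.filter (fun a => ¬ G.Adj b a)).card) :=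
    ⟨_, rfl⟩
  have hkR : (n : ℝ) ≤ 10 * ((k : ℝ) + 1) := by
    have : n ≤ 10 * (k + 1) := by omega
    exact_mod_cast this
  have hkR' : 10 * (k : ℝ) ≤ n := by
    have : 10 * k ≤ n := by omega
    exact_mod_cast this
  have hUAcard : (UA.card : ℝ) ≤ 2 / 100 * n := by
    have h1 : UA.card * (k + 1) ≤ ∑ a ∈ A, (B.filter (fun b => ¬ G.Adj a b)).card := by
      calc UA.card * (k + 1) = ∑ _a ∈ UA, (k + 1) := by rw [Finset.sum_const, smul_eq_mul]
        _ ≤ ∑ a ∈ UA, (B.filter (fun b => ¬ G.Adj a b)).card := by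
            refine Finset.sum_le_sum fun a ha => ?_
            rw [hUA, Finset.mem_filter] at ha
            exact ha.2
        _ ≤ _ := Finset.sum_le_sum_of_subset (hUA ▸ Finset.filter_subset _ _)
    have h2 : ((UA.card * (k + 1) : ℕ) : ℝ) ≤
      ((∑ a ∈ A, (B.filter (fun b => ¬ G.Adj a b)).card : ℕ) : ℝ) := Nat.cast_le.mpr h1
    push_cast at h2
    push_cast at hMA
    exact num3 h2 hkR (Nat.cast_nonneg _) hMA hnR
  have hUBcard : (UB.card : ℝ) ≤ 2 / 100 * n := by
    have h1 : UB.card * (k + 1) ≤ ∑ b ∈ B, (A.filter (fun a => ¬ G.Adj b a)).card := by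
      calc UB.card * (k + 1) = ∑ _a ∈ UB, (k + 1) := by rw [Finset.sum_const, smul_eq_mul]
        _ ≤ ∑ b ∈ UB, (A.filter (fun a => ¬ G.Adj b a)).card := by
            refine Finset.sum_le_sum fun a ha => ?_
            rw [hUB, Finset.mem_filter] at ha
            exact ha.2
        _ ≤ _ := Finset.sum_le_sum_of_subset (hUB ▸ Finset.filter_subset _ _)
    have h2 : ((UB.card * (k + 1) : ℕ) : ℝ) ≤
      ((∑ b ∈ B, (A.filter (fun a => ¬ G.Adj b a)).card : ℕ) : ℝ) := Nat.cast_le.mpr h1
    push_cast at h2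
    push_cast at hMB
    exact num3 h2 hkR (Nat.cast_nonneg _) hMB hnR
  obtain ⟨A0, hA0⟩ : ∃ A0, A0 = A \ UA := ⟨_, rfl⟩
  obtain ⟨B0, hB0⟩ : ∃ B0, B0 = B \ UB := ⟨_, rfl⟩
  have hA0sub : A0 ⊆ A := hA0 ▸ Finset.sdiff_subset
  have hB0sub : B0 ⊆ B := hB0 ▸ Finset.sdiff_subset
  have hUAsub : UA ⊆ A := hUA ▸ Finset.filter_subset _ _
  have hUBsub : UB ⊆ B := hUB ▸ Finset.filter_subset _ _
  have cA0 : (A0.card : ℝ) = A.card - UA.card := by
    have : A0.card + UA.card = A.card := hA0 ▸ Finset.card_sdiff_add_card_eq_card hUAsub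
    have : (A0.card : ℝ) + UA.card = A.card := by exact_mod_cast this
    linarith
  have cB0 : (B0.card : ℝ) = B.card - UB.card := by
    have : B0.card + UB.card = B.card := hB0 ▸ Finset.card_sdiff_add_card_eq_card hUBsub
    have : (B0.card : ℝ) + UB.card = B.card := by exact_mod_cast this
    linarith
  have hmA0 : ∀ a ∈ A0, (B.filter (fun b => ¬ G.Adj a b)).card ≤ k := by
    intro a ha
    rw [hA0, Finset.mem_sdiff] at ha
    by_contra hlt
    push Not at hlt
    exact ha.2 (by rw [hUA, Finset.mem_filter]; exact ⟨ha.1, hlt⟩)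
  have hmB0 : ∀ b ∈ B0, (A.filter (fun a => ¬ G.Adj b a)).card ≤ k := by
    intro b hb
    rw [hB0, Finset.mem_sdiff] at hb
    by_contra hlt
    push Not at hlt
    exact hb.2 (by rw [hUB, Finset.mem_filter]; exact ⟨hb.1, hlt⟩)
  -- B0 is independent
  have hB0ind : ∀ b ∈ B0, ∀ b' ∈ B0, ¬ G.Adj b b' := by
    intro b hb b' hb' hadj
    have h1 := hmB0 b hb
    have h2 := hmB0 b' hb'
    have h3 : A.card ≤ (A.filter (fun a => ¬ G.Adj b a)).card +
        (A.filter (fun a => ¬ G.Adj b' a)).card := by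
      refine le_trans (Finset.card_le_card ?_) (Finset.card_union_le _ _)
      intro v hv
      simp only [Finset.mem_union, Finset.mem_filter]
      by_contra hno
      push Not at hno
      exact tri v b b' (hno.1 hv).symm (hno.2 hv).symm hadj
    have h4 : (A.card : ℝ) ≤ 2 * k := by
      have : A.card ≤ 2 * k := by omega
      exact_mod_cast this
    linarith
  have hA0ind : ∀ a ∈ A0, ∀ a' ∈ A0, ¬ G.Adj a a' :=
    fun a ha a' ha' => hA a (hA0sub ha) a' (hA0sub ha')
  obtain ⟨U, hUdef⟩ : ∃ U, U = UA ∪ UB := ⟨_, rfl⟩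
  have hUcard : (U.card : ℝ) ≤ 4 / 100 * n := by
    have : (U.card : ℝ) ≤ UA.card + UB.card := by
      rw [hUdef]
      exact_mod_cast Finset.card_union_le UA UB
    linarith
  have hUmem : ∀ v, v ∉ A0 → v ∉ B0 → v ∈ U := by
    intro v hvA hvB
    rw [hUdef, Finset.mem_union]
    rw [hA0, Finset.mem_sdiff] at hvA
    rw [hB0, Finset.mem_sdiff] at hvB
    by_cases hv : v ∈ A
    · left
      by_contra h
      exact hvA ⟨hv, h⟩
    · right
      by_contra h
      exact hvB ⟨hBmem v hv, h⟩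
  have hcA : 2 * k + 1 < A0.card := by
    have : (2 * k + 1 : ℝ) < A0.card := by
      rw [cA0]
      linarith
    exact_mod_cast this
  have hcB : 3 * k + 1 < B0.card := by
    have : (3 * k + 1 : ℝ) < B0.card := by
      rw [cB0]
      linarith
    exact_mod_cast this
  -- the edges between A0 and B0
  obtain ⟨E0, hE0⟩ : ∃ E0 : Finset (Fin n × Fin n),
    E0 = (A0 ×ˢ B0).filter (fun p => G.Adj p.1 p.2) := ⟨_, rfl⟩
  have hinj : ∀ p : Fin n × Fin n, ∃ q : Fin n × Fin n, p ∈ E0 →
      (q ∈ U ×ˢ U ∧ (G.Adj q.1 p.1 ∧ G.Adj q.2 p.2 ∧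
      ∀ a' ∈ A0, ∀ b' ∈ B0, G.Adj q.1 a' → G.Adj q.2 b' → G.Adj a' b' →
        a' = p.1 ∧ b' = p.2)) := by
    intro p
    by_cases hp : p ∈ E0
    · have hp' := hp
      rw [hE0, Finset.mem_filter, Finset.mem_product] at hp'
      obtain ⟨⟨hp1, hp2⟩, hadj⟩ := hp'
      obtain ⟨u, hu, u', hu', h1, h2, h3⟩ := unique_edge G hchi A0 B0 U
        (Finset.disjoint_of_subset_left hA0sub (Finset.disjoint_of_subset_right hB0sub hAB))
        hUmem hA0ind hB0ind k
        (fun a ha => le_trans (Finset.card_le_card (Finset.filter_subset_filter _ hB0sub))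
          (hmA0 a ha))
        (fun b hb => le_trans (Finset.card_le_card (Finset.filter_subset_filter _ hA0sub))
          (hmB0 b hb))
        hcA hcB p.1 p.2 hp1 hp2 hadj (hcrit _ hadj)
      exact ⟨(u, u'), fun _ => ⟨Finset.mem_product.mpr ⟨hu, hu'⟩, h1, h2, h3⟩⟩
    · exact ⟨p, fun h => absurd h hp⟩
  choose f hf using hinj
  have hcard : E0.card ≤ (U ×ˢ U).card := by
    refine Finset.card_le_card_of_injOn f (fun p hp => (hf p hp).1) ?_
    intro p hp p' hp' hpp
    have h1 := hf p hp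
    have h2 := hf p' hp'
    have hp'' : p' ∈ E0 := hp'
    rw [hE0, Finset.mem_filter, Finset.mem_product] at hp''
    have := h1.2.2.2 p'.1 hp''.1.1 p'.2 hp''.1.2 (by rw [hpp]; exact h2.2.1)
      (by rw [hpp]; exact h2.2.2.1) hp''.2
    exact (Prod.ext this.1 this.2).symm
  rw [Finset.card_product] at hcard
  -- lower bound for E0
  have hE0card : B0.card * (A0.card - k) ≤ E0.card := by
    have h1 : E0.card = ∑ b ∈ B0, (A0.filter (fun a => G.Adj a b)).card := by
      rw [hE0, Finset.card_filter, Finset.sum_product_right]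
      refine Finset.sum_congr rfl fun b _ => ?_
      rw [Finset.card_filter]
    rw [h1]
    calc B0.card * (A0.card - k) = ∑ _b ∈ B0, (A0.card - k) := by
          rw [Finset.sum_const, smul_eq_mul]
      _ ≤ _ := by
          refine Finset.sum_le_sum fun b hb => ?_
          have h2 : A0.card ≤ (A0.filter (fun a => G.Adj a b)).card +
              (A.filter (fun a => ¬ G.Adj b a)).card := by
            refine le_trans (Finset.card_le_card ?_) (Finset.card_union_le _ _)
            intro v hv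
            simp only [Finset.mem_union, Finset.mem_filter]
            by_cases h : G.Adj v b
            · exact Or.inl ⟨hv, h⟩
            · exact Or.inr ⟨hA0sub hv, fun h' => h h'.symm⟩
          have := hmB0 b hb
          omega
  have hfin : (B0.card : ℝ) * ((A0.card : ℝ) - k) ≤ (U.card : ℝ) * U.card := by
    have hk' : k ≤ A0.card := by omega
    have : B0.card * (A0.card - k) ≤ U.card * U.card := hE0card.trans hcard
    have h : ((B0.card * (A0.card - k) : ℕ) : ℝ) ≤ ((U.card * U.card : ℕ) : ℝ) :=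
      Nat.cast_le.mpr this
    rw [Nat.cast_mul, Nat.cast_sub hk', Nat.cast_mul] at h
    exact h
  exact num4 hfin hUcard (Nat.cast_nonneg _) (by rw [cA0]; linarith) (by rw [cB0]; linarith) hnR

end Pool.Agent.Y429.Crit
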