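import Pool.Agent.Y429.Girth

/-!
# A cyclic family of graphs for which the conjecture on spanning `F`-free subgraphs fails

`D 0, D 1, …` are graphs with `N 0, N 1, …` vertices, `D i` has at least `(i + 1) N i` edges, and
all the cycles of `D j`, `j > i`, have more than `2 N i` vertices. `F` consists of the graphs that
are neither forests nor contained in one of the graphs `D i` (up to isolated vertices).
-/

set_option autoImplicit false

namespace Pool.Agent.Y429.Fam

open SimpleGraph Pool.Agent.Y429.Girth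

/-- the number of vertices -/
noncomputable def num (g d : ℕ) : ℕ := (exists_dense g d).choose

theorem num_spec (g d : ℕ) : 1 ≤ num g d ∧ g ≤ num g d ∧ ∃ D : SimpleGraph (Fin (num g d)),
    HG g D ∧ d * num g d ≤ D.edgeSet.ncard := (exists_dense g d).choose_spec

/-- the dense graph without short cycles -/
noncomputable def gr (g d : ℕ) : SimpleGraph (Fin (num g d)) := (num_spec g d).2.2.choose

theorem gr_spec (g d : ℕ) : HG g (gr g d) ∧ d * num g d ≤ (gr g d).edgeSet.ncard :=
  (num_spec g d).2.2.choose_spec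

/-- the lengths -/
noncomputable def gg : ℕ → ℕ
  | 0 => 4
  | j + 1 => gg j + 2 * num (gg j) (j + 1)

/-- the orders -/
noncomputable def NN (j : ℕ) : ℕ := num (gg j) (j + 1)

/-- the graphs, with the vertex set `ℕ` -/
noncomputable def E (j : ℕ) : SimpleGraph ℕ := (gr (gg j) (j + 1)).map Fin.valEmbedding

theorem gg_succ (j : ℕ) : gg (j + 1) = gg j + 2 * NN j := rfl

theorem gg_mono : Monotone gg := monotone_nat_of_le_succ fun j => by rw [gg_succ]; omega

theorem two_NN_le {i j : ℕ} (h : i < j) : 2 * NN i ≤ gg j := by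
  calc 2 * NN i ≤ gg (i + 1) := by rw [gg_succ]; omega
    _ ≤ gg j := gg_mono h

theorem four_le_gg (j : ℕ) : 4 ≤ gg j := gg_mono (Nat.zero_le j)

theorem gg_le_NN (j : ℕ) : gg j ≤ NN j := (num_spec (gg j) (j + 1)).2.1

theorem NN_mono {i j : ℕ} (h : i ≤ j) : NN i ≤ NN j := by
  rcases h.lt_or_eq with h | h
  · have := two_NN_le h
    have := gg_le_NN j
    omega
  · rw [h]

theorem E_adj {j a b : ℕ} (h : (E j).Adj a b) : ∃ (ha : a < NN j) (hb : b < NN j),
    (gr (gg j) (j + 1)).Adj ⟨a, ha⟩ ⟨b, hb⟩ := by
  rw [E, map_adj] at h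
  obtain ⟨x, y, hxy, rfl, rfl⟩ := h
  exact ⟨x.2, y.2, hxy⟩

/-- `E j` contains no short cycles -/
theorem E_free {j k : ℕ} (hk : 3 ≤ k) (hkg : k ≤ gg j) : ¬ (cycleGraph k).IsContained (E j) := by
  rintro ⟨f⟩
  have hadj : ∀ x : Fin k, ∃ y, (cycleGraph k).Adj x y := by
    intro x
    obtain ⟨m, rfl⟩ : ∃ m, k = m + 2 := ⟨k - 2, by omega⟩
    refine ⟨x + 1, ?_⟩
    rw [cycleGraph_adj]
    right
    simp
  have hlt : ∀ x : Fin k, f x < NN j := by
    intro x
    obtain ⟨y, hy⟩ := hadj x
    exact (E_adj (f.toHom.map_adj hy)).1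
  have hc : (cycleGraph k).IsContained (gr (gg j) (j + 1)) := by
    refine ⟨⟨⟨fun x => ⟨f x, hlt x⟩, ?_⟩, ?_⟩⟩
    · intro a b hab
      exact (E_adj (f.toHom.map_adj hab)).2.2
    · intro a b hab
      simp only [RelHom.coeFn_mk, Fin.mk.injEq] at hab
      exact f.injective hab
  rw [cycleGraph_isContained_iff (by omega)] at hc
  obtain ⟨v, w, hw, hlen⟩ := hc
  have := (gr_spec (gg j) (j + 1)).1 v w hw
  omega

/-- forests and subgraphs of the graphs `E j` -/
def Good {V : Type} (H : SimpleGraph V) : Prop := H.IsAcyclic ∨ ∃ j, H.IsContained (E j)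

theorem Good.mono {V W : Type} {H : SimpleGraph V} {K : SimpleGraph W} (h : H.IsContained K)
    (hK : Good K) : Good H := by
  rcases hK with hK | ⟨j, hj⟩
  · left
    rw [isAcyclic_iff_free_cycleGraph] at hK ⊢
    intro n hn hc
    exact hK n hn (hc.trans h)
  · exact Or.inr ⟨j, h.trans hj⟩

/-- the family -/
def family : Set (Σ k : ℕ, SimpleGraph (Fin k)) := {p | ¬ Good p.2}

theorem free_iff {n : ℕ} (H : SimpleGraph (Fin n)) :
    (∀ p ∈ family, ¬ p.2.IsContained H) ↔ Good H := by
  constructor
  · intro h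
    by_contra hH
    exact h ⟨n, H⟩ hH (IsContained.refl H)
  · intro h p hp hc
    exact hp (Good.mono hc h)

theorem not_acyclic_of_mem (p : Σ k : ℕ, SimpleGraph (Fin k)) (hp : p ∈ family) :
    ¬ p.2.IsAcyclic := fun h => hp (Or.inl h)

theorem C4_mem : (⟨4, cycleGraph 4⟩ : Σ k : ℕ, SimpleGraph (Fin k)) ∈ family := by
  rintro (h | ⟨j, h⟩)
  · rw [isAcyclic_iff_free_cycleGraph] at h
    exact h 4 (by norm_num) (IsContained.refl _)
  · exact E_free (by norm_num) (four_le_gg j) h

theorem C4_colorable : (cycleGraph 4).Colorable 2 :=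
  (cycleGraph.bicoloring_of_even 4 (by decide)).colorable

/-- a good graph with `2 NN i` vertices has a vertex of degree at most one -/
theorem good_small_degree (i : ℕ) (H : SimpleGraph (Fin (2 * NN i))) (hH : Good H) :
    ∃ v, (H.neighborSet v).ncard ≤ 1 := by
  have hN : 4 ≤ NN i := (four_le_gg i).trans (gg_le_NN i)
  rcases hH with hH | ⟨j, hj⟩
  · exact exists_small_degree (by omega) H hH
  · rcases le_or_gt j i with hji | hij
    · -- an isolated vertex
      obtain ⟨f⟩ := hj
      by_contra hno
      push Not at hno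
      have hlt : ∀ v, f v < NN i := by
        intro v
        have h1 := hno v
        have h2 : (H.neighborSet v).Nonempty := by
          by_contra hempty
          rw [Set.not_nonempty_iff_eq_empty] at hempty
          rw [hempty] at h1
          simp at h1
        obtain ⟨w, hw⟩ := h2
        exact (E_adj (f.toHom.map_adj hw)).1.trans_le (NN_mono hji)
      have hinj : Function.Injective (fun v : Fin (2 * NN i) => (⟨f v, hlt v⟩ : Fin (NN i))) := by
        intro a b hab
        simp only [Fin.mk.injEq] at hab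
        exact f.injective hab
      have := Fintype.card_le_of_injective _ hinj
      rw [Fintype.card_fin, Fintype.card_fin] at this
      omega
    · -- no short cycles
      apply exists_small_degree (by omega) H
      rw [isAcyclic_iff_free_cycleGraph]
      intro k hk hc
      have hk2 : k ≤ 2 * NN i := by
        obtain ⟨f⟩ := hc
        have := Fintype.card_le_of_injective _ f.injective
        rwa [Fintype.card_fin, Fintype.card_fin] at this
      exact E_free hk (hk2.trans (two_NN_le hij)) (hc.trans hj)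

/-- the dense graph on `2 NN i - 1` vertices -/
noncomputable def T (i : ℕ) : SimpleGraph (Fin (2 * NN i - 1)) := (E i).comap (fun v => v.1)

theorem T_good (i : ℕ) : Good (T i) := by
  refine Or.inr ⟨i, ⟨⟨⟨fun v => v.1, fun {a b} h => h⟩, ?_⟩⟩⟩
  intro a b hab
  exact Fin.ext hab

theorem T_edges (i : ℕ) : (i + 1) * NN i ≤ (T i).edgeSet.ncard := by
  classical
  refine (gr_spec (gg i) (i + 1)).2.trans ?_
  have hN : 4 ≤ NN i := (four_le_gg i).trans (gg_le_NN i)
  have hle : NN i ≤ 2 * NN i - 1 := by omega
  refine Set.ncard_le_ncard_of_injOn (Sym2.map (Fin.castLE hle)) ?_ ?_ (Set.toFinite _)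
  · intro e he
    induction e with
    | _ a b =>
      rw [mem_edgeSet] at he
      rw [Sym2.map_mk, mem_edgeSet]
      show (E i).Adj _ _
      rw [E, map_adj]
      exact ⟨a, b, he, rfl, rfl⟩
  · intro a _ b _ hab
    exact Sym2.map.injective (Fin.castLE_injective hle) hab

end Pool.Agent.Y429.Fam
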