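import Pool.Agent.Y429.TensC

/-!
# The counts of `K₂`, `C₄`, `K_{s,t}` and `C₃`
-/

set_option autoImplicit false

namespace Pool.Agent.Y429.Tens

open Filter Topology

theorem pow_tendsto_one : Tendsto (fun M : ℕ => (1 + 1 / (M : ℝ) ^ 3) ^ (M ^ 2)) atTop (𝓝 1) := by
  have h1 : Tendsto (fun M : ℕ => Real.exp (1 / (M : ℝ))) atTop (𝓝 1) := by
    have := (Real.continuous_exp.tendsto 0).comp (tendsto_one_div_atTop_nhds_zero_nat (𝕜 := ℝ))
    rw [Real.exp_zero] at this
    exact this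
  refine tendsto_of_tendsto_of_tendsto_of_le_of_le' tendsto_const_nhds h1 ?_ ?_
  · filter_upwards with M
    apply one_le_pow₀
    have : (0 : ℝ) ≤ 1 / (M : ℝ) ^ 3 := by positivity
    linarith
  · filter_upwards [eventually_ge_atTop 1] with M hM
    have hM0 : (0 : ℝ) < M := by exact_mod_cast hM
    have h2 : 1 + 1 / (M : ℝ) ^ 3 ≤ Real.exp (1 / (M : ℝ) ^ 3) := by
      have := Real.add_one_le_exp (1 / (M : ℝ) ^ 3)
      linarith
    calc (1 + 1 / (M : ℝ) ^ 3) ^ (M ^ 2) ≤ (Real.exp (1 / (M : ℝ) ^ 3)) ^ (M ^ 2) :=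
          pow_le_pow_left₀ (by positivity) h2 _
      _ = Real.exp (1 / (M : ℝ)) := by
          rw [← Real.exp_nat_mul]
          congr 1
          push_cast
          field_simp

theorem pow_bounded (C : ℝ) (hC : 0 ≤ C) (M : ℕ) (hM : 1 ≤ M) :
    (1 + C / (M : ℝ) ^ 3) ^ (M ^ 2) ≤ Real.exp C := by
  have hM0 : (0 : ℝ) < M := by exact_mod_cast hM
  have hM1 : (1 : ℝ) ≤ M := by exact_mod_cast hM
  have h2 : 1 + C / (M : ℝ) ^ 3 ≤ Real.exp (C / (M : ℝ) ^ 3) := by
    have := Real.add_one_le_exp (C / (M : ℝ) ^ 3)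
    linarith
  calc (1 + C / (M : ℝ) ^ 3) ^ (M ^ 2) ≤ (Real.exp (C / (M : ℝ) ^ 3)) ^ (M ^ 2) :=
        pow_le_pow_left₀ (by positivity) h2 _
    _ = Real.exp (C / M) := by
        rw [← Real.exp_nat_mul]
        congr 1
        push_cast
        field_simp
    _ ≤ Real.exp C := by
        apply Real.exp_le_exp.mpr
        exact div_le_self hC hM1

theorem pow_small (M : ℕ) (hM : 1 ≤ M) :
    (1 - 1 / (M : ℝ) ^ 2) ^ (M ^ 2) ≤ Real.exp (-1) := by
  have hM0 : (0 : ℝ) < M := by exact_mod_cast hM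
  have hM1 : (1 : ℝ) ≤ M := by exact_mod_cast hM
  have h2 : 1 - 1 / (M : ℝ) ^ 2 ≤ Real.exp (-(1 / (M : ℝ) ^ 2)) := by
    have := Real.add_one_le_exp (-(1 / (M : ℝ) ^ 2))
    linarith
  have h3 : 0 ≤ 1 - 1 / (M : ℝ) ^ 2 := by
    rw [sub_nonneg, div_le_one (by positivity)]
    nlinarith
  calc (1 - 1 / (M : ℝ) ^ 2) ^ (M ^ 2) ≤ (Real.exp (-(1 / (M : ℝ) ^ 2))) ^ (M ^ 2) :=
        pow_le_pow_left₀ h3 h2 _
    _ = Real.exp (-1) := by
        rw [← Real.exp_nat_mul]
        congr 1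
        push_cast
        field_simp

/-- edges -/
theorem K2_tendsto : Tendsto (fun n : ℕ => emb (⊤ : SimpleGraph (Fin 2)).Adj n /
    ((n.descFactorial 2 : ℝ) * pp n ^ 1)) atTop (𝓝 1) := by
  have := ratio_tendsto (⊤ : SimpleGraph (Fin 2)).Adj (fun i j h => h.ne) 1 (by simp)
    (fun _ => 1) (fun M hM => by
      rw [card_col_complete _ (fun i j => by simp)]
      have hM0 : (0 : ℝ) < M := by exact_mod_cast hM
      simp only [Nat.descFactorial_succ, Nat.descFactorial_zero, Fintype.card_fin]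
      push_cast
      simp
      field_simp) (by simp)
  simpa using this

/-- 4-cycles -/
theorem C4_tendsto : Tendsto (fun n : ℕ => emb (SimpleGraph.cycleGraph 4).Adj n /
    ((n.descFactorial 4 : ℝ) * pp n ^ 4)) atTop (𝓝 1) := by
  have := ratio_tendsto (SimpleGraph.cycleGraph 4).Adj (fun i j h => h.ne) 4 (by simp)
    (fun M => 1 + 1 / (M : ℝ) ^ 3) (fun M hM => by
      rw [card_col_C4]
      have hM0 : (0 : ℝ) < M := by exact_mod_cast hM
      simp only [Fintype.card_fin]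
      field_simp) pow_tendsto_one
  simpa using this

/-- complete bipartite graphs -/
theorem Kst_bounded (s t : ℕ) (hs : 1 ≤ s) : ∃ C : ℝ, ∀ n : ℕ,
    emb (completeBipartiteGraph (Fin s) (Fin t)).Adj n /
      ((n.descFactorial (s + t) : ℝ) * pp n ^ (s * t)) ≤ C := by
  obtain ⟨C, hC, h⟩ := card_col_Kst s t hs
  have h1 := ratio_le (completeBipartiteGraph (Fin s) (Fin t)).Adj (s * t)
    (fun M => 1 + C / (M : ℝ) ^ 3) (fun M hM => by simpa using h M hM)
  have hcard : Fintype.card (Fin s ⊕ Fin t) = s + t := by simp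
  rw [hcard] at h1
  have h2 := shift_ratio (s + t) 1
  have h3 : ∀ᶠ n : ℕ in atTop, ((n : ℝ) + 1 * mm n) ^ (s + t) /
      (n.descFactorial (s + t) : ℝ) ≤ 2 :=
    (h2.eventually (gt_mem_nhds (show (1 : ℝ) < 2 by norm_num))).mono fun _ h => h.le
  have h4 : ∀ᶠ n : ℕ in atTop, emb (completeBipartiteGraph (Fin s) (Fin t)).Adj n /
      ((n.descFactorial (s + t) : ℝ) * pp n ^ (s * t)) ≤ 2 * Real.exp C := by
    filter_upwards [h1, h3, MM_tendsto.eventually_ge_atTop 1] with n h1 h3 h5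
    refine h1.trans ?_
    exact mul_le_mul h3 (pow_bounded C hC _ h5) (by positivity) (by norm_num)
  have h5 : BddAbove (Set.range fun n : ℕ =>
      emb (completeBipartiteGraph (Fin s) (Fin t)).Adj n /
      ((n.descFactorial (s + t) : ℝ) * pp n ^ (s * t))) :=
    Filter.IsBoundedUnder.bddAbove_range ⟨_, Filter.eventually_map.mpr h4⟩
  obtain ⟨B, hB⟩ := h5
  exact ⟨B, fun n => hB ⟨n, rfl⟩⟩

/-- triangles -/
theorem C3_not_tendsto : ¬ Tendsto (fun n : ℕ => emb (SimpleGraph.cycleGraph 3).Adj n /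
    ((n.descFactorial 3 : ℝ) * pp n ^ 3)) atTop (𝓝 1) := by
  intro hlim
  have h1 := ratio_le (SimpleGraph.cycleGraph 3).Adj 3 (fun M => 1 - 1 / (M : ℝ) ^ 2)
    (fun M hM => by
      rw [card_col_complete _ (by decide)]
      have hM0 : (0 : ℝ) < M := by exact_mod_cast hM
      obtain ⟨k, rfl⟩ : ∃ k, M = k + 1 := ⟨M - 1, by omega⟩
      simp only [Nat.descFactorial_succ, Nat.descFactorial_zero, Fintype.card_fin]
      have e1 : k + 1 + 1 - 2 = k := by omega
      have e2 : k + 1 + 1 - 1 = k + 1 := by omega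
      rw [e1, e2]
      push_cast at hM0 ⊢
      apply le_of_eq
      field_simp
      ring)
  simp only [Fintype.card_fin] at h1
  have h2 := shift_ratio 3 1
  have h3 : ∀ᶠ n : ℕ in atTop, emb (SimpleGraph.cycleGraph 3).Adj n /
      ((n.descFactorial 3 : ℝ) * pp n ^ 3) ≤
      ((n : ℝ) + 1 * mm n) ^ 3 / (n.descFactorial 3 : ℝ) * Real.exp (-1) := by
    filter_upwards [h1, MM_tendsto.eventually_ge_atTop 1] with n h1 h5
    refine h1.trans ?_
    exact mul_le_mul_of_nonneg_left (pow_small _ h5) (by positivity)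
  have h4 := h2.mul_const (Real.exp (-1))
  have h5 := le_of_tendsto_of_tendsto hlim h4 h3
  rw [one_mul] at h5
  have h6 : Real.exp (-1) < 1 := by
    rw [Real.exp_lt_one_iff]
    norm_num
  linarith

end Pool.Agent.Y429.Tens
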