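import Mathlib

/-!
# Dense graphs without short cycles

A graph of maximum degree at most `r` and without cycles of length at most `g` which has the largest
possible number of edges has many edges: two vertices of degree less than `r` are at distance at most
`g`.
-/

set_option autoImplicit false

namespace Pool.Agent.Y429.Girth

open SimpleGraph

/-- all the cycles have more than `g` vertices -/
def HG {V : Type} (g : ℕ) (D : SimpleGraph V) : Prop :=
  ∀ (x : V) (w : D.Walk x x), w.IsCycle → g < w.length

theorem HG_add_edge {V : Type} (D : SimpleGraph V) (u v : V) (g : ℕ)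
    (hD : HG g D) (hw : ∀ w : D.Walk u v, g < w.length) : HG g (D ⊔ edge u v) := by
  classical
  intro x w hcyc
  have hedge : ∀ e ∈ (D ⊔ edge u v).edgeSet, e ≠ s(u, v) → e ∈ D.edgeSet := by
    intro e he hne
    rw [edgeSet_sup] at he
    rcases he with he | he
    · exact he
    · exfalso
      induction e with
      | _ a b =>
        rw [mem_edgeSet, edge_adj] at he
        exact hne (by
          rw [Sym2.eq_iff]
          exact he.1)
  by_cases h : s(u, v) ∈ w.edges
  · have hu : u ∈ w.support := w.fst_mem_support_of_mem_edges h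
    have hc := hcyc.rotate hu
    have hlen : (w.rotate u hu).length = w.length := by
      have := (w.rotate_edges u hu).perm.length_eq
      rwa [Walk.length_edges, Walk.length_edges] at this
    have hmem : s(u, v) ∈ (w.rotate u hu).edges := (w.rotate_edges u hu).perm.mem_iff.mpr h
    have hv : v ∈ (w.rotate u hu).support := (w.rotate u hu).snd_mem_support_of_mem_edges hmem
    obtain ⟨c, hcdef⟩ : ∃ c, c = w.rotate u hu := ⟨_, rfl⟩
    rw [← hcdef] at hc hlen hmem hv
    have hspec := c.take_spec hv
    have hedges : c.edges = (c.takeUntil v hv).edges ++ (c.dropUntil v hv).edges := by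
      rw [← Walk.edges_append, hspec]
    have hnodup : c.edges.Nodup := hc.edges_nodup
    rw [hedges, List.nodup_append] at hnodup
    have hlen2 : (c.takeUntil v hv).length + (c.dropUntil v hv).length = c.length := by
      rw [← Walk.length_append, hspec]
    by_cases hp : s(u, v) ∈ (c.takeUntil v hv).edges
    · have hq : s(u, v) ∉ (c.dropUntil v hv).edges := fun hq => hnodup.2.2 _ hp _ hq rfl
      have h1 : ∀ e ∈ (c.dropUntil v hv).edges, e ∈ D.edgeSet := fun e he =>
        hedge e ((c.dropUntil v hv).edges_subset_edgeSet he) (fun h => hq (h ▸ he))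
      have := hw ((c.dropUntil v hv).transfer D h1).reverse
      rw [Walk.length_reverse, Walk.length_transfer] at this
      omega
    · have h1 : ∀ e ∈ (c.takeUntil v hv).edges, e ∈ D.edgeSet := fun e he =>
        hedge e ((c.takeUntil v hv).edges_subset_edgeSet he) (fun h => hp (h ▸ he))
      have := hw ((c.takeUntil v hv).transfer D h1)
      rw [Walk.length_transfer] at this
      omega
  · have h1 : ∀ e ∈ w.edges, e ∈ D.edgeSet := fun e he =>
      hedge e (w.edges_subset_edgeSet he) (fun h' => h (h' ▸ he))
    have := hD x (w.transfer D h1) (hcyc.transfer h1)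
    rwa [Walk.length_transfer] at this

open scoped Classical in
/-- balls -/
noncomputable def ball {V : Type} [Fintype V] (D : SimpleGraph V) (u : V) : ℕ → Finset V
  | 0 => {u}
  | k + 1 => (ball D u k).biUnion (fun x => insert x (D.neighborFinset x))

open scoped Classical in
theorem card_ball {V : Type} [Fintype V] (D : SimpleGraph V) (u : V) (r : ℕ)
    (hr : ∀ v, D.degree v ≤ r) (k : ℕ) : (ball D u k).card ≤ (r + 1) ^ k := by
  induction k with
  | zero => simp [ball]
  | succ k ih =>
    rw [ball]
    refine (Finset.card_biUnion_le).trans ?_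
    calc ∑ x ∈ ball D u k, (insert x (D.neighborFinset x)).card
        ≤ ∑ _x ∈ ball D u k, (r + 1) := by
          refine Finset.sum_le_sum fun x _ => ?_
          refine (Finset.card_insert_le _ _).trans ?_
          rw [card_neighborFinset_eq_degree]
          have := hr x
          omega
      _ = (ball D u k).card * (r + 1) := by rw [Finset.sum_const, smul_eq_mul]
      _ ≤ (r + 1) ^ k * (r + 1) := Nat.mul_le_mul_right _ ih
      _ = _ := by ring

theorem mem_ball {V : Type} [Fintype V] (D : SimpleGraph V) (u : V) (k : ℕ) :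
    ∀ (v : V) (w : D.Walk v u), w.length ≤ k → v ∈ ball D u k := by
  classical
  induction k with
  | zero =>
    intro v w hw
    have := Walk.eq_of_length_eq_zero (Nat.le_zero.mp hw)
    rw [this]
    simp [ball]
  | succ k ih =>
    intro v w hw
    rw [ball, Finset.mem_biUnion]
    cases w with
    | nil => exact ⟨u, ih u Walk.nil (by simp), by simp⟩
    | @cons _ x _ h p =>
      refine ⟨x, ih x p ?_, ?_⟩
      · simp only [Walk.length_cons] at hw
        omega
      · rw [Finset.mem_insert]
        right
        rw [mem_neighborFinset]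
        exact h.symm

open scoped Classical in
/-- dense graphs without short cycles -/
theorem exists_dense (g d : ℕ) : ∃ N : ℕ, 1 ≤ N ∧ g ≤ N ∧ ∃ D : SimpleGraph (Fin N),
    HG g D ∧ d * N ≤ D.edgeSet.ncard := by
  rcases Nat.eq_zero_or_pos d with hd | hd
  · subst hd
    exact ⟨g + 1, by omega, by omega, ⊥, fun x w hw => absurd hw (by
      intro h
      exact isAcyclic_bot w h), by simp⟩
  obtain ⟨r, hr⟩ : ∃ r, r = 4 * d := ⟨_, rfl⟩
  obtain ⟨b, hb⟩ : ∃ b, b = (r + 1) ^ (g + 1) := ⟨_, rfl⟩
  obtain ⟨N, hN⟩ : ∃ N, N = 2 * b + g + 1 := ⟨_, rfl⟩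
  refine ⟨N, by omega, by omega, ?_⟩
  obtain ⟨S, hS⟩ : ∃ S : Finset (SimpleGraph (Fin N)), S = Finset.univ.filter
    (fun D => (∀ v, D.degree v ≤ r) ∧ HG (g + 1) D) := ⟨_, rfl⟩
  have hSne : S.Nonempty := by
    obtain ⟨B, hB⟩ : ∃ B : SimpleGraph (Fin N), B = ⊥ := ⟨_, rfl⟩
    refine ⟨B, ?_⟩
    rw [hS, Finset.mem_filter]
    have hBac : B.IsAcyclic := by
      rw [hB]
      exact isAcyclic_bot
    refine ⟨Finset.mem_univ _, ?_, fun x w hw => absurd hw (hBac w)⟩
    intro v
    have : B.neighborFinset v = ∅ := by
      ext x
      rw [mem_neighborFinset, hB]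
      simp
    rw [← card_neighborFinset_eq_degree, this]
    simp
  obtain ⟨D, hDS, hmax⟩ := Finset.exists_max_image S (fun D => D.edgeFinset.card) hSne
  rw [hS, Finset.mem_filter] at hDS
  obtain ⟨-, hdeg, hHG⟩ := hDS
  refine ⟨D, fun x w hw => by have := hHG x w hw; omega, ?_⟩
  have hcard : D.edgeSet.ncard = D.edgeFinset.card := by
    rw [Set.ncard_eq_toFinset_card']
    rfl
  rw [hcard]
  by_contra hlt
  push Not at hlt
  -- vertices of small degree
  obtain ⟨L, hL⟩ : ∃ L : Finset (Fin N), L = Finset.univ.filter (fun v => D.degree v < r) :=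
    ⟨_, rfl⟩
  have hLcard : b < L.card := by
    have h1 : ∑ v, D.degree v = 2 * D.edgeFinset.card := D.sum_degrees_eq_twice_card_edges
    have h2 : (N - L.card) * r ≤ ∑ v, D.degree v := by
      calc (N - L.card) * r = ∑ _v ∈ Lᶜ, r := by
            rw [Finset.sum_const, Finset.card_compl, Fintype.card_fin, smul_eq_mul]
        _ ≤ ∑ v ∈ Lᶜ, D.degree v := by
            refine Finset.sum_le_sum fun v hv => ?_
            rw [hL, Finset.mem_compl, Finset.mem_filter] at hv
            by_contra h
            exact hv ⟨Finset.mem_univ _, by omega⟩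
        _ ≤ _ := Finset.sum_le_sum_of_subset (Finset.subset_univ _)
    by_contra hle
    push Not at hle
    have h3 : b + g + 1 ≤ N - L.card := by omega
    have h4 : (b + g + 1) * r ≤ (N - L.card) * r := Nat.mul_le_mul_right _ h3
    have h5 : (b + g + 1) * r < 2 * (d * N) := by omega
    rw [hr, hN] at h5
    nlinarith
  have hLne : 0 < L.card := by omega
  obtain ⟨u, hu⟩ := Finset.card_pos.mp hLne
  have hball : (ball D u (g + 1)).card ≤ b := by
    rw [hb]
    exact card_ball D u r hdeg (g + 1)
  obtain ⟨v, hvL, hvball⟩ : ∃ v ∈ L, v ∉ ball D u (g + 1) := by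
    by_contra hno
    push Not at hno
    have : L.card ≤ (ball D u (g + 1)).card := Finset.card_le_card hno
    omega
  have hwalk : ∀ w : D.Walk u v, g + 1 < w.length := by
    intro w
    by_contra hle
    push Not at hle
    exact hvball (mem_ball D u (g + 1) v w.reverse (by rwa [Walk.length_reverse]))
  have huv : u ≠ v := by
    rintro rfl
    have := hwalk Walk.nil
    simp at this
  have hnadj : ¬ D.Adj u v := by
    intro h
    have := hwalk (Walk.cons h Walk.nil)
    simp at this
  obtain ⟨D', hD'⟩ : ∃ D', D' = D ⊔ edge u v := ⟨_, rfl⟩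
  have hadj : ∀ x y, D'.Adj x y ↔ D.Adj x y ∨ ((x = u ∧ y = v) ∨ (x = v ∧ y = u)) ∧ x ≠ y := by
    intro x y
    rw [hD', sup_adj, edge_adj]
  have hmem : D' ∈ S := by
    rw [hS, Finset.mem_filter]
    refine ⟨Finset.mem_univ _, ?_, hD' ▸ HG_add_edge D u v (g + 1) hHG hwalk⟩
    intro x
    rw [hL, Finset.mem_filter] at hu hvL
    by_cases hxu : x = u
    · subst hxu
      have hsub : D'.neighborFinset x ⊆ insert v (D.neighborFinset x) := by
        intro y hy
        rw [mem_neighborFinset, hadj] at hy
        rw [Finset.mem_insert, mem_neighborFinset]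
        rcases hy with hy | ⟨⟨_, hy⟩ | ⟨hy, _⟩, _⟩
        · exact Or.inr hy
        · exact Or.inl hy
        · exact absurd hy huv
      have := Finset.card_le_card hsub
      have h2 := Finset.card_insert_le v (D.neighborFinset x)
      rw [card_neighborFinset_eq_degree] at this h2
      omega
    · by_cases hxv : x = v
      · subst hxv
        have hsub : D'.neighborFinset x ⊆ insert u (D.neighborFinset x) := by
          intro y hy
          rw [mem_neighborFinset, hadj] at hy
          rw [Finset.mem_insert, mem_neighborFinset]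
          rcases hy with hy | ⟨⟨hy, _⟩ | ⟨_, hy⟩, _⟩
          · exact Or.inr hy
          · exact absurd hy.symm huv
          · exact Or.inl hy
        have := Finset.card_le_card hsub
        have h2 := Finset.card_insert_le u (D.neighborFinset x)
        rw [card_neighborFinset_eq_degree] at this h2
        omega
      · have hsub : D'.neighborFinset x ⊆ D.neighborFinset x := by
          intro y hy
          rw [mem_neighborFinset, hadj] at hy
          rw [mem_neighborFinset]
          rcases hy with hy | ⟨⟨hy, _⟩ | ⟨hy, _⟩, _⟩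
          · exact hy
          · exact absurd hy hxu
          · exact absurd hy hxv
        have := Finset.card_le_card hsub
        rw [card_neighborFinset_eq_degree, card_neighborFinset_eq_degree] at this
        exact this.trans (hdeg x)
  have h1 := hmax _ hmem
  have h2 : D < D' := by
    rw [lt_iff_le_and_ne]
    refine ⟨hD' ▸ le_sup_left, ?_⟩
    intro h
    apply hnadj
    rw [h, hadj]
    exact Or.inr ⟨Or.inl ⟨rfl, rfl⟩, huv⟩
  have h3 := Finset.card_lt_card (edgeFinset_ssubset_edgeFinset.mpr h2)
  omega

/-- a forest has a vertex of degree at most one -/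
theorem exists_small_degree {N : ℕ} (hN : 2 ≤ N) (H : SimpleGraph (Fin N)) (hH : H.IsAcyclic) :
    ∃ v, (H.neighborSet v).ncard ≤ 1 := by
  classical
  have : Nontrivial (Fin N) := Fin.nontrivial_iff_two_le.mpr hN
  obtain ⟨F, hHF, -, hF⟩ := (connected_top (V := Fin N)).exists_isTree_le_of_le_of_isAcyclic
    le_top hH
  obtain ⟨v, hv⟩ := hF.exists_vert_degree_one_of_nontrivial
  refine ⟨v, ?_⟩
  rw [← hv, ← card_neighborFinset_eq_degree, ← Set.ncard_coe_finset]
  refine Set.ncard_le_ncard ?_ (Set.toFinite _)
  intro x hx
  simp only [coe_neighborFinset, mem_neighborSet] at hx ⊢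
  exact hHF hx

end Pool.Agent.Y429.Girth
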