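import Pool.Agent.TH124.KE.Total
import Pool.Agent.TH511.HLC.Part

/-!
# Bisectors of a point set most of which is covered by few sets in convex position
-/

set_option autoImplicit false

namespace Pool.Agent.Y429.HalvFew

open Finset Pool.Agent.W296.HL Pool.Agent.TH511.HLC

/-- a shear -/
def shr (ε : ℝ) (x : ℝ × ℝ) : ℝ × ℝ := (x.1 + ε * x.2, x.2)

lemma shr_inj (ε : ℝ) : Function.Injective (shr ε) := by
  intro x y h
  unfold shr at h
  rw [Prod.mk.injEq] at h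
  have h2 := h.2
  have h1 := h.1
  rw [h2] at h1
  exact Prod.ext (by linarith) h2

lemma cr_shr (ε : ℝ) (p q x : ℝ × ℝ) : cr (shr ε p) (shr ε q) (shr ε x) = cr p q x := by
  unfold cr shr; ring

lemma exists_shear (P : Finset (ℝ × ℝ)) :
    ∃ ε : ℝ, ∀ x ∈ P, ∀ y ∈ P, (shr ε x).1 = (shr ε y).1 → x = y := by
  classical
  obtain ⟨ε, hε⟩ := Infinite.exists_notMem_finset
    ((P ×ˢ P).image (fun z : (ℝ × ℝ) × (ℝ × ℝ) => (z.2.1 - z.1.1) / (z.1.2 - z.2.2)))
  refine ⟨ε, ?_⟩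
  intro x hx y hy h
  unfold shr at h
  simp only at h
  by_cases h2 : x.2 = y.2
  · rw [h2] at h
    exact Prod.ext (by linarith) h2
  · exfalso
    apply hε
    rw [mem_image]
    refine ⟨(x, y), mem_product.mpr ⟨hx, hy⟩, ?_⟩
    simp only
    rw [div_eq_iff (sub_ne_zero.mpr h2)]
    linarith

/-- below a line in terms of the cross product -/
lemma below_iff {p q : ℝ × ℝ} (h : p.1 < q.1) (r : ℝ × ℝ) :
    TH124.KE.hh (TH124.KE.sl p q) r < TH124.KE.hh (TH124.KE.sl p q) p ↔ cr p q r < 0 := by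
  have h0 : 0 < q.1 - p.1 := by linarith
  have h1 : TH124.KE.sl p q * (q.1 - p.1) = q.2 - p.2 := by
    unfold TH124.KE.sl; field_simp
  have h2 : (q.1 - p.1) * (TH124.KE.hh (TH124.KE.sl p q) r -
      TH124.KE.hh (TH124.KE.sl p q) p) = cr p q r := by
    unfold TH124.KE.hh cr
    linear_combination (-(r.1 - p.1)) * h1
  constructor
  · intro h3
    nlinarith
  · intro h3
    by_contra h4
    push Not at h4
    nlinarith

lemma gp_shear {P : Finset (ℝ × ℝ)} (hP : Gen P) {ε : ℝ}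
    (hε : ∀ x ∈ P, ∀ y ∈ P, (shr ε x).1 = (shr ε y).1 → x = y) :
    TH124.KE.GP (P.image (shr ε)) := by
  constructor
  · intro p hp q hq h
    obtain ⟨p', hp', rfl⟩ := mem_image.mp hp
    obtain ⟨q', hq', rfl⟩ := mem_image.mp hq
    rw [hε p' hp' q' hq' h]
  · intro p hp q hq r hr hpq hpr hqr h
    obtain ⟨p', hp', rfl⟩ := mem_image.mp hp
    obtain ⟨q', hq', rfl⟩ := mem_image.mp hq
    obtain ⟨r', hr', rfl⟩ := mem_image.mp hr
    have hpq' : p' ≠ q' := fun h => hpq (by rw [h])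
    have hpr' : p' ≠ r' := fun h => hpr (by rw [h])
    have hqr' : q' ≠ r' := fun h => hqr (by rw [h])
    apply hP p' hp' q' hq' r' hr' hpq' hpr' hqr'
    rw [← cr_shr ε]
    have h1 : (shr ε q').1 - (shr ε p').1 ≠ 0 := by
      intro h1
      exact hpq' (hε _ hp' _ hq' (by linarith))
    have h2 : (shr ε r').1 - (shr ε p').1 ≠ 0 := by
      intro h1
      exact hpr' (hε _ hp' _ hr' (by linarith))
    unfold TH124.KE.sl at h
    rw [div_eq_div_iff h1 h2] at h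
    unfold cr
    linarith

/-- a point of a set in convex position is extreme in a non-vertical direction -/
lemma ext_shear {A : Finset (ℝ × ℝ)} (hA : ConvexPosition A) (ε : ℝ) {p : ℝ × ℝ} (hp : p ∈ A) :
    TH124.KE.Ext (A.image (shr ε)) (shr ε p) := by
  classical
  have hfin : ((A : Set (ℝ × ℝ)) \ {p}).Finite := A.finite_toSet.subset Set.sdiff_subset
  obtain ⟨f, u, hu1, hu2⟩ := geometric_hahn_banach_point_closed (convex_convexHull ℝ _)
    (hfin.isClosed_convexHull ℝ) (hA p hp)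
  have hf : ∀ x : ℝ × ℝ, f x = f (1, 0) * x.1 + f (0, 1) * x.2 := by
    intro x
    have : x = x.1 • ((1 : ℝ), (0 : ℝ)) + x.2 • ((0 : ℝ), (1 : ℝ)) := by
      ext <;> simp
    conv_lhs => rw [this]
    rw [map_add, map_smul, map_smul, smul_eq_mul, smul_eq_mul]
    ring
  obtain ⟨α, hα⟩ : ∃ α, α = f (1, 0) := ⟨_, rfl⟩
  obtain ⟨β, hβ⟩ : ∃ β, β = f (0, 1) := ⟨_, rfl⟩
  rw [← hα, ← hβ] at hf
  have hlt : ∀ q ∈ A.erase p, 0 < α * ((shr ε q).1 - (shr ε p).1) +
      (β - α * ε) * ((shr ε q).2 - (shr ε p).2) := by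
    intro q hq
    have h1 : f p < f q := hu1.trans (hu2 q (subset_convexHull ℝ _
      ⟨mem_coe.mpr (mem_of_mem_erase hq), by
        rw [Set.mem_singleton_iff]; exact ne_of_mem_erase hq⟩))
    rw [hf p, hf q] at h1
    unfold shr
    simp only
    nlinarith
  obtain ⟨γ, hγ0, hγ⟩ : ∃ γ : ℝ, γ ≠ 0 ∧ ∀ q ∈ A.erase p,
      0 < α * ((shr ε q).1 - (shr ε p).1) + γ * ((shr ε q).2 - (shr ε p).2) := by
    by_cases h0 : β - α * ε = 0
    · have hev : ∀ᶠ γ in nhds (β - α * ε), ∀ q ∈ A.erase p,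
          0 < α * ((shr ε q).1 - (shr ε p).1) + γ * ((shr ε q).2 - (shr ε p).2) := by
        rw [Finset.eventually_all]
        intro q hq
        have hc : Continuous fun γ : ℝ =>
            α * ((shr ε q).1 - (shr ε p).1) + γ * ((shr ε q).2 - (shr ε p).2) := by
          fun_prop
        exact hc.continuousAt.eventually (lt_mem_nhds (hlt q hq))
      have h2 := (eventually_nhdsWithin_of_eventually_nhds (s := {β - α * ε}ᶜ) hev).and
        self_mem_nhdsWithin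
      obtain ⟨γ, h3, h4⟩ := h2.exists
      refine ⟨γ, ?_, h3⟩
      rw [h0] at h4
      exact h4
    · exact ⟨_, h0, hlt⟩
  refine ⟨-α / γ, ?_⟩
  have hkey : ∀ q ∈ A, 0 ≤ γ * (TH124.KE.hh (-α / γ) (shr ε q) -
      TH124.KE.hh (-α / γ) (shr ε p)) := by
    intro q hq
    have h5 : γ * (TH124.KE.hh (-α / γ) (shr ε q) - TH124.KE.hh (-α / γ) (shr ε p)) =
        α * ((shr ε q).1 - (shr ε p).1) + γ * ((shr ε q).2 - (shr ε p).2) := by
      unfold TH124.KE.hh
      field_simp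
      ring
    rw [h5]
    by_cases hqp : q = p
    · rw [hqp]; simp
    · exact (hγ q (mem_erase.mpr ⟨hqp, hq⟩)).le
  rcases lt_or_gt_of_ne hγ0 with hneg | hpos
  · left
    intro q hq
    obtain ⟨q', hq', rfl⟩ := mem_image.mp hq
    have := hkey q' hq'
    by_contra h6
    push Not at h6
    nlinarith
  · right
    intro q hq
    obtain ⟨q', hq', rfl⟩ := mem_image.mp hq
    have := hkey q' hq'
    by_contra h6
    push Not at h6
    nlinarith

open scoped Classical in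
/-- the bisectors inject into the edges with exactly `|P| / 2 - 1` points below -/
lemma bis_le {P : Finset (ℝ × ℝ)} {ε : ℝ}
    (hε : ∀ x ∈ P, ∀ y ∈ P, (shr ε x).1 = (shr ε y).1 → x = y) :
    {L | IsBisector P L}.ncard ≤ #(TH124.KE.kes (P.image (shr ε)) (#P / 2 - 1)) := by
  have hex : ∀ L : Set (ℝ × ℝ), ∃ z : (ℝ × ℝ) × (ℝ × ℝ), IsBisector P L →
      z.1 ∈ P ∧ z.2 ∈ P ∧ (shr ε z.1).1 < (shr ε z.2).1 ∧ Hv P z.1 z.2 ∧
        L = {x | cr z.1 z.2 x = 0} := by
    intro L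
    by_cases hL : IsBisector P L
    · obtain ⟨a, b, c, hab, hL2, ⟨p, hp, q, hq, hpq, hpL, hqL⟩, h1, h2⟩ := id hL
      have hne : (shr ε p).1 ≠ (shr ε q).1 := fun h => hpq (hε p hp q hq h)
      rcases lt_or_gt_of_ne hne with h | h
      · obtain ⟨h3, h4⟩ := hv_of_line hL hpq hpL hqL
        exact ⟨(p, q), fun _ => ⟨hp, hq, h, h3, h4⟩⟩
      · obtain ⟨h3, h4⟩ := hv_of_line hL hpq.symm hqL hpL
        exact ⟨(q, p), fun _ => ⟨hq, hp, h, h3, h4⟩⟩
    · exact ⟨((0, 0), (0, 0)), fun h => absurd h hL⟩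
  choose z hz using hex
  rw [Set.ncard_eq_toFinset_card _ (bis_finite P)]
  refine card_le_card_of_injOn (fun L => (shr ε (z L).1, shr ε (z L).2)) ?_ ?_
  · intro L hL
    rw [mem_coe, Set.Finite.mem_toFinset] at hL
    obtain ⟨h1, h2, h3, h4, h5⟩ := hz L hL
    rw [mem_coe, TH124.KE.mem_kes]
    refine ⟨mem_image_of_mem _ h1, mem_image_of_mem _ h2, h3, ?_⟩
    rw [← h4.2.2]
    unfold TH124.KE.bel
    rw [Finset.filter_image, Finset.card_image_of_injective _ (shr_inj ε)]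
    congr 1
    ext x
    rw [mem_filter, mem_filter]
    rw [below_iff h3, cr_shr]
  · intro L hL L' hL' h
    rw [mem_coe, Set.Finite.mem_toFinset] at hL hL'
    obtain ⟨h1, h2, h3, h4, h5⟩ := hz L hL
    obtain ⟨h1', h2', h3', h4', h5'⟩ := hz L' hL'
    simp only [Prod.mk.injEq] at h
    rw [h5, h5', shr_inj ε h.1, shr_inj ε h.2]

open scoped Classical in
/-- the edges with an endpoint in a set covered by `c` sets in convex position -/
lemma inc_le {Q : Finset (ℝ × ℝ)} {k : ℕ} (hQ : TH124.KE.GP Q) {c : ℕ}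
    (A : Fin c → Finset (ℝ × ℝ)) (hA : ∀ i, ∀ a ∈ A i, TH124.KE.Ext (A i) a) :
    #((TH124.KE.kes Q k).filter (fun e => (∃ i, e.1 ∈ A i) ∨ (∃ i, e.2 ∈ A i))) ≤
      4 * c * #Q := by
  have hsub : (TH124.KE.kes Q k).filter (fun e => (∃ i, e.1 ∈ A i) ∨ (∃ i, e.2 ∈ A i)) ⊆
      univ.biUnion (fun i : Fin c => (A i ∩ Q).biUnion
        (fun a => (TH124.KE.kes Q k).filter (fun e => e.1 = a ∨ e.2 = a))) := by
    intro e he
    rw [mem_filter] at he
    have hk := TH124.KE.mem_kes.mp he.1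
    simp only [mem_biUnion, mem_univ, true_and, mem_filter, mem_inter]
    rcases he.2 with ⟨i, hi⟩ | ⟨i, hi⟩
    · exact ⟨i, e.1, ⟨hi, hk.1⟩, he.1, Or.inl rfl⟩
    · exact ⟨i, e.2, ⟨hi, hk.2.1⟩, he.1, Or.inr rfl⟩
  have h2 : ∀ i : Fin c, #((A i ∩ Q).biUnion
      (fun a => (TH124.KE.kes Q k).filter (fun e => e.1 = a ∨ e.2 = a))) ≤ 4 * #Q := by
    intro i
    refine Finset.card_biUnion_le.trans ?_
    refine (Finset.sum_le_sum fun a _ => TH124.KE.inc_le_deg a).trans ?_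
    refine TH124.KE.sum_deg_le hQ Finset.inter_subset_right ?_
    intro a ha
    obtain ⟨τ, hτ⟩ := hA i a (mem_inter.mp ha).1
    refine ⟨τ, ?_⟩
    rcases hτ with hτ | hτ
    · exact Or.inl fun q hq => hτ q (mem_inter.mp hq).1
    · exact Or.inr fun q hq => hτ q (mem_inter.mp hq).1
  calc _ ≤ _ := Finset.card_le_card hsub
    _ ≤ ∑ i : Fin c, 4 * #Q := Finset.card_biUnion_le.trans (Finset.sum_le_sum fun i _ => h2 i)
    _ = 4 * c * #Q := by simp; ring

open scoped Classical in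
/-- **bisectors through points of a set covered by `c` sets in convex position** -/
theorem touch {P : Finset (ℝ × ℝ)} (hP : Gen P) {S : Finset (ℝ × ℝ)} (hS : S ⊆ P) {c : ℕ}
    (A : Fin c → Finset (ℝ × ℝ)) (hA : ∀ i, ConvexPosition (A i))
    (hc : ∀ p ∈ S, ∃ i, p ∈ A i) :
    {L | IsBisector P L ∧ ∃ p ∈ S, p ∈ L}.ncard ≤ 4 * c * #P := by
  obtain ⟨ε, hε⟩ := exists_shear P
  have hG := gp_shear hP hε
  have hfin : {L | IsBisector P L ∧ ∃ p ∈ S, p ∈ L}.Finite :=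
    (bis_finite P).subset fun L hL => hL.1
  have hex : ∀ L : Set (ℝ × ℝ), ∃ z : (ℝ × ℝ) × (ℝ × ℝ),
      (IsBisector P L ∧ ∃ p ∈ S, p ∈ L) →
      z.1 ∈ P ∧ z.2 ∈ P ∧ (shr ε z.1).1 < (shr ε z.2).1 ∧ Hv P z.1 z.2 ∧
        L = {x | cr z.1 z.2 x = 0} ∧ (z.1 ∈ S ∨ z.2 ∈ S) := by
    intro L
    by_cases hL : IsBisector P L ∧ ∃ p ∈ S, p ∈ L
    · obtain ⟨a, b, c, hab, hL2, ⟨p, hp, q, hq, hpq, hpL, hqL⟩, h1, h2⟩ := id hL.1
      obtain ⟨s, hs, hsL⟩ := hL.2
      have hne : (shr ε p).1 ≠ (shr ε q).1 := fun h => hpq (hε p hp q hq h)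
      obtain ⟨h3, h4⟩ := hv_of_line hL.1 hpq hpL hqL
      obtain ⟨h3', h4'⟩ := hv_of_line hL.1 hpq.symm hqL hpL
      have hs2 : p ∈ S ∨ q ∈ S := by
        by_contra hcon
        push Not at hcon
        have hps : p ≠ s := fun h => hcon.1 (h ▸ hs)
        have hqs : q ≠ s := fun h => hcon.2 (h ▸ hs)
        have := hP p hp q hq s (hS hs) hpq hps hqs
        rw [h4] at hsL
        exact this hsL
      rcases lt_or_gt_of_ne hne with h | h
      · exact ⟨(p, q), fun _ => ⟨hp, hq, h, h3, h4, hs2⟩⟩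
      · exact ⟨(q, p), fun _ => ⟨hq, hp, h, h3', h4', hs2.symm⟩⟩
    · exact ⟨((0, 0), (0, 0)), fun h => absurd h hL⟩
  choose z hz using hex
  have hE : ∀ i, ∀ a ∈ (fun i => (A i).image (shr ε)) i,
      TH124.KE.Ext ((fun i => (A i).image (shr ε)) i) a := by
    intro i a ha
    obtain ⟨a', ha', rfl⟩ := mem_image.mp ha
    exact ext_shear (hA i) ε ha'
  have h0 := inc_le (k := #P / 2 - 1) hG (fun i => (A i).image (shr ε)) hE
  rw [card_image_of_injective _ (shr_inj ε)] at h0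
  refine le_trans ?_ h0
  rw [Set.ncard_eq_toFinset_card _ hfin]
  refine card_le_card_of_injOn (fun L => (shr ε (z L).1, shr ε (z L).2)) ?_ ?_
  · intro L hL
    rw [mem_coe, Set.Finite.mem_toFinset] at hL
    obtain ⟨h1, h2, h3, h4, h5, h6⟩ := hz L hL
    rw [mem_coe, mem_filter, TH124.KE.mem_kes]
    refine ⟨⟨mem_image_of_mem _ h1, mem_image_of_mem _ h2, h3, ?_⟩, ?_⟩
    · rw [← h4.2.2]
      unfold TH124.KE.bel
      rw [Finset.filter_image, Finset.card_image_of_injective _ (shr_inj ε)]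
      congr 1
      ext x
      rw [mem_filter, mem_filter]
      rw [below_iff h3, cr_shr]
    · rcases h6 with h6 | h6
      · obtain ⟨i, hi⟩ := hc _ h6
        exact Or.inl ⟨i, mem_image_of_mem _ hi⟩
      · obtain ⟨i, hi⟩ := hc _ h6
        exact Or.inr ⟨i, mem_image_of_mem _ hi⟩
  · intro L hL L' hL' h
    rw [mem_coe, Set.Finite.mem_toFinset] at hL hL'
    obtain ⟨h1, h2, h3, h4, h5, -⟩ := hz L hL
    obtain ⟨h1', h2', h3', h4', h5', -⟩ := hz L' hL'
    simp only [Prod.mk.injEq] at h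
    rw [h5, h5', shr_inj ε h.1, shr_inj ε h.2]

open scoped Classical in
/-- **the bound** -/
theorem main {P : Finset (ℝ × ℝ)} (hP : Gen P) {c : ℕ} (A : Fin c → Finset (ℝ × ℝ))
    (hA : ∀ i, ConvexPosition (A i)) :
    ({L | IsBisector P L}.ncard : ℝ) ≤ 4 * c * #P +
      7 * ((#{p ∈ P | ∀ i, p ∉ A i} : ℝ) * #P) ^ (2 / 3 : ℝ) := by
  obtain ⟨ε, hε⟩ := exists_shear P
  have hG := gp_shear hP hε
  have h1 := TH124.KE.kes_bound (k := #P / 2 - 1) hG (fun i => (A i).image (shr ε)) (by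
    intro i a ha
    obtain ⟨a', ha', rfl⟩ := mem_image.mp ha
    exact ext_shear (hA i) ε ha')
  rw [card_image_of_injective _ (shr_inj ε)] at h1
  have h2 : (P.image (shr ε)) \ univ.biUnion (fun i => (A i).image (shr ε)) =
      ({p ∈ P | ∀ i, p ∉ A i} : Finset (ℝ × ℝ)).image (shr ε) := by
    ext x
    simp only [mem_sdiff, mem_image, mem_biUnion, mem_univ, true_and, mem_filter, not_exists]
    constructor
    · rintro ⟨⟨y, hy, rfl⟩, h⟩
      exact ⟨y, ⟨hy, fun i hi => h i y ⟨hi, rfl⟩⟩, rfl⟩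
    · rintro ⟨y, ⟨hy, h⟩, rfl⟩
      refine ⟨⟨y, hy, rfl⟩, ?_⟩
      rintro i w ⟨hw, hw2⟩
      rw [shr_inj ε hw2] at hw
      exact h i hw
  rw [h2, card_image_of_injective _ (shr_inj ε)] at h1
  have h3 : (({L | IsBisector P L}.ncard : ℕ) : ℝ) ≤
      (#(TH124.KE.kes (P.image (shr ε)) (#P / 2 - 1)) : ℕ) := by
    exact_mod_cast bis_le hε
  exact h3.trans h1

end Pool.Agent.Y429.HalvFew
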