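import Mathlib

/-!
# Dense graphs without almost regular subgraphs (union bound)

`n` vertices `b`, levels `j < L` with `a j` vertices, each `b` has one random neighbour `φ j b` in
each level. Following Pyber, Rödl and Szemerédi.
-/

set_option autoImplicit false

namespace Pool.Agent.Y429.Sauer

open Finset

theorem pow_self_le (r : ℕ) : (r : ℝ) ^ r ≤ 4 ^ r * (r.factorial : ℝ) := by
  have h := Real.pow_div_factorial_le_exp (r : ℝ) (by positivity) r
  have hf : (0 : ℝ) < (r.factorial : ℝ) := by positivity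
  rw [div_le_iff₀ hf] at h
  refine h.trans (mul_le_mul_of_nonneg_right ?_ hf.le)
  have h1 : Real.exp (r : ℝ) = Real.exp 1 ^ r := by
    rw [← Real.exp_nat_mul, mul_one]
  rw [h1]
  have := Real.exp_one_lt_d9
  exact pow_le_pow_left₀ (Real.exp_pos 1).le (by linarith) r

theorem choose_mul_pow_le (a r : ℕ) : (a.choose r : ℝ) * (r : ℝ) ^ r ≤ (4 * (a : ℝ)) ^ r := by
  have h1 : (a.choose r : ℝ) ≤ (a : ℝ) ^ r / (r.factorial : ℝ) := Nat.choose_le_pow_div r a
  have hf : (0 : ℝ) < (r.factorial : ℝ) := by positivity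
  calc (a.choose r : ℝ) * (r : ℝ) ^ r
      ≤ ((a : ℝ) ^ r / (r.factorial : ℝ)) * (4 ^ r * (r.factorial : ℝ)) :=
        mul_le_mul h1 (pow_self_le r) (by positivity) (by positivity)
    _ = (4 * (a : ℝ)) ^ r := by
        rw [mul_pow]
        field_simp

open scoped Classical in
/-- maps with a small image -/
theorem card_small_image (n a : ℕ) (S : Finset (Fin n)) (hr : S.card / 2 ≤ a) :
    (univ.filter (fun f : Fin n → Fin a => 2 * (S.image f).card ≤ S.card)).card ≤
      a.choose (S.card / 2) * ((S.card / 2) ^ S.card * a ^ (n - S.card)) := by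
  have hsub : (univ.filter (fun f : Fin n → Fin a => 2 * (S.image f).card ≤ S.card)) ⊆
      (powersetCard (S.card / 2) (univ : Finset (Fin a))).biUnion
        (fun R => Fintype.piFinset (fun b => if b ∈ S then R else univ)) := by
    intro f hf
    rw [mem_filter] at hf
    obtain ⟨R, hR, hRcard⟩ := Finset.exists_superset_card_eq
      (s := S.image f) (n := S.card / 2) (by omega) (by rw [Fintype.card_fin]; exact hr)
    rw [mem_biUnion]
    refine ⟨R, mem_powersetCard.mpr ⟨subset_univ _, hRcard⟩, ?_⟩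
    rw [Fintype.mem_piFinset]
    intro b
    split_ifs with h
    · exact hR (mem_image_of_mem f h)
    · exact mem_univ _
  refine (card_le_card hsub).trans ?_
  refine card_biUnion_le.trans ?_
  have hcard : ∀ R ∈ powersetCard (S.card / 2) (univ : Finset (Fin a)),
      (Fintype.piFinset (fun b => if b ∈ S then R else univ)).card =
        (S.card / 2) ^ S.card * a ^ (n - S.card) := by
    intro R hR
    rw [mem_powersetCard] at hR
    rw [Fintype.card_piFinset]
    have h1 : ∀ b : Fin n, (if b ∈ S then R else univ : Finset (Fin a)).card =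
        if b ∈ S then S.card / 2 else a := by
      intro b
      split_ifs
      · exact hR.2
      · simp
    rw [prod_congr rfl fun b _ => h1 b, prod_ite, prod_const, prod_const]
    congr 2
    · congr 1
      ext b
      simp
    · have : (univ.filter (fun b => b ∉ S)) = Sᶜ := by
        ext b
        simp
      rw [this, card_compl, Fintype.card_fin]
  rw [sum_congr rfl hcard, sum_const, card_powersetCard, smul_eq_mul, card_univ, Fintype.card_fin]

open scoped Classical in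
theorem card_small_image_real (n a : ℕ) (ha : 0 < a) (S : Finset (Fin n)) (ρ : ℝ) (hρ : 0 ≤ ρ)
    (hρ1 : ρ ≤ 1) (h : 4 * ((S.card / 2 : ℕ) : ℝ) ≤ ρ ^ 2 * a) :
    ((univ.filter (fun f : Fin n → Fin a => 2 * (S.image f).card ≤ S.card)).card : ℝ) ≤
      (a : ℝ) ^ n * ρ ^ S.card := by
  obtain ⟨r, hr⟩ : ∃ r, r = S.card / 2 := ⟨_, rfl⟩
  obtain ⟨e, he⟩ : ∃ e, e = S.card := ⟨_, rfl⟩
  have haR : (0 : ℝ) < a := by exact_mod_cast ha
  have hρ2 : ρ ^ 2 ≤ 1 := pow_le_one₀ hρ hρ1
  rw [← hr] at h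
  have hra : r ≤ a := by
    have : 4 * (r : ℝ) ≤ a := by nlinarith
    have h4 : 4 * r ≤ a := by exact_mod_cast this
    omega
  have h1 := card_small_image n a S (by rw [← hr]; exact hra)
  rw [← he] at h1 ⊢
  have hen : e ≤ n := by
    rw [he]
    simpa using card_le_univ S
  have hre : r = e / 2 := by rw [hr, he]
  rw [← hre] at h1
  have h2 : ((univ.filter (fun f : Fin n → Fin a => 2 * (S.image f).card ≤ e)).card : ℝ) ≤
      (a.choose r : ℝ) * ((r : ℝ) ^ e * (a : ℝ) ^ (n - e)) := by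
    exact_mod_cast h1
  refine h2.trans ?_
  have hsplit : (r : ℝ) ^ e = (r : ℝ) ^ r * (r : ℝ) ^ (e - r) := by
    rw [← pow_add]
    congr 1
    omega
  have hasplit : (a : ℝ) ^ n = (a : ℝ) ^ r * (a : ℝ) ^ (e - r) * (a : ℝ) ^ (n - e) := by
    rw [← pow_add, ← pow_add]
    congr 1
    omega
  have h3 : (a.choose r : ℝ) * (r : ℝ) ^ r ≤ 4 ^ r * (a : ℝ) ^ r := by
    have := choose_mul_pow_le a r
    rwa [mul_pow] at this
  have h4 : (4 : ℝ) ^ r ≤ 4 ^ (e - r) := pow_le_pow_right₀ (by norm_num) (by omega)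
  have h5 : (4 * (r : ℝ)) ^ (e - r) ≤ (ρ ^ 2 * a) ^ (e - r) :=
    pow_le_pow_left₀ (by positivity) h _
  have h6 : (ρ ^ 2) ^ (e - r) ≤ ρ ^ e := by
    rw [← pow_mul]
    exact pow_le_pow_of_le_one hρ hρ1 (by omega)
  calc (a.choose r : ℝ) * ((r : ℝ) ^ e * (a : ℝ) ^ (n - e))
      = ((a.choose r : ℝ) * (r : ℝ) ^ r) * (r : ℝ) ^ (e - r) * (a : ℝ) ^ (n - e) := by
        rw [hsplit]; ring
    _ ≤ (4 ^ r * (a : ℝ) ^ r) * (r : ℝ) ^ (e - r) * (a : ℝ) ^ (n - e) := by gcongr
    _ ≤ (4 ^ (e - r) * (a : ℝ) ^ r) * (r : ℝ) ^ (e - r) * (a : ℝ) ^ (n - e) := by gcongr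
    _ = (a : ℝ) ^ r * (4 * (r : ℝ)) ^ (e - r) * (a : ℝ) ^ (n - e) := by
        rw [mul_pow]; ring
    _ ≤ (a : ℝ) ^ r * (ρ ^ 2 * a) ^ (e - r) * (a : ℝ) ^ (n - e) := by gcongr
    _ = (a : ℝ) ^ r * (a : ℝ) ^ (e - r) * (a : ℝ) ^ (n - e) * (ρ ^ 2) ^ (e - r) := by
        rw [mul_pow]; ring
    _ ≤ (a : ℝ) ^ r * (a : ℝ) ^ (e - r) * (a : ℝ) ^ (n - e) * ρ ^ e := by gcongr
    _ = (a : ℝ) ^ n * ρ ^ e := by rw [hasplit]

/-- the levels `j` with `n m ≤ (a j)²` -/
def good {L : ℕ} (n m : ℕ) (a : Fin L → ℕ) (j : Fin L) : Prop := n * m ≤ (a j) ^ 2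

open scoped Classical in
/-- most edges lie in good levels -/
theorem sum_good (n L K m : ℕ) (a : Fin L → ℕ) (hn : 0 < n)
    (h2 : ∀ i j : Fin L, i < j → 4 * K * L * n * a j ≤ (a i) ^ 2)
    (e : Fin L → ℕ) (hem : ∀ j, e j ≤ m) (heK : ∀ j, e j ≤ K * a j)
    (hsum : 10 * m ≤ ∑ j, e j) :
    8 * m ≤ ∑ j ∈ univ.filter (fun j => good n m a j), e j := by
  -- small levels
  obtain ⟨Sm, hSm⟩ : ∃ Sm : Finset (Fin L), Sm = univ.filter (fun j => 4 * K * L * a j ≤ m) :=
    ⟨_, rfl⟩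
  obtain ⟨Gd, hGd⟩ : ∃ Gd : Finset (Fin L), Gd = univ.filter (fun j => good n m a j) :=
    ⟨_, rfl⟩
  obtain ⟨Cr, hCr⟩ : ∃ Cr : Finset (Fin L), Cr = univ.filter
    (fun j => ¬ 4 * K * L * a j ≤ m ∧ ¬ good n m a j) := ⟨_, rfl⟩
  rw [← hGd]
  have hcover : ∑ j, e j ≤ ∑ j ∈ Sm, e j + ∑ j ∈ Gd, e j + ∑ j ∈ Cr, e j := by
    have h : (univ : Finset (Fin L)) ⊆ (Sm ∪ Gd) ∪ Cr := by
      intro j _
      rw [mem_union, mem_union, hSm, hGd, hCr, mem_filter, mem_filter, mem_filter]
      tauto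
    calc ∑ j, e j ≤ ∑ j ∈ (Sm ∪ Gd) ∪ Cr, e j := sum_le_sum_of_subset h
      _ ≤ ∑ j ∈ Sm ∪ Gd, e j + ∑ j ∈ Cr, e j := by
          rw [← sum_union_inter]
          exact Nat.le_add_right _ _
      _ ≤ _ := by
          have : ∑ j ∈ Sm ∪ Gd, e j ≤ ∑ j ∈ Sm, e j + ∑ j ∈ Gd, e j := by
            rw [← sum_union_inter]
            exact Nat.le_add_right _ _
          omega
  have hsmall : 4 * ∑ j ∈ Sm, e j ≤ m := by
    rcases Nat.eq_zero_or_pos L with hL | hL
    · subst hL
      have : Sm = ∅ := by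
        apply Finset.eq_empty_of_isEmpty
      rw [this]
      simp
    · have h3 : ∀ j ∈ Sm, L * (4 * e j) ≤ m := by
        intro j hj
        rw [hSm, mem_filter] at hj
        calc L * (4 * e j) ≤ L * (4 * (K * a j)) :=
              Nat.mul_le_mul_left _ (Nat.mul_le_mul_left _ (heK j))
          _ = 4 * K * L * a j := by ring
          _ ≤ m := hj.2
      have h4 : L * (4 * ∑ j ∈ Sm, e j) ≤ L * m := by
        calc L * (4 * ∑ j ∈ Sm, e j) = ∑ j ∈ Sm, L * (4 * e j) := by
              rw [mul_sum, mul_sum]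
          _ ≤ ∑ _j ∈ Sm, m := sum_le_sum h3
          _ = Sm.card * m := by rw [sum_const, smul_eq_mul]
          _ ≤ L * m := by
              apply Nat.mul_le_mul_right
              simpa using card_le_univ Sm
      exact Nat.le_of_mul_le_mul_left h4 hL
  have hcrit : ∑ j ∈ Cr, e j ≤ m := by
    have hle : Cr.card ≤ 1 := by
      rw [card_le_one]
      intro i hi j hj
      rw [hCr, mem_filter] at hi hj
      unfold good at hi hj
      by_contra hne
      rcases lt_or_gt_of_ne hne with hij | hij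
      · have := h2 i j hij
        have h5 : n * m < n * (4 * K * L * a j) :=
          Nat.mul_lt_mul_of_pos_left (by omega) hn
        have h6 : n * (4 * K * L * a j) = 4 * K * L * n * a j := by ring
        omega
      · have := h2 j i hij
        have h5 : n * m < n * (4 * K * L * a i) :=
          Nat.mul_lt_mul_of_pos_left (by omega) hn
        have h6 : n * (4 * K * L * a i) = 4 * K * L * n * a i := by ring
        omega
    calc ∑ j ∈ Cr, e j ≤ ∑ _j ∈ Cr, m := sum_le_sum fun j _ => hem j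
      _ = Cr.card * m := by rw [sum_const, smul_eq_mul]
      _ ≤ 1 * m := Nat.mul_le_mul_right _ hle
      _ = m := one_mul m
  omega

end Pool.Agent.Y429.Sauer
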