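import Pool.Agent.Y429.Sauer

/-!
# The union bound
-/

set_option autoImplicit false

namespace Pool.Agent.Y429.Sauer

open Finset

/-- a certificate of density -/
def cert {n L : ℕ} (K : ℕ) (a : Fin L → ℕ) (B : Finset (Fin n)) (S : Fin L → Finset (Fin n)) :
    Prop :=
  B.Nonempty ∧ (∀ j, S j ⊆ B) ∧ (∀ j, (S j).card ≤ K * a j) ∧ 10 * B.card ≤ ∑ j, (S j).card

/-- the functions which are bad for a certificate -/
def bad {n L : ℕ} (a : Fin L → ℕ) (S : Fin L → Finset (Fin n)) (φ : ∀ j : Fin L, Fin n → Fin (a j)) :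
    Prop :=
  ∀ j, 2 * ((S j).image (φ j)).card ≤ (S j).card

open scoped Classical in
theorem card_bad {n L : ℕ} (a : Fin L → ℕ) (S : Fin L → Finset (Fin n)) :
    (univ.filter (fun φ : ∀ j : Fin L, Fin n → Fin (a j) => bad a S φ)).card =
      ∏ j, (univ.filter (fun f : Fin n → Fin (a j) =>
        2 * ((S j).image f).card ≤ (S j).card)).card := by
  rw [← Fintype.card_piFinset]
  congr 1
  ext φ
  rw [mem_filter, Fintype.mem_piFinset]
  unfold bad
  constructor
  · intro h j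
    rw [mem_filter]
    exact ⟨mem_univ _, h.2 j⟩
  · intro h
    refine ⟨mem_univ _, fun j => ?_⟩
    have := h j
    rw [mem_filter] at this
    exact this.2

open scoped Classical in
theorem card_bad_le {n L : ℕ} (K : ℕ) (a : Fin L → ℕ) (hn : 0 < n) (ha : ∀ j, 0 < a j)
    (h1 : ∀ j, 2 ^ (L + 8) * (a j) ^ 2 ≤ n ^ 2)
    (h2 : ∀ i j : Fin L, i < j → 4 * K * L * n * a j ≤ (a i) ^ 2)
    (B : Finset (Fin n)) (S : Fin L → Finset (Fin n)) (hc : cert K a B S) :
    2 ^ (L + 8) * B.card ≤ n ∧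
    ((univ.filter (fun φ : ∀ j : Fin L, Fin n → Fin (a j) => bad a S φ)).card : ℝ) ≤
      (∏ j, (a j : ℝ) ^ n) * ((4 * (B.card : ℝ) / n) ^ 2) ^ B.card := by
  obtain ⟨hB, hSB, hSK, hsum⟩ := hc
  obtain ⟨m, hm⟩ : ∃ m, m = B.card := ⟨_, rfl⟩
  rw [← hm] at hsum ⊢
  have hmpos : 0 < m := by rw [hm]; exact hB.card_pos
  have hSm : ∀ j, (S j).card ≤ m := fun j => by rw [hm]; exact card_le_card (hSB j)
  have hgood := sum_good n L K m a hn h2 (fun j => (S j).card) hSm hSK hsum
  -- a good level exists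
  have hex : ∃ j, good n m a j := by
    by_contra hno
    push Not at hno
    have : univ.filter (fun j => good n m a j) = ∅ := by
      rw [filter_eq_empty_iff]
      intro j _
      exact hno j
    rw [this, sum_empty] at hgood
    omega
  have hmn : 2 ^ (L + 8) * m ≤ n := by
    obtain ⟨j, hj⟩ := hex
    unfold good at hj
    have h3 : n * (2 ^ (L + 8) * m) ≤ n * n := by
      calc n * (2 ^ (L + 8) * m) = 2 ^ (L + 8) * (n * m) := by ring
        _ ≤ 2 ^ (L + 8) * (a j) ^ 2 := Nat.mul_le_mul_left _ hj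
        _ ≤ n ^ 2 := h1 j
        _ = n * n := by ring
    exact Nat.le_of_mul_le_mul_left h3 hn
  refine ⟨hmn, ?_⟩
  have hnR : (0 : ℝ) < n := by exact_mod_cast hn
  have hmR : (0 : ℝ) < m := by exact_mod_cast hmpos
  have h4m : 4 * (m : ℝ) / n ≤ 1 := by
    rw [div_le_one hnR]
    have h5 : 2 ^ 8 * m ≤ 2 ^ (L + 8) * m :=
      Nat.mul_le_mul_right _ (Nat.pow_le_pow_right (by norm_num) (by omega))
    have h6 : 4 * m ≤ n := by omega
    exact_mod_cast h6
  obtain ⟨q, hq⟩ : ∃ q : ℝ, q = 4 * (m : ℝ) / n := ⟨_, rfl⟩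
  rw [← hq] at h4m ⊢
  have hq0 : 0 ≤ q := by rw [hq]; positivity
  obtain ⟨ρ, hρ⟩ : ∃ ρ : ℝ, ρ = Real.sqrt (Real.sqrt q) := ⟨_, rfl⟩
  have hρ0 : 0 ≤ ρ := by rw [hρ]; exact Real.sqrt_nonneg _
  have hρ2 : ρ ^ 2 = Real.sqrt q := by rw [hρ, Real.sq_sqrt (Real.sqrt_nonneg _)]
  have hρ4 : ρ ^ 4 = q := by
    calc ρ ^ 4 = (ρ ^ 2) ^ 2 := by ring
      _ = q := by rw [hρ2, Real.sq_sqrt hq0]
  have hρ1 : ρ ≤ 1 := by
    rw [hρ]
    rw [Real.sqrt_le_one]
    rw [Real.sqrt_le_one]
    exact h4m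
  rw [card_bad]
  push_cast
  -- bound on each factor
  have hfac : ∀ j, ((univ.filter (fun f : Fin n → Fin (a j) =>
        2 * ((S j).image f).card ≤ (S j).card)).card : ℝ) ≤
      (a j : ℝ) ^ n * (if good n m a j then ρ ^ (S j).card else 1) := by
    intro j
    split_ifs with hg
    · apply card_small_image_real n (a j) (ha j) (S j) ρ hρ0 hρ1
      have h5 : ((4 * ((S j).card / 2) : ℕ) : ℝ) ≤ 2 * m := by
        have : 4 * ((S j).card / 2) ≤ 2 * m := by
          have := hSm j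
          omega
        exact_mod_cast this
      push_cast at h5
      have h6 : 2 * (m : ℝ) ≤ ρ ^ 2 * a j := by
        rw [hρ2]
        have haR : (0 : ℝ) ≤ a j := Nat.cast_nonneg _
        unfold good at hg
        have hgR : (n : ℝ) * m ≤ (a j : ℝ) ^ 2 := by exact_mod_cast hg
        have h7 : (2 * (m : ℝ)) ^ 2 ≤ (Real.sqrt q * a j) ^ 2 := by
          rw [mul_pow, mul_pow, Real.sq_sqrt hq0, hq]
          calc (2 : ℝ) ^ 2 * (m : ℝ) ^ 2 = 4 * (m : ℝ) / n * (n * m) := by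
                field_simp; ring
            _ ≤ 4 * (m : ℝ) / n * (a j : ℝ) ^ 2 := by
                apply mul_le_mul_of_nonneg_left hgR
                rw [← hq]; exact hq0
        exact abs_le_of_sq_le_sq' h7 (mul_nonneg (Real.sqrt_nonneg _) haR) |>.2
      exact h5.trans h6
    · rw [mul_one]
      have : (univ.filter (fun f : Fin n → Fin (a j) =>
        2 * ((S j).image f).card ≤ (S j).card)).card ≤ a j ^ n := by
        refine (card_le_univ _).trans ?_
        simp
      exact_mod_cast this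
  calc ∏ j, ((univ.filter (fun f : Fin n → Fin (a j) =>
        2 * ((S j).image f).card ≤ (S j).card)).card : ℝ)
      ≤ ∏ j, ((a j : ℝ) ^ n * (if good n m a j then ρ ^ (S j).card else 1)) :=
        prod_le_prod (fun j _ => Nat.cast_nonneg _) (fun j _ => hfac j)
    _ = (∏ j, (a j : ℝ) ^ n) * ∏ j, (if good n m a j then ρ ^ (S j).card else 1) := by
        rw [prod_mul_distrib]
    _ = (∏ j, (a j : ℝ) ^ n) * ρ ^ (∑ j ∈ univ.filter (fun j => good n m a j), (S j).card) := by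
        rw [prod_ite, prod_const_one, mul_one, prod_pow_eq_pow_sum]
    _ ≤ (∏ j, (a j : ℝ) ^ n) * ρ ^ (8 * m) := by
        apply mul_le_mul_of_nonneg_left
        · exact pow_le_pow_of_le_one hρ0 hρ1 hgood
        · exact prod_nonneg fun j _ => pow_nonneg (Nat.cast_nonneg _) _
    _ = (∏ j, (a j : ℝ) ^ n) * (q ^ 2) ^ m := by
        congr 1
        rw [← hρ4]
        ring

end Pool.Agent.Y429.Sauer
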