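import Pool.Agent.Y429.SauerB

/-!
# The union bound, second part
-/

set_option autoImplicit false

namespace Pool.Agent.Y429.Sauer

open Finset

/-- weight of a size -/
noncomputable def wt (n L m : ℕ) : ℝ :=
  if m = 0 ∨ n < 2 ^ (L + 8) * m then 0 else 2 ^ (L * m) * ((4 * (m : ℝ) / n) ^ 2) ^ m

theorem wt_nonneg (n L m : ℕ) : 0 ≤ wt n L m := by
  unfold wt
  split_ifs
  · exact le_rfl
  · positivity

theorem choose_wt_le (n L m : ℕ) (hn : 0 < n) (hm : 0 < m) :
    (n.choose m : ℝ) * wt n L m ≤ (1 / 4) ^ m := by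
  unfold wt
  split_ifs with h
  · rw [mul_zero]; positivity
  · push Not at h
    have hnR : (0 : ℝ) < n := by exact_mod_cast hn
    have hmR : (0 : ℝ) < m := by exact_mod_cast hm
    have h2 : (2 : ℝ) ^ (L + 8) * m ≤ n := by exact_mod_cast h.2
    have h3 := choose_mul_pow_le n m
    have h4 : (n.choose m : ℝ) * (2 ^ (L * m) * ((4 * (m : ℝ) / n) ^ 2) ^ m) =
        ((n.choose m : ℝ) * (m : ℝ) ^ m) * ((2 ^ L * 16 * m / n ^ 2) ^ m) := by
      rw [pow_mul, mul_assoc, ← mul_pow, ← mul_pow]
      congr 2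
      field_simp
      ring
    rw [h4]
    calc ((n.choose m : ℝ) * (m : ℝ) ^ m) * ((2 ^ L * 16 * m / n ^ 2) ^ m)
        ≤ ((4 * (n : ℝ)) ^ m) * ((2 ^ L * 16 * m / n ^ 2) ^ m) := by
          apply mul_le_mul_of_nonneg_right h3
          positivity
      _ = ((2 : ℝ) ^ (L + 8) * m / (4 * n)) ^ m := by
          rw [← mul_pow]
          congr 1
          rw [pow_add]
          field_simp
          ring
      _ ≤ (1 / 4) ^ m := by
          apply pow_le_pow_left₀ (by positivity)
          rw [div_le_div_iff₀ (by positivity) (by norm_num)]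
          linarith

theorem sum_choose_wt_lt (n L : ℕ) (hn : 0 < n) :
    ∑ m ∈ range (n + 1), (n.choose m : ℝ) * wt n L m < 1 := by
  have h0 : wt n L 0 = 0 := by unfold wt; rw [if_pos (Or.inl rfl)]
  rw [sum_range_succ']
  rw [h0, mul_zero, add_zero]
  have h1 : ∑ m ∈ range n, (n.choose (m + 1) : ℝ) * wt n L (m + 1) ≤
      ∑ m ∈ range n, (1 / 4 : ℝ) * (1 / 4) ^ m := by
    apply sum_le_sum
    intro m _
    have := choose_wt_le n L (m + 1) hn (by omega)
    rwa [pow_succ, mul_comm ((1 / 4 : ℝ) ^ m)] at this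
  refine h1.trans_lt ?_
  rw [← mul_sum, geom_sum_eq (by norm_num)]
  have h2 : (0 : ℝ) < (1 / 4) ^ n := by positivity
  have h3 : ((1 / 4 : ℝ) ^ n - 1) / (1 / 4 - 1) = (1 - (1 / 4) ^ n) * (4 / 3) := by ring
  rw [h3]
  linarith

open scoped Classical in
theorem exists_good (n L K : ℕ) (a : Fin L → ℕ) (hn : 0 < n) (ha : ∀ j, 0 < a j)
    (h1 : ∀ j, 2 ^ (L + 8) * (a j) ^ 2 ≤ n ^ 2)
    (h2 : ∀ i j : Fin L, i < j → 4 * K * L * n * a j ≤ (a i) ^ 2) :
    ∃ φ : ∀ j : Fin L, Fin n → Fin (a j), ∀ (B : Finset (Fin n)) (S : Fin L → Finset (Fin n)),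
      cert K a B S → ¬ bad a S φ := by
  by_contra hno
  push Not at hno
  -- the union bound
  obtain ⟨P, hP⟩ : ∃ P : ℝ, P = ∏ j, (a j : ℝ) ^ n := ⟨_, rfl⟩
  have hPpos : 0 < P := by
    rw [hP]
    exact prod_pos fun j _ => pow_pos (by exact_mod_cast ha j) _
  have hcardu : ((univ : Finset (∀ j : Fin L, Fin n → Fin (a j))).card : ℝ) = P := by
    rw [hP, card_univ, Fintype.card_pi]
    push_cast
    apply prod_congr rfl
    intro j _
    simp
  have hsub : (univ : Finset (∀ j : Fin L, Fin n → Fin (a j))) ⊆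
      (univ : Finset (Fin n)).powerset.biUnion (fun B =>
        (Fintype.piFinset (fun _ : Fin L => B.powerset)).biUnion (fun S =>
          univ.filter (fun φ => cert K a B S ∧ bad a S φ))) := by
    intro φ _
    obtain ⟨B, S, hc, hb⟩ := hno φ
    rw [mem_biUnion]
    refine ⟨B, mem_powerset.mpr (subset_univ _), ?_⟩
    rw [mem_biUnion]
    refine ⟨S, ?_, ?_⟩
    · rw [Fintype.mem_piFinset]
      intro j
      exact mem_powerset.mpr (hc.2.1 j)
    · rw [mem_filter]
      exact ⟨mem_univ _, hc, hb⟩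
  have hle := (card_le_card hsub).trans card_biUnion_le
  have hle2 : ((univ : Finset (∀ j : Fin L, Fin n → Fin (a j))).card : ℝ) ≤
      ∑ B ∈ (univ : Finset (Fin n)).powerset, P * wt n L B.card := by
    have hle' : ((univ : Finset (∀ j : Fin L, Fin n → Fin (a j))).card : ℝ) ≤
      ∑ B ∈ (univ : Finset (Fin n)).powerset, (((Fintype.piFinset (fun _ : Fin L => B.powerset)).biUnion (fun S =>
          univ.filter (fun φ : (∀ j : Fin L, Fin n → Fin (a j)) =>
            cert K a B S ∧ bad a S φ))).card : ℝ) := by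
      exact_mod_cast hle
    refine hle'.trans (sum_le_sum fun B _ => ?_)
    have h3 : (((Fintype.piFinset (fun _ : Fin L => B.powerset)).biUnion (fun S =>
          univ.filter (fun φ : (∀ j : Fin L, Fin n → Fin (a j)) =>
            cert K a B S ∧ bad a S φ))).card : ℝ) ≤
        ∑ S ∈ Fintype.piFinset (fun _ : Fin L => B.powerset),
          ((univ.filter (fun φ : (∀ j : Fin L, Fin n → Fin (a j)) =>
            cert K a B S ∧ bad a S φ)).card : ℝ) := by
      exact_mod_cast card_biUnion_le
    refine h3.trans ?_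
    have h4 : ∀ S ∈ Fintype.piFinset (fun _ : Fin L => B.powerset),
        ((univ.filter (fun φ : (∀ j : Fin L, Fin n → Fin (a j)) =>
            cert K a B S ∧ bad a S φ)).card : ℝ) ≤
          P * (if B.card = 0 ∨ n < 2 ^ (L + 8) * B.card then 0 else
            ((4 * (B.card : ℝ) / n) ^ 2) ^ B.card) := by
      intro S _
      by_cases hc : cert K a B S
      · obtain ⟨h5, h6⟩ := card_bad_le K a hn ha h1 h2 B S hc
        rw [if_neg]
        · rw [hP]
          refine le_trans ?_ h6
          have : (univ.filter (fun φ : (∀ j : Fin L, Fin n → Fin (a j)) =>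
            cert K a B S ∧ bad a S φ)).card ≤
            (univ.filter (fun φ : (∀ j : Fin L, Fin n → Fin (a j)) => bad a S φ)).card := by
            apply card_le_card
            intro φ hφ
            rw [mem_filter] at hφ ⊢
            exact ⟨hφ.1, hφ.2.2⟩
          exact_mod_cast this
        · push Not
          exact ⟨hc.1.card_pos.ne', h5⟩
      · have : univ.filter (fun φ : (∀ j : Fin L, Fin n → Fin (a j)) =>
            cert K a B S ∧ bad a S φ) = ∅ := by
          rw [filter_eq_empty_iff]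
          intro φ _ h
          exact hc h.1
        rw [this, card_empty, Nat.cast_zero]
        apply mul_nonneg hPpos.le
        split_ifs
        · exact le_rfl
        · exact pow_nonneg (sq_nonneg _) _
    refine (sum_le_sum h4).trans ?_
    rw [sum_const, Fintype.card_piFinset, prod_const, card_powerset, card_univ, Fintype.card_fin,
      nsmul_eq_mul]
    unfold wt
    split_ifs
    · simp
    · apply le_of_eq
      push_cast
      rw [← pow_mul, mul_comm B.card L]
      ring
  rw [hcardu, ← mul_sum] at hle2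
  have h5 : ∑ B ∈ (univ : Finset (Fin n)).powerset, wt n L B.card =
      ∑ m ∈ range (n + 1), (n.choose m : ℝ) * wt n L m := by
    rw [Finset.sum_powerset_apply_card (fun m => wt n L m), card_univ, Fintype.card_fin]
    apply sum_congr rfl
    intro m _
    rw [nsmul_eq_mul]
  rw [h5] at hle2
  have h6 := sum_choose_wt_lt n L hn
  have h7 : P * ∑ m ∈ range (n + 1), (n.choose m : ℝ) * wt n L m < P * 1 :=
    mul_lt_mul_of_pos_left h6 hPpos
  linarith

end Pool.Agent.Y429.Sauer
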