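import Pool.Agent.Y429.SauerC

/-!
# The graph
-/

set_option autoImplicit false

namespace Pool.Agent.Y429.Sauer

open Finset

/-- the graph given by one neighbour in each level -/
def gr {n L : ℕ} {a : Fin L → ℕ} (φ : ∀ j : Fin L, Fin n → Fin (a j)) :
    SimpleGraph (Fin n ⊕ (Σ j : Fin L, Fin (a j))) where
  Adj x y := match x, y with
    | Sum.inl b, Sum.inr p => φ p.1 b = p.2
    | Sum.inr p, Sum.inl b => φ p.1 b = p.2
    | _, _ => False
  symm := ⟨by
    intro x y h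
    rcases x with b | p <;> rcases y with c | q <;> simp_all⟩
  loopless := ⟨by
    intro x h
    rcases x with b | p <;> simp_all⟩

theorem gr_adj_lr {n L : ℕ} {a : Fin L → ℕ} (φ : ∀ j : Fin L, Fin n → Fin (a j)) (b : Fin n)
    (p : Σ j : Fin L, Fin (a j)) : (gr φ).Adj (Sum.inl b) (Sum.inr p) ↔ φ p.1 b = p.2 := Iff.rfl

theorem gr_adj_ll {n L : ℕ} {a : Fin L → ℕ} (φ : ∀ j : Fin L, Fin n → Fin (a j)) (b c : Fin n) :
    ¬ (gr φ).Adj (Sum.inl b) (Sum.inl c) := fun h => h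

theorem gr_adj_rr {n L : ℕ} {a : Fin L → ℕ} (φ : ∀ j : Fin L, Fin n → Fin (a j))
    (p q : Σ j : Fin L, Fin (a j)) :
    ¬ (gr φ).Adj (Sum.inr p) (Sum.inr q) := fun h => h

theorem edges_ge {n L : ℕ} {a : Fin L → ℕ} (φ : ∀ j : Fin L, Fin n → Fin (a j)) :
    n * L ≤ (gr φ).edgeSet.ncard := by
  obtain ⟨f, hf⟩ : ∃ f : Fin n × Fin L → Sym2 (Fin n ⊕ (Σ j : Fin L, Fin (a j))),
    f = fun q => s(Sum.inl q.1, Sum.inr ⟨q.2, φ q.2 q.1⟩) := ⟨_, rfl⟩
  have hinj : Function.Injective f := by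
    intro q r h
    rw [hf] at h
    simp only [Sym2.eq_iff] at h
    rcases h with ⟨h1, h2⟩ | ⟨h1, h2⟩
    · have e1 : q.1 = r.1 := Sum.inl_injective h1
      have e2 := Sum.inr_injective h2
      have e3 : q.2 = r.2 := congrArg Sigma.fst e2
      exact Prod.ext e1 e3
    · cases h1
  have hsub : Set.range f ⊆ (gr φ).edgeSet := by
    rintro _ ⟨q, rfl⟩
    rw [hf]
    rw [SimpleGraph.mem_edgeSet, gr_adj_lr]
  have h1 := Set.ncard_le_ncard hsub (Set.toFinite _)
  have h2 : (Set.range f).ncard = n * L := by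
    rw [← Set.image_univ, Set.ncard_image_of_injective _ hinj, Set.ncard_univ]
    simp
  omega

open scoped Classical in
theorem no_quasi {n L K : ℕ} (a : Fin L → ℕ) (φ : ∀ j : Fin L, Fin n → Fin (a j))
    (hφ : ∀ (B : Finset (Fin n)) (S : Fin L → Finset (Fin n)), cert K a B S → ¬ bad a S φ)
    (k : ℕ) (hk : 9 ≤ k) (H : (gr φ).Subgraph) (hne : H.verts.Nonempty)
    (hdeg : ∀ x ∈ H.verts, k < (H.neighborSet x).ncard ∧ (H.neighborSet x).ncard ≤ K) :
    False := by
  obtain ⟨B, hB⟩ : ∃ B : Finset (Fin n), B = univ.filter (fun b => Sum.inl b ∈ H.verts) :=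
    ⟨_, rfl⟩
  obtain ⟨S, hS⟩ : ∃ S : Fin L → Finset (Fin n), S = fun j =>
    univ.filter (fun b => H.Adj (Sum.inl b) (Sum.inr ⟨j, φ j b⟩)) := ⟨_, rfl⟩
  have hmemS : ∀ j b, b ∈ S j ↔ H.Adj (Sum.inl b) (Sum.inr ⟨j, φ j b⟩) := by
    intro j b
    rw [hS]
    simp
  have hmemB : ∀ b, b ∈ B ↔ Sum.inl b ∈ H.verts := by
    intro b
    rw [hB]
    simp
  have hSB : ∀ j, S j ⊆ B := by
    intro j b hb
    rw [hmemS] at hb
    rw [hmemB]
    exact H.edge_vert hb
  -- neighbourhoods on the right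
  have hright : ∀ j (x : Fin (a j)), (H.neighborSet (Sum.inr ⟨j, x⟩)).ncard =
      ((S j).filter (fun b => φ j b = x)).card := by
    intro j x
    have : H.neighborSet (Sum.inr ⟨j, x⟩) =
        Sum.inl '' (((S j).filter (fun b => φ j b = x) : Finset (Fin n)) : Set (Fin n)) := by
      ext y
      rw [SimpleGraph.Subgraph.mem_neighborSet]
      constructor
      · intro h
        have hG := H.adj_sub h
        rcases y with b | q
        · refine ⟨b, ?_, rfl⟩
          have hx : φ j b = x := hG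
          rw [mem_coe, mem_filter, hmemS]
          refine ⟨?_, hx⟩
          rw [hx]
          exact h.symm
        · exact absurd hG (gr_adj_rr φ _ _)
      · rintro ⟨b, hb, rfl⟩
        rw [mem_coe, mem_filter, hmemS] at hb
        obtain ⟨h1, h2⟩ := hb
        rw [h2] at h1
        exact h1.symm
    rw [this, Set.ncard_image_of_injective _ Sum.inl_injective, Set.ncard_coe_finset]
  -- neighbourhoods on the left
  have hleft : ∀ b, (H.neighborSet (Sum.inl b)).ncard =
      (univ.filter (fun j => b ∈ S j)).card := by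
    intro b
    have : H.neighborSet (Sum.inl b) =
        (fun j => (Sum.inr ⟨j, φ j b⟩ : Fin n ⊕ (Σ j : Fin L, Fin (a j)))) ''
          ((univ.filter (fun j => b ∈ S j) : Finset (Fin L)) : Set (Fin L)) := by
      ext y
      rw [SimpleGraph.Subgraph.mem_neighborSet]
      constructor
      · intro h
        have hG := H.adj_sub h
        rcases y with c | ⟨j, x⟩
        · exact absurd hG (gr_adj_ll φ _ _)
        · have hx : φ j b = x := hG
          subst hx
          refine ⟨j, ?_, rfl⟩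
          rw [mem_coe, mem_filter, hmemS]
          exact ⟨mem_univ _, h⟩
      · rintro ⟨j, hj, rfl⟩
        rw [mem_coe, mem_filter, hmemS] at hj
        exact hj.2
    rw [this, Set.ncard_image_of_injective, Set.ncard_coe_finset]
    intro j j' h
    have := Sum.inr_injective h
    exact congrArg Sigma.fst this
  -- fibres
  have hfib : ∀ j, (S j).card = ∑ x : Fin (a j), ((S j).filter (fun b => φ j b = x)).card := by
    intro j
    exact card_eq_sum_card_fiberwise (fun b _ => mem_univ _)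
  have hfibim : ∀ j, (S j).card =
      ∑ x ∈ (S j).image (φ j), ((S j).filter (fun b => φ j b = x)).card := by
    intro j
    exact card_eq_sum_card_fiberwise (fun b hb => mem_image_of_mem _ hb)
  have hK : ∀ j (x : Fin (a j)), ((S j).filter (fun b => φ j b = x)).card ≤ K := by
    intro j x
    by_cases hx : Sum.inr ⟨j, x⟩ ∈ H.verts
    · rw [← hright]
      exact (hdeg _ hx).2
    · have : (S j).filter (fun b => φ j b = x) = ∅ := by
        rw [filter_eq_empty_iff]
        intro b hb hbx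
        rw [hmemS, hbx] at hb
        exact hx (H.edge_vert hb.symm)
      rw [this, card_empty]
      exact Nat.zero_le _
  refine hφ B S ⟨?_, hSB, ?_, ?_⟩ ?_
  · obtain ⟨x, hx⟩ := hne
    rcases x with b | ⟨j, x⟩
    · exact ⟨b, (hmemB b).mpr hx⟩
    · have h1 := (hdeg _ hx).1
      rw [hright] at h1
      have h2 : 0 < ((S j).filter (fun b => φ j b = x)).card := by omega
      obtain ⟨b, hb⟩ := card_pos.mp h2
      rw [mem_filter] at hb
      exact ⟨b, hSB j hb.1⟩
  · intro j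
    rw [hfib j]
    calc ∑ x : Fin (a j), ((S j).filter (fun b => φ j b = x)).card
        ≤ ∑ _x : Fin (a j), K := sum_le_sum fun x _ => hK j x
      _ = K * a j := by
          rw [sum_const, card_univ, Fintype.card_fin, smul_eq_mul, mul_comm]
  · have h1 : ∑ j, (S j).card = ∑ b ∈ B, (univ.filter (fun j => b ∈ S j)).card := by
      have h2 : ∀ j, (S j).card = ∑ b ∈ B, if b ∈ S j then 1 else 0 := by
        intro j
        rw [← sum_filter, sum_const, smul_eq_mul, mul_one]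
        congr 1
        ext b
        rw [mem_filter]
        exact ⟨fun h => ⟨hSB j h, h⟩, fun h => h.2⟩
      rw [sum_congr rfl fun j _ => h2 j, sum_comm]
      apply sum_congr rfl
      intro b _
      rw [card_filter]
    rw [h1, mul_comm, ← smul_eq_mul, ← sum_const]
    apply sum_le_sum
    intro b hb
    rw [hmemB] at hb
    have h2 := (hdeg _ hb).1
    rw [hleft] at h2
    omega
  · intro j
    rw [hfibim j, mul_comm, ← smul_eq_mul, ← sum_const]
    apply sum_le_sum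
    intro x hx
    rw [mem_image] at hx
    obtain ⟨b, hb, hbx⟩ := hx
    rw [hmemS, hbx] at hb
    have h2 := (hdeg _ (H.edge_vert hb.symm)).1
    rw [hright] at h2
    omega

theorem sq_le_two_pow (L : ℕ) : L ^ 2 ≤ 2 ^ (L + 8) := by
  induction L with
  | zero => norm_num
  | succ L ih =>
    have h1 : L < 2 ^ L := Nat.lt_two_pow_self
    have h2 : 2 ^ L ≤ 2 ^ (L + 8) := Nat.pow_le_pow_right (by norm_num) (by omega)
    have h3 : 2 ^ (L + 1 + 8) = 2 * 2 ^ (L + 8) := by ring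
    have h4 : 2 ^ (L + 8) = 256 * 2 ^ L := by ring
    rw [h3]
    nlinarith

theorem sum_le_n {n L : ℕ} (a : Fin L → ℕ) (h1 : ∀ j, 2 ^ (L + 8) * (a j) ^ 2 ≤ n ^ 2) :
    ∑ j, a j ≤ n := by
  rcases Nat.eq_zero_or_pos L with hL | hL
  · subst hL
    simp
  · have h2 : ∀ j, L * a j ≤ n := by
      intro j
      have h3 : (L * a j) ^ 2 ≤ n ^ 2 := by
        rw [mul_pow]
        exact (Nat.mul_le_mul_right _ (sq_le_two_pow L)).trans (h1 j)
      exact (Nat.pow_le_pow_iff_left (by norm_num)).mp h3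
    have h3 : L * ∑ j, a j ≤ L * n := by
      rw [mul_sum]
      calc ∑ j, L * a j ≤ ∑ _j : Fin L, n := sum_le_sum fun j _ => h2 j
        _ = L * n := by rw [sum_const, card_univ, Fintype.card_fin, smul_eq_mul]
    exact Nat.le_of_mul_le_mul_left h3 hL

theorem exists_params (L K : ℕ) : ∃ (n : ℕ) (a : Fin L → ℕ), 0 < n ∧ (∀ j, 0 < a j) ∧
    (∀ j, 2 ^ (L + 8) * (a j) ^ 2 ≤ n ^ 2) ∧
    (∀ i j : Fin L, i < j → 4 * K * L * n * a j ≤ (a i) ^ 2) := by
  obtain ⟨s, hs⟩ : ∃ s, s = 4 * K * L + L + 10 := ⟨_, rfl⟩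
  have hspos : 0 < s := by omega
  obtain ⟨X, hX⟩ : ∃ X, X = s ^ (L + 1) := ⟨_, rfl⟩
  have hle : ∀ j : Fin L, s ^ ((j : ℕ) + 1) ≤ X := by
    intro j
    rw [hX]
    exact Nat.pow_le_pow_right hspos (by omega)
  have hge : ∀ j : Fin L, s ≤ s ^ ((j : ℕ) + 1) := by
    intro j
    calc s = s ^ 1 := (pow_one s).symm
      _ ≤ s ^ ((j : ℕ) + 1) := Nat.pow_le_pow_right hspos (by omega)
  refine ⟨2 ^ X, fun j => 2 ^ (X - s ^ ((j : ℕ) + 1)), by positivity, fun j => by positivity,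
    ?_, ?_⟩
  · intro j
    show 2 ^ (L + 8) * (2 ^ (X - s ^ ((j : ℕ) + 1))) ^ 2 ≤ (2 ^ X) ^ 2
    rw [← pow_mul, ← pow_mul, ← pow_add]
    apply Nat.pow_le_pow_right (by norm_num)
    have := hle j
    have := hge j
    omega
  · intro i j hij
    show 4 * K * L * 2 ^ X * 2 ^ (X - s ^ ((j : ℕ) + 1)) ≤ (2 ^ (X - s ^ ((i : ℕ) + 1))) ^ 2
    have h1 : 4 * K * L ≤ 2 ^ (4 * K * L) := Nat.lt_two_pow_self.le
    have h2 := hle i
    have h3 := hle j
    have h4 := hge i
    have h5 : s * s ^ ((i : ℕ) + 1) ≤ s ^ ((j : ℕ) + 1) := by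
      rw [mul_comm, ← pow_succ]
      apply Nat.pow_le_pow_right hspos
      have : (i : ℕ) < j := hij
      omega
    obtain ⟨t, ht⟩ : ∃ t, t = s ^ ((i : ℕ) + 1) := ⟨_, rfl⟩
    obtain ⟨u, hu⟩ : ∃ u, u = s ^ ((j : ℕ) + 1) := ⟨_, rfl⟩
    rw [← ht] at h2 h4 h5 ⊢
    rw [← hu] at h3 h5 ⊢
    have h6 : 4 * K * L + 2 * t ≤ s * t := by
      have : 4 * K * L * 1 ≤ 4 * K * L * t := Nat.mul_le_mul_left _ (by omega)
      have h7 : s * t = 4 * K * L * t + L * t + 10 * t := by rw [hs]; ring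
      have : 0 ≤ L * t := Nat.zero_le _
      omega
    calc 4 * K * L * 2 ^ X * 2 ^ (X - u) ≤ 2 ^ (4 * K * L) * 2 ^ X * 2 ^ (X - u) := by
          apply Nat.mul_le_mul_right
          exact Nat.mul_le_mul_right _ h1
      _ = 2 ^ (4 * K * L + X + (X - u)) := by rw [pow_add, pow_add]
      _ ≤ 2 ^ ((X - t) * 2) := by
          apply Nat.pow_le_pow_right (by norm_num)
          omega
      _ = (2 ^ (X - t)) ^ 2 := by rw [← pow_mul]

/-- the main theorem -/
theorem main (C F : ℝ) (k : ℕ) (hk : 9 ≤ k) :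
    ∃ (V : Type) (_ : Fintype V) (_ : Nonempty V) (G : SimpleGraph V),
      F * Fintype.card V ≤ (G.edgeSet.ncard : ℝ) ∧
      ∀ H : G.Subgraph, H.verts.Nonempty →
        ¬ ∀ x ∈ H.verts, (k : ℝ) < ((H.neighborSet x).ncard : ℝ) ∧
          ((H.neighborSet x).ncard : ℝ) < C * k := by
  obtain ⟨L, hL⟩ : ∃ L : ℕ, 2 * F ≤ L := exists_nat_ge (2 * F)
  obtain ⟨K, hK⟩ : ∃ K : ℕ, C * k ≤ K := exists_nat_ge (C * k)
  obtain ⟨n, a, hn, ha, h1, h2⟩ := exists_params L K
  obtain ⟨φ, hφ⟩ := exists_good n L K a hn ha h1 h2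
  refine ⟨Fin n ⊕ (Σ j : Fin L, Fin (a j)), inferInstance, ⟨Sum.inl ⟨0, hn⟩⟩, gr φ, ?_, ?_⟩
  · have h3 := edges_ge φ
    have h4 := sum_le_n a h1
    have hcard : Fintype.card (Fin n ⊕ (Σ j : Fin L, Fin (a j))) = n + ∑ j, a j := by
      simp
    rw [hcard]
    have h3R : (n : ℝ) * L ≤ ((gr φ).edgeSet.ncard : ℝ) := by exact_mod_cast h3
    refine le_trans ?_ h3R
    have h5 : ((n + ∑ j, a j : ℕ) : ℝ) ≤ 2 * n := by
      have : n + ∑ j, a j ≤ 2 * n := by omega
      exact_mod_cast this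
    have h6 : (0 : ℝ) ≤ ((n + ∑ j, a j : ℕ) : ℝ) := Nat.cast_nonneg _
    have h7 : (0 : ℝ) ≤ L := Nat.cast_nonneg _
    nlinarith
  · intro H hne hall
    refine no_quasi a φ hφ k hk H hne fun x hx => ?_
    obtain ⟨h3, h4⟩ := hall x hx
    exact ⟨by exact_mod_cast h3, by exact_mod_cast (h4.le.trans hK)⟩

end Pool.Agent.Y429.Sauer
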