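import Mathlib

/-!
# Blow-ups of tensor powers of complete graphs: counting copies

`X = (Fin D → Fin N)`, two points being joined if they differ in all the coordinates. The number of
homomorphisms from a graph `F` to this graph is the `D`-th power of the number of colourings of `F`.
The vertices of the blow-up are `Fin n`, the type of `v` being determined by `v` modulo `N ^ D`.
-/

set_option autoImplicit false

namespace Pool.Agent.Y429.Tens

/-- colourings of the relation `adj` with `N` colours -/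
abbrev Col (V : Type) (adj : V → V → Prop) (N : ℕ) : Type :=
  {ψ : V → Fin N // ∀ i j, adj i j → ψ i ≠ ψ j}

/-- homomorphisms to the tensor power -/
abbrev HomX (V : Type) (adj : V → V → Prop) (N D : ℕ) : Type :=
  {φ : V → (Fin D → Fin N) // ∀ i j, adj i j → ∀ l, φ i l ≠ φ j l}

/-- a homomorphism to the tensor power is a `D`-tuple of colourings -/
def homEquiv (V : Type) (adj : V → V → Prop) (N D : ℕ) :
    HomX V adj N D ≃ (Fin D → Col V adj N) where
  toFun φ l := ⟨fun i => φ.1 i l, fun i j h => φ.2 i j h l⟩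
  invFun g := ⟨fun i l => (g l).1 i, fun i j h l => (g l).2 i j h⟩
  left_inv _ := rfl
  right_inv _ := rfl

theorem card_homX (V : Type) [Finite V] (adj : V → V → Prop) (N D : ℕ) :
    Nat.card (HomX V adj N D) = Nat.card (Col V adj N) ^ D := by
  rw [Nat.card_congr (homEquiv V adj N D), Nat.card_fun]
  simp

/-- lifting: maps `f : V → Y` with `τ ∘ f ∈ H` -/
def liftEquiv {V X Y : Type} (τ : Y → X) (H : (V → X) → Prop) :
    {f : V → Y // H (τ ∘ f)} ≃ (Σ φ : {φ : V → X // H φ}, ∀ i, {y : Y // τ y = φ.1 i}) where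
  toFun f := ⟨⟨τ ∘ f.1, f.2⟩, fun i => ⟨f.1 i, rfl⟩⟩
  invFun g := ⟨fun i => (g.2 i).1, by
    have : (τ ∘ fun i => (g.2 i).1) = g.1.1 := funext fun i => (g.2 i).2
    rw [this]
    exact g.1.2⟩
  left_inv _ := rfl
  right_inv g := by
    obtain ⟨⟨φ, hφ⟩, g⟩ := g
    have h : (τ ∘ fun i => (g i).1) = φ := funext fun i => (g i).2
    refine Sigma.ext (Subtype.ext h) ?_
    apply Function.hfunext rfl
    intro i j hij
    obtain rfl := eq_of_heq hij
    refine (Subtype.heq_iff_coe_eq ?_).mpr rfl
    intro y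
    have := congrFun h i
    simp only [Function.comp_apply] at this ⊢
    rw [this]

theorem card_lift {V X Y : Type} [Fintype V] [Finite X] [Finite Y] (τ : Y → X)
    (H : (V → X) → Prop) :
    Nat.card {f : V → Y // H (τ ∘ f)} =
      ∑ᶠ φ : {φ : V → X // H φ}, ∏ i, Nat.card {y : Y // τ y = φ.1 i} := by
  classical
  rw [Nat.card_congr (liftEquiv τ H)]
  have : Fintype {φ : V → X // H φ} := Fintype.ofFinite _
  rw [Nat.card_sigma, finsum_eq_sum_of_fintype]
  exact Finset.sum_congr rfl fun φ _ => Nat.card_pi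

theorem card_lift_le {V X Y : Type} [Fintype V] [Finite X] [Finite Y] (τ : Y → X)
    (H : (V → X) → Prop) (q : ℕ) (hq : ∀ x, Nat.card {y : Y // τ y = x} ≤ q) :
    Nat.card {f : V → Y // H (τ ∘ f)} ≤ q ^ Fintype.card V * Nat.card {φ : V → X // H φ} := by
  classical
  rw [card_lift]
  have : Fintype {φ : V → X // H φ} := Fintype.ofFinite _
  rw [finsum_eq_sum_of_fintype, Nat.card_eq_fintype_card]
  calc ∑ φ : {φ : V → X // H φ}, ∏ i, Nat.card {y : Y // τ y = φ.1 i}
      ≤ ∑ _φ : {φ : V → X // H φ}, q ^ Fintype.card V := by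
        refine Finset.sum_le_sum fun φ _ => ?_
        refine (Finset.prod_le_prod' fun i _ => hq (φ.1 i)).trans ?_
        rw [Finset.prod_const, Finset.card_univ]
    _ = _ := by rw [Finset.sum_const, Finset.card_univ, smul_eq_mul, mul_comm]

theorem le_card_lift {V X Y : Type} [Fintype V] [Finite X] [Finite Y] (τ : Y → X)
    (H : (V → X) → Prop) (q : ℕ) (hq : ∀ x, q ≤ Nat.card {y : Y // τ y = x}) :
    q ^ Fintype.card V * Nat.card {φ : V → X // H φ} ≤ Nat.card {f : V → Y // H (τ ∘ f)} := by
  classical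
  rw [card_lift]
  have : Fintype {φ : V → X // H φ} := Fintype.ofFinite _
  rw [finsum_eq_sum_of_fintype, Nat.card_eq_fintype_card]
  calc q ^ Fintype.card V * Fintype.card {φ : V → X // H φ}
      = ∑ _φ : {φ : V → X // H φ}, q ^ Fintype.card V := by
        rw [Finset.sum_const, Finset.card_univ, smul_eq_mul, mul_comm]
    _ ≤ ∑ φ : {φ : V → X // H φ}, ∏ i, Nat.card {y : Y // τ y = φ.1 i} := by
        refine Finset.sum_le_sum fun φ _ => ?_
        refine le_trans ?_ (Finset.prod_le_prod' fun i _ => hq (φ.1 i))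
        rw [Finset.prod_const, Finset.card_univ]

/-- the types -/
theorem exists_type (n N D : ℕ) (hN : 0 < N) :
    ∃ τ : Fin n → (Fin D → Fin N), ∀ x, n / N ^ D ≤ Nat.card {v : Fin n // τ v = x} ∧
      Nat.card {v : Fin n // τ v = x} ≤ n / N ^ D + 1 := by
  classical
  have hm : 0 < N ^ D := pow_pos hN D
  have hcard : Fintype.card (Fin D → Fin N) = N ^ D := by simp
  let e : (Fin D → Fin N) ≃ Fin (N ^ D) := Fintype.equivFinOfCardEq hcard
  refine ⟨fun v => e.symm ⟨v.1 % N ^ D, Nat.mod_lt _ hm⟩, fun x => ?_⟩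
  have h : Nat.card {v : Fin n // e.symm ⟨v.1 % N ^ D, Nat.mod_lt _ hm⟩ = x} =
      n.count (· ≡ (e x).1 [MOD N ^ D]) := by
    rw [Nat.count_eq_card_filter_range, Nat.card_eq_fintype_card, Fintype.card_subtype]
    refine Finset.card_bij (fun v _ => v.1) ?_ ?_ ?_
    · intro v hv
      simp only [Finset.mem_filter, Finset.mem_univ, true_and, Finset.mem_range] at hv ⊢
      refine ⟨v.2, ?_⟩
      rw [← hv, Equiv.apply_symm_apply]
      exact (Nat.mod_modEq _ _).symm
    · intro v _ w _ h
      exact Fin.ext h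
    · intro w hw
      simp only [Finset.mem_filter, Finset.mem_range] at hw
      refine ⟨⟨w, hw.1⟩, ?_, rfl⟩
      simp only [Finset.mem_filter, Finset.mem_univ, true_and]
      rw [Equiv.symm_apply_eq]
      apply Fin.ext
      have := hw.2
      unfold Nat.ModEq at this
      exact this.trans (Nat.mod_eq_of_lt (e x).2)
  rw [h, Nat.count_modEq_card _ hm]
  constructor
  · omega
  · split_ifs <;> omega

/-- the blow-up -/
def blow {n N D : ℕ} (τ : Fin n → (Fin D → Fin N)) : SimpleGraph (Fin n) where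
  Adj v w := v ≠ w ∧ ∀ l, τ v l ≠ τ w l
  symm := ⟨fun _ _ h => ⟨h.1.symm, fun l => (h.2 l).symm⟩⟩
  loopless := ⟨fun _ h => h.1 rfl⟩

theorem emb_le {V : Type} [Fintype V] (adj : V → V → Prop) {n N D : ℕ}
    (τ : Fin n → (Fin D → Fin N))
    (hτ : ∀ x, Nat.card {v : Fin n // τ v = x} ≤ n / N ^ D + 1) :
    Set.ncard {f : V → Fin n | Function.Injective f ∧ ∀ i j, adj i j → (blow τ).Adj (f i) (f j)} ≤
      (n / N ^ D + 1) ^ Fintype.card V * Nat.card (Col V adj N) ^ D := by
  rw [← card_homX]
  refine le_trans ?_ (card_lift_le τ (fun φ => ∀ i j, adj i j → ∀ l, φ i l ≠ φ j l) _ hτ)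
  rw [← Nat.card_coe_set_eq]
  refine Nat.card_le_card_of_injective
    (fun f => ⟨f.1, fun i j h => (f.2.2 i j h).2⟩) ?_
  intro f g h
  simp only [Subtype.mk.injEq] at h
  exact Subtype.ext h

theorem le_emb {V : Type} [Fintype V] (adj : V → V → Prop) (hirr : ∀ i j, adj i j → i ≠ j)
    {n N D : ℕ} (τ : Fin n → (Fin D → Fin N))
    (hτ : ∀ x, n / N ^ D ≤ Nat.card {v : Fin n // τ v = x}) :
    (n / N ^ D) ^ Fintype.card V * Nat.card (Col V adj N) ^ D + n.descFactorial (Fintype.card V) ≤
    Set.ncard {f : V → Fin n | Function.Injective f ∧ ∀ i j, adj i j → (blow τ).Adj (f i) (f j)} +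
      n ^ Fintype.card V := by
  classical
  rw [← card_homX]
  have h1 := le_card_lift τ (fun φ : V → (Fin D → Fin N) => ∀ i j, adj i j → ∀ l, φ i l ≠ φ j l) _ hτ
  have h2 : Nat.card {f : V → Fin n // ∀ i j, adj i j → ∀ l, (τ ∘ f) i l ≠ (τ ∘ f) j l} ≤
      Set.ncard {f : V → Fin n | Function.Injective f ∧
        ∀ i j, adj i j → (blow τ).Adj (f i) (f j)} +
      Set.ncard {f : V → Fin n | ¬ Function.Injective f} := by
    have : Nat.card {f : V → Fin n // ∀ i j, adj i j → ∀ l, (τ ∘ f) i l ≠ (τ ∘ f) j l} =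
      Set.ncard {f : V → Fin n | ∀ i j, adj i j → ∀ l, (τ ∘ f) i l ≠ (τ ∘ f) j l} :=
      Nat.card_coe_set_eq _
    rw [this]
    refine (Set.ncard_le_ncard ?_ (Set.toFinite _)).trans (Set.ncard_union_le _ _)
    intro f hf
    simp only [Set.mem_union, Set.mem_ofPred_eq] at hf ⊢
    by_cases hinj : Function.Injective f
    · left
      exact ⟨hinj, fun i j h => ⟨fun h' => hirr i j h (hinj h'), hf i j h⟩⟩
    · right
      exact hinj
  have h3 : Set.ncard {f : V → Fin n | ¬ Function.Injective f} +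
      n.descFactorial (Fintype.card V) = n ^ Fintype.card V := by
    have h4 : Set.ncard {f : V → Fin n | Function.Injective f} =
        n.descFactorial (Fintype.card V) := by
      rw [← Nat.card_coe_set_eq]
      have e : {f : V → Fin n // Function.Injective f} ≃ (V ↪ Fin n) :=
        Equiv.subtypeInjectiveEquivEmbedding V (Fin n)
      have : Nat.card {f : V → Fin n // Function.Injective f} = n.descFactorial (Fintype.card V) := by
        rw [Nat.card_congr e, Nat.card_eq_fintype_card, Fintype.card_embedding_eq, Fintype.card_fin]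
      exact this
    rw [← h4]
    have h5 := Set.ncard_add_ncard_compl {f : V → Fin n | Function.Injective f}
      (Set.toFinite _) (Set.toFinite _)
    rw [Nat.card_eq_fintype_card, Fintype.card_fun, Fintype.card_fin] at h5
    rw [add_comm]
    exact h5
  have h1' : (n / N ^ D) ^ Fintype.card V * Nat.card (HomX V adj N D) ≤
    Nat.card {f : V → Fin n // ∀ i j, adj i j → ∀ l, (τ ∘ f) i l ≠ (τ ∘ f) j l} := h1
  omega

/-- colourings of complete graphs -/
theorem card_col_complete {k : ℕ} (adj : Fin k → Fin k → Prop) (h : ∀ i j, adj i j ↔ i ≠ j)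
    (N : ℕ) : Nat.card (Col (Fin k) adj N) = N.descFactorial k := by
  classical
  have e : Col (Fin k) adj N ≃ (Fin k ↪ Fin N) :=
    { toFun := fun ψ => ⟨ψ.1, fun i j hij => by
        by_contra hne
        exact ψ.2 i j ((h i j).mpr hne) hij⟩
      invFun := fun f => ⟨f, fun i j hij hf => (h i j).mp hij (f.injective hf)⟩
      left_inv := fun _ => rfl
      right_inv := fun _ => rfl }
  rw [Nat.card_congr e, Nat.card_eq_fintype_card, Fintype.card_embedding_eq, Fintype.card_fin,
    Fintype.card_fin]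

end Pool.Agent.Y429.Tens
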