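import Pool.Agent.Y429.TensA

/-!
# Colourings of complete bipartite graphs

For fixed `s, t` the number of colourings of `K_{s,t}` with `M + 1` colours is at most
`(1 + C / M³) (M + 1) ^ (s + t) (M / (M + 1)) ^ (s t)`.
-/

set_option autoImplicit false

namespace Pool.Agent.Y429.Tens

open Finset

/-- the number of the colours that `x` does not use -/
noncomputable def dd {s N : ℕ} (x : Fin s → Fin N) : ℕ := Nat.card {y : Fin N // ∀ j, x j ≠ y}

theorem dd_eq {s N : ℕ} (x : Fin s → Fin N) :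
    (dd x : ℝ) = ∑ y : Fin N, ∏ j, (if x j ≠ y then (1 : ℝ) else 0) := by
  classical
  unfold dd
  rw [Nat.card_eq_fintype_card, Fintype.card_subtype, Finset.card_filter]
  push_cast
  refine Finset.sum_congr rfl fun y _ => ?_
  rw [Finset.prod_ite_zero]
  simp

/-- colourings of complete bipartite graphs -/
def colEquiv (s t N : ℕ) :
    Col (Fin s ⊕ Fin t) (completeBipartiteGraph (Fin s) (Fin t)).Adj N ≃
      (Σ x : Fin s → Fin N, (Fin t → {y : Fin N // ∀ j, x j ≠ y})) where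
  toFun ψ := ⟨fun j => ψ.1 (Sum.inl j), fun i => ⟨ψ.1 (Sum.inr i), fun j =>
    ψ.2 (Sum.inl j) (Sum.inr i) (by simp)⟩⟩
  invFun g := ⟨Sum.elim g.1 (fun i => (g.2 i).1), by
    rintro (i | i) (j | j) h
    · simp at h
    · exact (g.2 j).2 i
    · exact ((g.2 i).2 j).symm
    · simp at h⟩
  left_inv ψ := by
    apply Subtype.ext
    funext v
    rcases v with v | v <;> rfl
  right_inv _ := rfl

theorem card_col_eq (s t N : ℕ) :
    Nat.card (Col (Fin s ⊕ Fin t) (completeBipartiteGraph (Fin s) (Fin t)).Adj N) =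
      ∑ x : Fin s → Fin N, dd x ^ t := by
  classical
  rw [Nat.card_congr (colEquiv s t N), Nat.card_sigma]
  refine Finset.sum_congr rfl fun x _ => ?_
  rw [Nat.card_fun]
  simp [dd]

theorem sum_ne {M : ℕ} (y : Fin (M + 1)) : ∑ z : Fin (M + 1), (if z ≠ y then (1 : ℝ) else 0) = M := by
  rw [← Finset.sum_filter]
  simp [Finset.filter_ne']

theorem sum_ne2 {M : ℕ} (y y' : Fin (M + 1)) :
    ∑ z : Fin (M + 1), ((if z ≠ y then (1 : ℝ) else 0) * (if z ≠ y' then (1 : ℝ) else 0)) =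
      if y = y' then (M : ℝ) else (M : ℝ) - 1 := by
  by_cases h : y = y'
  · subst h
    rw [if_pos rfl, ← sum_ne y]
    refine Finset.sum_congr rfl fun z _ => ?_
    split_ifs <;> norm_num
  · rw [if_neg h]
    have h1 : ∀ z : Fin (M + 1), ((if z ≠ y then (1 : ℝ) else 0) * (if z ≠ y' then (1 : ℝ) else 0)) =
        (if z ≠ y then (1 : ℝ) else 0) - (if z = y' then (1 : ℝ) else 0) := by
      intro z
      by_cases hz : z = y'
      · subst hz
        have : z ≠ y := fun h' => h h'.symm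
        simp [this]
      · simp [hz]
    rw [Finset.sum_congr rfl fun z _ => h1 z, Finset.sum_sub_distrib, sum_ne]
    simp

theorem sum_dd (s M : ℕ) :
    ∑ x : Fin s → Fin (M + 1), (dd x : ℝ) = ((M : ℝ) + 1) * (M : ℝ) ^ s := by
  classical
  simp only [dd_eq]
  rw [Finset.sum_comm]
  have h : ∀ y : Fin (M + 1), ∑ x : Fin s → Fin (M + 1), ∏ j, (if x j ≠ y then (1 : ℝ) else 0) =
      (M : ℝ) ^ s := by
    intro y
    rw [← Fintype.sum_pow (fun z : Fin (M + 1) => (if z ≠ y then (1 : ℝ) else 0)) s, sum_ne]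
  rw [Finset.sum_congr rfl fun y _ => h y]
  simp

theorem sum_dd_sq (s M : ℕ) :
    ∑ x : Fin s → Fin (M + 1), (dd x : ℝ) ^ 2 =
      ((M : ℝ) + 1) * (M : ℝ) ^ s + ((M : ℝ) + 1) * M * ((M : ℝ) - 1) ^ s := by
  classical
  have h0 : ∀ x : Fin s → Fin (M + 1), (dd x : ℝ) ^ 2 =
      ∑ y : Fin (M + 1), ∑ y' : Fin (M + 1), ∏ j, ((if x j ≠ y then (1 : ℝ) else 0) *
        (if x j ≠ y' then (1 : ℝ) else 0)) := by
    intro x
    rw [dd_eq, sq, Finset.sum_mul_sum]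
    refine Finset.sum_congr rfl fun y _ => Finset.sum_congr rfl fun y' _ => ?_
    rw [Finset.prod_mul_distrib]
  rw [Finset.sum_congr rfl fun x _ => h0 x, Finset.sum_comm]
  have h1 : ∀ y : Fin (M + 1), ∑ x : Fin s → Fin (M + 1), ∑ y' : Fin (M + 1),
      ∏ j, ((if x j ≠ y then (1 : ℝ) else 0) * (if x j ≠ y' then (1 : ℝ) else 0)) =
      (M : ℝ) ^ s + M * ((M : ℝ) - 1) ^ s := by
    intro y
    rw [Finset.sum_comm]
    have h2 : ∀ y' : Fin (M + 1), ∑ x : Fin s → Fin (M + 1),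
        ∏ j, ((if x j ≠ y then (1 : ℝ) else 0) * (if x j ≠ y' then (1 : ℝ) else 0)) =
        (if y = y' then (M : ℝ) else (M : ℝ) - 1) ^ s := by
      intro y'
      rw [← Fintype.sum_pow (fun z : Fin (M + 1) => ((if z ≠ y then (1 : ℝ) else 0) *
        (if z ≠ y' then (1 : ℝ) else 0))) s, sum_ne2]
    rw [Finset.sum_congr rfl fun y' _ => h2 y']
    have h3 : ∀ y' : Fin (M + 1), (if y = y' then (M : ℝ) else (M : ℝ) - 1) ^ s =
        (if y = y' then ((M : ℝ) ^ s - ((M : ℝ) - 1) ^ s) else 0) + ((M : ℝ) - 1) ^ s := by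
      intro y'
      split_ifs <;> ring
    rw [Finset.sum_congr rfl fun y' _ => h3 y', Finset.sum_add_distrib]
    simp
    ring
  rw [Finset.sum_congr rfl fun y _ => h1 y]
  simp
  ring

/-- a quadratic upper bound for powers -/
theorem pow_le_quad (t : ℕ) (B : ℝ) (hB : 0 ≤ B) : ∃ K : ℝ, 0 ≤ K ∧ ∀ c : ℝ, 0 ≤ c → c ≤ B →
    c ^ t ≤ 1 + t * (c - 1) + K * (c - 1) ^ 2 := by
  induction t with
  | zero => exact ⟨0, le_rfl, fun c _ _ => by simp⟩
  | succ t ih =>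
    obtain ⟨K, hK, h⟩ := ih
    refine ⟨t + B * K, by positivity, fun c hc hcB => ?_⟩
    have h1 := h c hc hcB
    have h2 : c ^ (t + 1) ≤ c * (1 + t * (c - 1) + K * (c - 1) ^ 2) := by
      rw [pow_succ, mul_comm]
      exact mul_le_mul_of_nonneg_left h1 hc
    refine h2.trans ?_
    have h3 : c * K * (c - 1) ^ 2 ≤ B * K * (c - 1) ^ 2 :=
      mul_le_mul_of_nonneg_right (mul_le_mul_of_nonneg_right hcB hK) (sq_nonneg _)
    push_cast
    nlinarith [h3]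

/-- the second moment -/
theorem second_moment (r : ℕ) : ∃ C : ℝ, 0 ≤ C ∧ ∀ u : ℝ, 0 ≤ u → u ≤ 1 →
    u * (1 + u) ^ r + (1 - u) * (1 - u ^ 2) ^ r - 1 ≤ C * u ^ 3 := by
  obtain ⟨K, hK, h⟩ := pow_le_quad r 2 (by norm_num)
  refine ⟨2 * K + r, by positivity, fun u hu hu1 => ?_⟩
  have h1 := h (1 + u) (by linarith) (by linarith)
  have h2 := h (1 - u ^ 2) (by nlinarith) (by nlinarith)
  have h3 : u * (1 + u) ^ r ≤ u * (1 + r * u + K * u ^ 2) := by
    refine mul_le_mul_of_nonneg_left ?_ hu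
    calc (1 + u) ^ r ≤ _ := h1
      _ = _ := by ring
  have h4 : (1 - u) * (1 - u ^ 2) ^ r ≤ (1 - u) * (1 - r * u ^ 2 + K * u ^ 4) := by
    refine mul_le_mul_of_nonneg_left ?_ (by linarith)
    calc (1 - u ^ 2) ^ r ≤ _ := h2
      _ = _ := by ring
  have h5 : u * (1 + r * u + K * u ^ 2) + (1 - u) * (1 - r * u ^ 2 + K * u ^ 4) - 1 =
      (K + r) * u ^ 3 + K * u ^ 3 * (u - u ^ 2) := by ring
  have h6 : K * u ^ 3 * (u - u ^ 2) ≤ K * u ^ 3 * 1 := by
    refine mul_le_mul_of_nonneg_left ?_ (by positivity)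
    nlinarith
  nlinarith

theorem dd_le {r M : ℕ} (x : Fin (r + 1) → Fin (M + 1)) : dd x ≤ M := by
  classical
  unfold dd
  have h : Nat.card {y : Fin (M + 1) // ∀ j, x j ≠ y} ≤ Nat.card {y : Fin (M + 1) // y ≠ x 0} := by
    refine Nat.card_le_card_of_injective (fun y => ⟨y.1, fun h => y.2 0 h.symm⟩) ?_
    intro a b hab
    simp only [Subtype.mk.injEq] at hab
    exact Subtype.ext hab
  refine h.trans ?_
  rw [Nat.card_eq_fintype_card, Fintype.card_subtype_compl, Fintype.card_fin,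
    Fintype.card_unique]
  simp

/-- colourings of `K_{s,t}` -/
theorem card_col_Kst (s t : ℕ) (hs : 1 ≤ s) : ∃ C : ℝ, 0 ≤ C ∧ ∀ M : ℕ, 1 ≤ M →
    (Nat.card (Col (Fin s ⊕ Fin t) (completeBipartiteGraph (Fin s) (Fin t)).Adj (M + 1)) : ℝ) ≤
      (1 + C / (M : ℝ) ^ 3) * (((M : ℝ) + 1) ^ (s + t) *
        ((M : ℝ) / ((M : ℝ) + 1)) ^ (s * t)) := by
  obtain ⟨r, rfl⟩ : ∃ r, s = r + 1 := ⟨s - 1, by omega⟩
  obtain ⟨K, hK, hquad⟩ := pow_le_quad t (2 ^ r) (by positivity)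
  obtain ⟨C, hC, hsec⟩ := second_moment r
  refine ⟨K * C, by positivity, fun M hM => ?_⟩
  have hM0 : (0 : ℝ) < M := by exact_mod_cast hM
  have hM1 : (1 : ℝ) ≤ M := by exact_mod_cast hM
  rw [card_col_eq]
  push_cast
  -- the normalised codegree
  obtain ⟨a, ha⟩ : ∃ a : ℝ, a = ((M : ℝ) + 1) ^ r / (M : ℝ) ^ (r + 1) := ⟨_, rfl⟩
  have ha0 : 0 < a := by rw [ha]; positivity
  have hle : ∀ x : Fin (r + 1) → Fin (M + 1), a * (dd x : ℝ) ≤ 2 ^ r := by
    intro x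
    have h1 : (dd x : ℝ) ≤ M := by exact_mod_cast dd_le x
    calc a * (dd x : ℝ) ≤ a * M := mul_le_mul_of_nonneg_left h1 ha0.le
      _ = (((M : ℝ) + 1) / M) ^ r := by
          rw [ha, div_pow, pow_succ]
          field_simp
      _ ≤ 2 ^ r := by
          refine pow_le_pow_left₀ (by positivity) ?_ r
          rw [div_le_iff₀ hM0]
          linarith
  have hsum : ∑ x : Fin (r + 1) → Fin (M + 1), (a * (dd x : ℝ)) ^ t ≤
      ∑ x : Fin (r + 1) → Fin (M + 1), (1 + t * (a * (dd x : ℝ) - 1) +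
        K * (a * (dd x : ℝ) - 1) ^ 2) :=
    Finset.sum_le_sum fun x _ => hquad _ (by positivity) (hle x)
  have hcard : ∑ _x : Fin (r + 1) → Fin (M + 1), (1 : ℝ) = ((M : ℝ) + 1) ^ (r + 1) := by
    simp
  have hm1 : ∑ x : Fin (r + 1) → Fin (M + 1), a * (dd x : ℝ) = ((M : ℝ) + 1) ^ (r + 1) := by
    rw [← Finset.mul_sum, sum_dd, ha]
    field_simp
    ring
  have hm2 : ∑ x : Fin (r + 1) → Fin (M + 1), (a * (dd x : ℝ)) ^ 2 =
      ((M : ℝ) + 1) ^ (r + 1) * ((1 / (M : ℝ)) * (1 + 1 / (M : ℝ)) ^ r +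
        (1 - 1 / (M : ℝ)) * (1 - (1 / (M : ℝ)) ^ 2) ^ r) := by
    simp only [mul_pow]
    rw [← Finset.mul_sum, sum_dd_sq, ha]
    have e1 : (1 + 1 / (M : ℝ)) ^ r = ((M : ℝ) + 1) ^ r / (M : ℝ) ^ r := by
      rw [← div_pow]
      congr 1
      field_simp
    have e2 : (1 - (1 / (M : ℝ)) ^ 2) ^ r =
        ((M : ℝ) + 1) ^ r * ((M : ℝ) - 1) ^ r / ((M : ℝ) ^ r * (M : ℝ) ^ r) := by
      rw [← mul_pow, ← mul_pow, ← div_pow]
      congr 1
      field_simp
      ring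
    rw [e1, e2]
    field_simp
    ring
  have hu := hsec (1 / (M : ℝ)) (by positivity) (by rw [div_le_iff₀ hM0]; linarith)
  have hbound : ∑ x : Fin (r + 1) → Fin (M + 1), (a * (dd x : ℝ)) ^ t ≤
      ((M : ℝ) + 1) ^ (r + 1) * (1 + K * C / (M : ℝ) ^ 3) := by
    refine hsum.trans ?_
    have e : ∑ x : Fin (r + 1) → Fin (M + 1), (1 + t * (a * (dd x : ℝ) - 1) +
        K * (a * (dd x : ℝ) - 1) ^ 2) =
        (∑ _x : Fin (r + 1) → Fin (M + 1), (1 : ℝ)) +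
        t * (∑ x : Fin (r + 1) → Fin (M + 1), a * (dd x : ℝ) -
          ∑ _x : Fin (r + 1) → Fin (M + 1), (1 : ℝ)) +
        K * (∑ x : Fin (r + 1) → Fin (M + 1), (a * (dd x : ℝ)) ^ 2 -
          2 * ∑ x : Fin (r + 1) → Fin (M + 1), a * (dd x : ℝ) +
          ∑ _x : Fin (r + 1) → Fin (M + 1), (1 : ℝ)) := by
      rw [mul_sub, mul_add, mul_sub]
      simp only [Finset.mul_sum]
      rw [← Finset.sum_sub_distrib, ← Finset.sum_sub_distrib, ← Finset.sum_add_distrib,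
        ← Finset.sum_add_distrib, ← Finset.sum_add_distrib]
      refine Finset.sum_congr rfl fun x _ => ?_
      ring
    rw [e, hcard, hm1, hm2]
    have hpos : (0 : ℝ) < ((M : ℝ) + 1) ^ (r + 1) := by positivity
    have hu' : K * (((M : ℝ) + 1) ^ (r + 1) * ((1 / (M : ℝ)) * (1 + 1 / (M : ℝ)) ^ r +
        (1 - 1 / (M : ℝ)) * (1 - (1 / (M : ℝ)) ^ 2) ^ r - 1)) ≤
        K * (((M : ℝ) + 1) ^ (r + 1) * (C * (1 / (M : ℝ)) ^ 3)) :=
      mul_le_mul_of_nonneg_left (mul_le_mul_of_nonneg_left hu hpos.le) hK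
    have e3 : K * (((M : ℝ) + 1) ^ (r + 1) * (C * (1 / (M : ℝ)) ^ 3)) =
        ((M : ℝ) + 1) ^ (r + 1) * (K * C / (M : ℝ) ^ 3) := by
      field_simp
    rw [e3] at hu'
    nlinarith
  have e4 : ∑ x : Fin (r + 1) → Fin (M + 1), (a * (dd x : ℝ)) ^ t =
      a ^ t * ∑ x : Fin (r + 1) → Fin (M + 1), (dd x : ℝ) ^ t := by
    rw [Finset.mul_sum]
    exact Finset.sum_congr rfl fun x _ => mul_pow _ _ _
  rw [e4] at hbound
  have hat : 0 < a ^ t := by positivity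
  have e5 : (1 + K * C / (M : ℝ) ^ 3) * (((M : ℝ) + 1) ^ (r + 1 + t) *
      ((M : ℝ) / ((M : ℝ) + 1)) ^ ((r + 1) * t)) =
      (((M : ℝ) + 1) ^ (r + 1) * (1 + K * C / (M : ℝ) ^ 3)) / a ^ t := by
    have e6 : ((M : ℝ) + 1) ^ ((r + 1) * t) = ((M : ℝ) + 1) ^ (r * t) * ((M : ℝ) + 1) ^ t := by
      rw [← pow_add]
      congr 1
      ring
    rw [ha, div_pow, div_pow, ← pow_mul, ← pow_mul, e6, pow_add]
    field_simp
  rw [e5, le_div_iff₀ hat, mul_comm]
  exact hbound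

theorem exists_equiv_C4 : ∃ e : Fin 4 ≃ Fin 2 ⊕ Fin 2,
    ∀ i j, (SimpleGraph.cycleGraph 4).Adj i j ↔
      (completeBipartiteGraph (Fin 2) (Fin 2)).Adj (e i) (e j) :=
  ⟨⟨![Sum.inl 0, Sum.inr 0, Sum.inl 1, Sum.inr 1],
      Sum.elim ![0, 2] ![1, 3], by decide, by decide⟩, by
    intro i j
    rw [completeBipartiteGraph_adj]
    revert i j
    decide⟩

/-- colourings of the 4-cycle -/
theorem card_col_C4 (M : ℕ) :
    (Nat.card (Col (Fin 4) (SimpleGraph.cycleGraph 4).Adj (M + 1)) : ℝ) = (M : ℝ) ^ 4 + M := by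
  obtain ⟨e, he⟩ := exists_equiv_C4
  have h : Nat.card (Col (Fin 4) (SimpleGraph.cycleGraph 4).Adj (M + 1)) =
      Nat.card (Col (Fin 2 ⊕ Fin 2) (completeBipartiteGraph (Fin 2) (Fin 2)).Adj (M + 1)) := by
    refine Nat.card_congr ?_
    refine ⟨fun ψ => ⟨ψ.1 ∘ e.symm, fun i j hij => ?_⟩, fun ψ => ⟨ψ.1 ∘ e, fun i j hij => ?_⟩,
      fun ψ => ?_, fun ψ => ?_⟩
    · exact ψ.2 _ _ ((he _ _).mpr (by simpa using hij))
    · exact ψ.2 _ _ ((he _ _).mp hij)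
    · apply Subtype.ext
      funext i
      simp
    · apply Subtype.ext
      funext i
      simp
  rw [h, card_col_eq]
  push_cast
  rw [sum_dd_sq]
  ring

end Pool.Agent.Y429.Tens
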