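import Pool.Agent.Y429.TensB

/-!
# The asymptotics

`M = MM n` grows very slowly, `N = M + 1`, `D = M²`, `m = N ^ D`, `p = (M / N) ^ D`.
-/

set_option autoImplicit false

namespace Pool.Agent.Y429.Tens

open Filter Topology

/-- a slowly growing function -/
noncomputable def MM (n : ℕ) : ℕ := Nat.findGreatest (fun M => (M + 1) ^ (M ^ 3) ≤ n) n

theorem MM_spec {n : ℕ} (hn : 1 ≤ n) : (MM n + 1) ^ (MM n ^ 3) ≤ n :=
  Nat.findGreatest_spec (P := fun M => (M + 1) ^ (M ^ 3) ≤ n) (Nat.zero_le n) (by simpa using hn)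

theorem MM_tendsto : Tendsto MM atTop atTop := by
  rw [tendsto_atTop]
  intro K
  filter_upwards [eventually_ge_atTop (max K ((K + 1) ^ (K ^ 3)))] with n hn
  exact Nat.le_findGreatest (le_trans (le_max_left _ _) hn) (le_trans (le_max_right _ _) hn)

/-- the number of types -/
noncomputable def mm (n : ℕ) : ℕ := (MM n + 1) ^ (MM n ^ 2)

/-- the edge density -/
noncomputable def pp (n : ℕ) : ℝ := ((MM n : ℝ) / ((MM n : ℝ) + 1)) ^ (MM n ^ 2)

theorem mm_pos (n : ℕ) : 0 < mm n := pow_pos (Nat.succ_pos _) _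

theorem mm_mul_pp (n : ℕ) : 1 ≤ (mm n : ℝ) * pp n := by
  unfold mm pp
  push_cast
  rw [← mul_pow]
  rcases Nat.eq_zero_or_pos (MM n) with h | h
  · rw [h]
    norm_num
  · apply one_le_pow₀
    have : (1 : ℝ) ≤ MM n := by exact_mod_cast h
    rw [mul_div_cancel₀]
    · exact this
    · positivity

theorem pp_pos (n : ℕ) : 0 < pp n := by
  have h := mm_mul_pp n
  have h' : (0 : ℝ) < mm n := by exact_mod_cast mm_pos n
  by_contra hle
  push Not at hle
  nlinarith

theorem pp_le_one (n : ℕ) : pp n ≤ 1 := by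
  unfold pp
  apply pow_le_one₀ (by positivity)
  rw [div_le_one (by positivity)]
  linarith

theorem mm_pow_le {n e : ℕ} (hn : 1 ≤ n) (he : e ≤ MM n) : mm n ^ e ≤ n := by
  refine le_trans ?_ (MM_spec hn)
  unfold mm
  rw [← pow_mul]
  apply Nat.pow_le_pow_right (Nat.succ_pos _)
  calc MM n ^ 2 * e ≤ MM n ^ 2 * MM n := Nat.mul_le_mul_left _ he
    _ = MM n ^ 3 := by ring

theorem MM_le_mm (n : ℕ) : MM n ≤ mm n := by
  unfold mm
  rcases Nat.eq_zero_or_pos (MM n) with h | h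
  · rw [h]; norm_num
  · calc MM n ≤ (MM n + 1) ^ 1 := by simp
      _ ≤ _ := Nat.pow_le_pow_right (Nat.succ_pos _) (Nat.pos_of_ne_zero (by positivity))

theorem mm_tendsto : Tendsto (fun n => (mm n : ℝ)) atTop atTop :=
  tendsto_natCast_atTop_atTop.comp (tendsto_atTop_mono MM_le_mm MM_tendsto)

theorem mm_pow_div (e : ℕ) : Tendsto (fun n : ℕ => (mm n : ℝ) ^ e / (n : ℝ)) atTop (𝓝 0) := by
  have h1 : Tendsto (fun n => ((mm n : ℝ))⁻¹) atTop (𝓝 0) :=
    tendsto_inv_atTop_zero.comp mm_tendsto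
  refine squeeze_zero' (Eventually.of_forall fun n => by positivity) ?_ h1
  filter_upwards [MM_tendsto.eventually_ge_atTop (e + 1), eventually_ge_atTop 1] with n h hn
  have h2 := mm_pow_le hn h
  have h3 : (mm n : ℝ) ^ (e + 1) ≤ n := by exact_mod_cast h2
  have hm : (0 : ℝ) < mm n := by exact_mod_cast mm_pos n
  have hn0 : (0 : ℝ) < n := by exact_mod_cast hn
  rw [div_le_iff₀ hn0, inv_mul_eq_div, le_div_iff₀ hm]
  calc (mm n : ℝ) ^ e * mm n = (mm n : ℝ) ^ (e + 1) := by ring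
    _ ≤ n := h3

theorem pow_le_desc (n k : ℕ) : n ^ k ≤ n.descFactorial k + k ^ 2 * n ^ (k - 1) := by
  induction k with
  | zero => simp
  | succ k ih =>
    rw [Nat.descFactorial_succ, Nat.add_sub_cancel]
    rcases Nat.eq_zero_or_pos k with hk | hk
    · subst hk
      simp
    · have h1 : n * n ^ (k - 1) = n ^ k := by
        rw [← pow_succ']
        congr 1
        omega
      have h2 : n.descFactorial k ≤ n ^ k := Nat.descFactorial_le_pow n k
      by_cases hkn : k ≤ n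
      · obtain ⟨j, rfl⟩ := Nat.exists_eq_add_of_le hkn
        rw [Nat.add_sub_cancel_left]
        calc (k + j) ^ (k + 1) = (k + j) * (k + j) ^ k := by ring
          _ ≤ (k + j) * ((k + j).descFactorial k + k ^ 2 * (k + j) ^ (k - 1)) :=
            Nat.mul_le_mul_left _ ih
          _ = j * (k + j).descFactorial k + (k * (k + j).descFactorial k +
              k ^ 2 * ((k + j) * (k + j) ^ (k - 1))) := by ring
          _ ≤ j * (k + j).descFactorial k + (k * (k + j) ^ k + k ^ 2 * (k + j) ^ k) := by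
              rw [h1]
              gcongr
          _ = j * (k + j).descFactorial k + (k + k ^ 2) * (k + j) ^ k := by ring
          _ ≤ j * (k + j).descFactorial k + (k + 1) ^ 2 * (k + j) ^ k := by
              gcongr
              nlinarith
      · push Not at hkn
        calc n ^ (k + 1) = n * n ^ k := by ring
          _ ≤ (k + 1) ^ 2 * n ^ k := by
              gcongr
              nlinarith
          _ ≤ _ := Nat.le_add_left _ _

theorem desc_ratio (k : ℕ) :
    Tendsto (fun n : ℕ => (n : ℝ) ^ k / (n.descFactorial k : ℝ)) atTop (𝓝 1) := by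
  have h : Tendsto (fun n : ℕ => (n.descFactorial k : ℝ) / (n : ℝ) ^ k) atTop (𝓝 1) := by
    have h1 : Tendsto (fun n : ℕ => 1 - (k : ℝ) ^ 2 * ((n : ℝ))⁻¹) atTop (𝓝 1) := by
      have h2 : Tendsto (fun n : ℕ => ((n : ℝ))⁻¹) atTop (𝓝 0) :=
        tendsto_inv_atTop_zero.comp tendsto_natCast_atTop_atTop
      have := (h2.const_mul ((k : ℝ) ^ 2)).const_sub 1
      simpa using this
    refine tendsto_of_tendsto_of_tendsto_of_le_of_le' h1 tendsto_const_nhds ?_ ?_
    · filter_upwards [eventually_ge_atTop 1] with n hn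
      have hn0 : (0 : ℝ) < n := by exact_mod_cast hn
      have h3 : (n : ℝ) ^ k ≤ n.descFactorial k + (k : ℝ) ^ 2 * (n : ℝ) ^ (k - 1) := by
        exact_mod_cast pow_le_desc n k
      rw [le_div_iff₀ (by positivity)]
      rcases Nat.eq_zero_or_pos k with hk | hk
      · subst hk
        simp
      · have h4 : (n : ℝ) ^ k = (n : ℝ) ^ (k - 1) * n := by
          rw [← pow_succ]
          congr 1
          omega
        have h5 : (1 - (k : ℝ) ^ 2 * ((n : ℝ))⁻¹) * (n : ℝ) ^ k =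
            (n : ℝ) ^ k - (k : ℝ) ^ 2 * (n : ℝ) ^ (k - 1) := by
          rw [h4]
          field_simp
        rw [h5]
        linarith
    · filter_upwards [eventually_ge_atTop 1] with n hn
      have hn0 : (0 : ℝ) < n := by exact_mod_cast hn
      rw [div_le_one (by positivity)]
      exact_mod_cast Nat.descFactorial_le_pow n k
  have := h.inv₀ one_ne_zero
  simp only [inv_one, inv_div] at this
  exact this

/-- `(n ± m)^k / n_(k) → 1` -/
theorem shift_ratio (k : ℕ) (σ : ℝ) :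
    Tendsto (fun n : ℕ => ((n : ℝ) + σ * mm n) ^ k / (n.descFactorial k : ℝ)) atTop (𝓝 1) := by
  have h1 : Tendsto (fun n : ℕ => (1 + σ * ((mm n : ℝ) ^ 1 / (n : ℝ))) ^ k *
      ((n : ℝ) ^ k / (n.descFactorial k : ℝ))) atTop (𝓝 1) := by
    have h2 := (((mm_pow_div 1).const_mul σ).const_add 1).pow k
    have := h2.mul (desc_ratio k)
    simpa using this
  refine h1.congr' ?_
  filter_upwards [eventually_ge_atTop 1] with n hn
  have hn0 : (0 : ℝ) < n := by exact_mod_cast hn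
  rw [← mul_div_assoc, ← mul_pow]
  congr 2
  field_simp

/-- the types of the vertices -/
theorem exists_tau (n : ℕ) : ∃ τ : Fin n → (Fin (MM n ^ 2) → Fin (MM n + 1)),
    ∀ x, n / mm n ≤ Nat.card {v : Fin n // τ v = x} ∧
      Nat.card {v : Fin n // τ v = x} ≤ n / mm n + 1 :=
  exists_type n (MM n + 1) (MM n ^ 2) (Nat.succ_pos _)

/-- the types of the vertices -/
noncomputable def tau (n : ℕ) : Fin n → (Fin (MM n ^ 2) → Fin (MM n + 1)) := (exists_tau n).choose

theorem tau_spec (n : ℕ) (x) : n / mm n ≤ Nat.card {v : Fin n // tau n v = x} ∧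
      Nat.card {v : Fin n // tau n v = x} ≤ n / mm n + 1 := (exists_tau n).choose_spec x

/-- the graphs -/
noncomputable def GG (n : ℕ) : SimpleGraph (Fin n) := blow (tau n)

/-- the number of copies -/
noncomputable def emb {V : Type} (adj : V → V → Prop) (n : ℕ) : ℝ :=
  (Set.ncard {f : V → Fin n | Function.Injective f ∧ ∀ i j, adj i j → (GG n).Adj (f i) (f j)} : ℝ)

theorem emb_upper {V : Type} [Fintype V] (adj : V → V → Prop) (n e : ℕ) (R : ℝ)
    (hP : (Nat.card (Col V adj (MM n + 1)) : ℝ) ≤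
      R * (((MM n : ℝ) + 1) ^ Fintype.card V * ((MM n : ℝ) / ((MM n : ℝ) + 1)) ^ e)) :
    emb adj n ≤ ((n : ℝ) + 1 * mm n) ^ Fintype.card V * R ^ (MM n ^ 2) * pp n ^ e := by
  have hm : (0 : ℝ) < mm n := by exact_mod_cast mm_pos n
  have h1 : emb adj n ≤ (((n / mm n + 1 : ℕ) : ℝ)) ^ Fintype.card V *
      (Nat.card (Col V adj (MM n + 1)) : ℝ) ^ (MM n ^ 2) := by
    have := emb_le adj (tau n) (fun x => (tau_spec n x).2)
    unfold emb GG
    exact_mod_cast this
  have h2 : (((n / mm n + 1 : ℕ) : ℝ)) ≤ ((n : ℝ) + 1 * mm n) / mm n := by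
    rw [le_div_iff₀ hm]
    push_cast
    have : ((n / mm n : ℕ) : ℝ) * mm n ≤ n := by exact_mod_cast Nat.div_mul_le_self n (mm n)
    linarith
  have h3 : (Nat.card (Col V adj (MM n + 1)) : ℝ) ^ (MM n ^ 2) ≤
      (R * (((MM n : ℝ) + 1) ^ Fintype.card V *
        ((MM n : ℝ) / ((MM n : ℝ) + 1)) ^ e)) ^ (MM n ^ 2) :=
    pow_le_pow_left₀ (by positivity) hP _
  have h4 : (R * (((MM n : ℝ) + 1) ^ Fintype.card V *
        ((MM n : ℝ) / ((MM n : ℝ) + 1)) ^ e)) ^ (MM n ^ 2) =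
      R ^ (MM n ^ 2) * (mm n : ℝ) ^ Fintype.card V * pp n ^ e := by
    unfold mm pp
    push_cast
    rw [mul_pow, mul_pow, ← pow_mul, ← pow_mul, ← pow_mul, ← pow_mul,
      mul_comm (Fintype.card V) (MM n ^ 2), mul_comm e (MM n ^ 2)]
    ring
  rw [h4] at h3
  calc emb adj n ≤ _ := h1
    _ ≤ (((n : ℝ) + 1 * mm n) / mm n) ^ Fintype.card V *
        (R ^ (MM n ^ 2) * (mm n : ℝ) ^ Fintype.card V * pp n ^ e) := by
        apply mul_le_mul _ h3 (by positivity) (by positivity)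
        exact pow_le_pow_left₀ (by positivity) h2 _
    _ = _ := by
        rw [div_pow]
        field_simp

theorem emb_lower {V : Type} [Fintype V] (adj : V → V → Prop) (hirr : ∀ i j, adj i j → i ≠ j)
    (n e : ℕ) (R : ℝ) (hn : mm n ≤ n)
    (hP : (Nat.card (Col V adj (MM n + 1)) : ℝ) =
      R * (((MM n : ℝ) + 1) ^ Fintype.card V * ((MM n : ℝ) / ((MM n : ℝ) + 1)) ^ e)) :
    ((n : ℝ) + (-1) * mm n) ^ Fintype.card V * R ^ (MM n ^ 2) * pp n ^ e ≤
      emb adj n + (Fintype.card V : ℝ) ^ 2 * (n : ℝ) ^ (Fintype.card V - 1) := by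
  have hm : (0 : ℝ) < mm n := by exact_mod_cast mm_pos n
  have h1 : ((n / mm n : ℕ) : ℝ) ^ Fintype.card V *
      (Nat.card (Col V adj (MM n + 1)) : ℝ) ^ (MM n ^ 2) + (n.descFactorial (Fintype.card V) : ℝ) ≤
      emb adj n + (n : ℝ) ^ Fintype.card V := by
    have := le_emb adj hirr (tau n) (fun x => (tau_spec n x).1)
    unfold emb GG
    exact_mod_cast this
  have h0 : (n : ℝ) ^ Fintype.card V ≤ n.descFactorial (Fintype.card V) +
      (Fintype.card V : ℝ) ^ 2 * (n : ℝ) ^ (Fintype.card V - 1) := by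
    exact_mod_cast pow_le_desc n (Fintype.card V)
  have h2 : ((n : ℝ) + (-1) * mm n) / mm n ≤ ((n / mm n : ℕ) : ℝ) := by
    rw [div_le_iff₀ hm]
    have h : n < mm n * (n / mm n + 1) := Nat.lt_mul_div_succ n (mm_pos n)
    have h' : (n : ℝ) < mm n * (((n / mm n : ℕ) : ℝ) + 1) := by exact_mod_cast h
    nlinarith
  have hn' : (mm n : ℝ) ≤ n := by exact_mod_cast hn
  have h4 : (Nat.card (Col V adj (MM n + 1)) : ℝ) ^ (MM n ^ 2) =
      R ^ (MM n ^ 2) * (mm n : ℝ) ^ Fintype.card V * pp n ^ e := by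
    rw [hP]
    unfold mm pp
    push_cast
    rw [mul_pow, mul_pow, ← pow_mul, ← pow_mul, ← pow_mul, ← pow_mul,
      mul_comm (Fintype.card V) (MM n ^ 2), mul_comm e (MM n ^ 2)]
    ring
  have h5 : ((n : ℝ) + (-1) * mm n) ^ Fintype.card V * R ^ (MM n ^ 2) * pp n ^ e ≤
      ((n / mm n : ℕ) : ℝ) ^ Fintype.card V *
      (Nat.card (Col V adj (MM n + 1)) : ℝ) ^ (MM n ^ 2) := by
    calc ((n : ℝ) + (-1) * mm n) ^ Fintype.card V * R ^ (MM n ^ 2) * pp n ^ e
        = (((n : ℝ) + (-1) * mm n) / mm n) ^ Fintype.card V *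
          (Nat.card (Col V adj (MM n + 1)) : ℝ) ^ (MM n ^ 2) := by
          rw [h4, div_pow]
          field_simp
      _ ≤ _ := by
          apply mul_le_mul_of_nonneg_right _ (by positivity)
          apply pow_le_pow_left₀ _ h2
          apply div_nonneg _ hm.le
          linarith
  linarith

theorem eventually_mm_le : ∀ᶠ n in atTop, mm n ≤ n := by
  filter_upwards [MM_tendsto.eventually_ge_atTop 1, eventually_ge_atTop 1] with n h hn
  simpa using mm_pow_le hn h

/-- the copies of `F` -/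
theorem ratio_tendsto {V : Type} [Fintype V] (adj : V → V → Prop) (hirr : ∀ i j, adj i j → i ≠ j)
    (e : ℕ) (hV : 1 ≤ Fintype.card V) (R : ℕ → ℝ)
    (hP : ∀ M : ℕ, 1 ≤ M → (Nat.card (Col V adj (M + 1)) : ℝ) =
      R M * (((M : ℝ) + 1) ^ Fintype.card V * ((M : ℝ) / ((M : ℝ) + 1)) ^ e))
    (hR : Tendsto (fun M : ℕ => R M ^ (M ^ 2)) atTop (𝓝 1)) :
    Tendsto (fun n : ℕ => emb adj n / ((n.descFactorial (Fintype.card V) : ℝ) * pp n ^ e))
      atTop (𝓝 1) := by
  have hR' := hR.comp MM_tendsto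
  have hup : Tendsto (fun n : ℕ => ((n : ℝ) + 1 * mm n) ^ Fintype.card V /
      (n.descFactorial (Fintype.card V) : ℝ) * R (MM n) ^ (MM n ^ 2)) atTop (𝓝 1) := by
    have := (shift_ratio (Fintype.card V) 1).mul hR'
    simpa using this
  have herr : Tendsto (fun n : ℕ => (Fintype.card V : ℝ) ^ 2 *
      (((mm n : ℝ) ^ e / n) * ((n : ℝ) ^ Fintype.card V /
        (n.descFactorial (Fintype.card V) : ℝ)))) atTop (𝓝 0) := by
    have := (((mm_pow_div e).mul (desc_ratio (Fintype.card V))).const_mul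
      ((Fintype.card V : ℝ) ^ 2))
    simpa using this
  have hlow : Tendsto (fun n : ℕ => ((n : ℝ) + (-1) * mm n) ^ Fintype.card V /
      (n.descFactorial (Fintype.card V) : ℝ) * R (MM n) ^ (MM n ^ 2) -
      (Fintype.card V : ℝ) ^ 2 * (((mm n : ℝ) ^ e / n) * ((n : ℝ) ^ Fintype.card V /
        (n.descFactorial (Fintype.card V) : ℝ)))) atTop (𝓝 1) := by
    have := ((shift_ratio (Fintype.card V) (-1)).mul hR').sub herr
    simpa using this
  refine tendsto_of_tendsto_of_tendsto_of_le_of_le' hlow hup ?_ ?_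
  · filter_upwards [MM_tendsto.eventually_ge_atTop 1, eventually_mm_le,
      eventually_ge_atTop (max 1 (Fintype.card V))] with n hM hmn hn
    have hn1 : 1 ≤ n := le_trans (le_max_left _ _) hn
    have hnV : Fintype.card V ≤ n := le_trans (le_max_right _ _) hn
    have hd : (0 : ℝ) < n.descFactorial (Fintype.card V) := by
      exact_mod_cast Nat.descFactorial_pos.mpr hnV
    have hp := pp_pos n
    have hn0 : (0 : ℝ) < n := by exact_mod_cast hn1
    have h := emb_lower adj hirr n e (R (MM n)) hmn (hP _ hM)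
    rw [le_div_iff₀ (by positivity)]
    have h1 : (1 : ℝ) ≤ (mm n : ℝ) ^ e * pp n ^ e := by
      rw [← mul_pow]
      exact one_le_pow₀ (mm_mul_pp n)
    have h2 : (n : ℝ) ^ (Fintype.card V - 1) * n = (n : ℝ) ^ Fintype.card V := by
      rw [← pow_succ]
      congr 1
      omega
    have h3 : (Fintype.card V : ℝ) ^ 2 * (n : ℝ) ^ (Fintype.card V - 1) ≤
        (Fintype.card V : ℝ) ^ 2 * (((mm n : ℝ) ^ e / n) * ((n : ℝ) ^ Fintype.card V /
        (n.descFactorial (Fintype.card V) : ℝ))) *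
        ((n.descFactorial (Fintype.card V) : ℝ) * pp n ^ e) := by
      have e1 : (Fintype.card V : ℝ) ^ 2 * (((mm n : ℝ) ^ e / n) * ((n : ℝ) ^ Fintype.card V /
        (n.descFactorial (Fintype.card V) : ℝ))) *
        ((n.descFactorial (Fintype.card V) : ℝ) * pp n ^ e) =
        ((Fintype.card V : ℝ) ^ 2 * (n : ℝ) ^ (Fintype.card V - 1)) *
          ((mm n : ℝ) ^ e * pp n ^ e) := by
        rw [← h2]
        field_simp
      rw [e1]
      exact le_mul_of_one_le_right (by positivity) h1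
    have e2 : (((n : ℝ) + (-1) * mm n) ^ Fintype.card V /
      (n.descFactorial (Fintype.card V) : ℝ) * R (MM n) ^ (MM n ^ 2)) *
        ((n.descFactorial (Fintype.card V) : ℝ) * pp n ^ e) =
        ((n : ℝ) + (-1) * mm n) ^ Fintype.card V * R (MM n) ^ (MM n ^ 2) * pp n ^ e := by
      field_simp
    rw [sub_mul, e2]
    linarith
  · filter_upwards [MM_tendsto.eventually_ge_atTop 1,
      eventually_ge_atTop (max 1 (Fintype.card V))] with n hM hn
    have hnV : Fintype.card V ≤ n := le_trans (le_max_right _ _) hn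
    have hd : (0 : ℝ) < n.descFactorial (Fintype.card V) := by
      exact_mod_cast Nat.descFactorial_pos.mpr hnV
    have hp := pp_pos n
    have h := emb_upper adj n e (R (MM n)) (hP _ hM).le
    rw [div_le_iff₀ (by positivity)]
    refine h.trans (le_of_eq ?_)
    field_simp

/-- the copies of `F`, upper bound -/
theorem ratio_le {V : Type} [Fintype V] (adj : V → V → Prop)
    (e : ℕ) (R : ℕ → ℝ)
    (hP : ∀ M : ℕ, 1 ≤ M → (Nat.card (Col V adj (M + 1)) : ℝ) ≤
      R M * (((M : ℝ) + 1) ^ Fintype.card V * ((M : ℝ) / ((M : ℝ) + 1)) ^ e)) :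
    ∀ᶠ n : ℕ in atTop, emb adj n / ((n.descFactorial (Fintype.card V) : ℝ) * pp n ^ e) ≤
      ((n : ℝ) + 1 * mm n) ^ Fintype.card V / (n.descFactorial (Fintype.card V) : ℝ) *
        R (MM n) ^ (MM n ^ 2) := by
  filter_upwards [MM_tendsto.eventually_ge_atTop 1,
    eventually_ge_atTop (max 1 (Fintype.card V))] with n hM hn
  have hnV : Fintype.card V ≤ n := le_trans (le_max_right _ _) hn
  have hd : (0 : ℝ) < n.descFactorial (Fintype.card V) := by
    exact_mod_cast Nat.descFactorial_pos.mpr hnV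
  have hp := pp_pos n
  have h := emb_upper adj n e (R (MM n)) (hP _ hM)
  rw [div_le_iff₀ (by positivity)]
  refine h.trans (le_of_eq ?_)
  field_simp

/-- the condition on `p` -/
theorem pp_cond (s : ℕ) (hs : 2 ≤ s) (a : ℝ) :
    Tendsto (fun n : ℕ => pp n / ((Real.log n) ^ a * (n : ℝ) ^ (-(1 / (s : ℝ))))) atTop atTop := by
  have hs0 : (0 : ℝ) < s := by positivity
  have hlo := isLittleO_log_rpow_rpow_atTop a (show (0 : ℝ) < 1 / (2 * s) by positivity)
  have h1 : Tendsto (fun x : ℝ => (Real.log x) ^ a / x ^ (1 / (2 * (s : ℝ)))) atTop (𝓝 0) :=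
    hlo.tendsto_div_nhds_zero
  have h2 : Tendsto (fun x : ℝ => (Real.log x) ^ a / x ^ (1 / (2 * (s : ℝ)))) atTop (𝓝[>] 0) := by
    rw [tendsto_nhdsWithin_iff]
    refine ⟨h1, ?_⟩
    filter_upwards [eventually_gt_atTop (1 : ℝ)] with x hx
    have : 0 < Real.log x := Real.log_pos hx
    have : 0 < x := by linarith
    simp only [Set.mem_Ioi]
    positivity
  have h3 := h2.inv_tendsto_nhdsGT_zero
  have h4 := h3.comp (tendsto_natCast_atTop_atTop (R := ℝ))
  refine tendsto_atTop_mono' _ ?_ h4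
  filter_upwards [MM_tendsto.eventually_ge_atTop (2 * s), eventually_gt_atTop 1] with n hM hn
  have hn1 : 1 ≤ n := hn.le
  have hn0 : (0 : ℝ) < n := by exact_mod_cast hn1
  have hnR : (1 : ℝ) < n := by exact_mod_cast hn
  have hlog : 0 < Real.log n := Real.log_pos hnR
  have hm : (0 : ℝ) < mm n := by exact_mod_cast mm_pos n
  have h5 : (mm n : ℝ) ^ (2 * s) ≤ n := by exact_mod_cast mm_pow_le hn1 hM
  have h6 : (mm n : ℝ) ≤ (n : ℝ) ^ (1 / (2 * (s : ℝ))) := by
    have h7 : ((mm n : ℝ) ^ (2 * s)) ^ (1 / (2 * (s : ℝ))) ≤ (n : ℝ) ^ (1 / (2 * (s : ℝ))) :=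
      Real.rpow_le_rpow (by positivity) h5 (by positivity)
    have h8 : ((mm n : ℝ) ^ (2 * s)) ^ (1 / (2 * (s : ℝ))) = mm n := by
      rw [← Real.rpow_natCast, ← Real.rpow_mul hm.le]
      push_cast
      rw [mul_one_div_cancel (by positivity), Real.rpow_one]
    rw [h8] at h7
    exact h7
  have h9 : 1 ≤ (n : ℝ) ^ (1 / (2 * (s : ℝ))) * pp n :=
    (mm_mul_pp n).trans (mul_le_mul_of_nonneg_right h6 (pp_pos n).le)
  have h10 : (n : ℝ) ^ (-(1 / (s : ℝ))) * (n : ℝ) ^ (1 / (2 * (s : ℝ))) *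
      (n : ℝ) ^ (1 / (2 * (s : ℝ))) = 1 := by
    rw [← Real.rpow_add hn0, ← Real.rpow_add hn0]
    have : -(1 / (s : ℝ)) + 1 / (2 * (s : ℝ)) + 1 / (2 * (s : ℝ)) = 0 := by
      field_simp
      norm_num
    rw [this, Real.rpow_zero]
  simp only [Function.comp_apply, Pi.inv_apply, inv_div]
  have hla : 0 < (Real.log n) ^ a := by positivity
  have hns : 0 < (n : ℝ) ^ (-(1 / (s : ℝ))) := by positivity
  have hn2 : 0 < (n : ℝ) ^ (1 / (2 * (s : ℝ))) := by positivity
  rw [div_le_div_iff₀ hla (by positivity)]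
  have h11 : (n : ℝ) ^ (1 / (2 * (s : ℝ))) * (n : ℝ) ^ (-(1 / (s : ℝ))) ≤ pp n := by
    have : (n : ℝ) ^ (1 / (2 * (s : ℝ))) * (n : ℝ) ^ (-(1 / (s : ℝ))) * 1 ≤
        (n : ℝ) ^ (1 / (2 * (s : ℝ))) * (n : ℝ) ^ (-(1 / (s : ℝ))) *
          ((n : ℝ) ^ (1 / (2 * (s : ℝ))) * pp n) :=
      mul_le_mul_of_nonneg_left h9 (by positivity)
    calc (n : ℝ) ^ (1 / (2 * (s : ℝ))) * (n : ℝ) ^ (-(1 / (s : ℝ))) =
        (n : ℝ) ^ (1 / (2 * (s : ℝ))) * (n : ℝ) ^ (-(1 / (s : ℝ))) * 1 := by ring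
      _ ≤ _ := this
      _ = ((n : ℝ) ^ (-(1 / (s : ℝ))) * (n : ℝ) ^ (1 / (2 * (s : ℝ))) *
          (n : ℝ) ^ (1 / (2 * (s : ℝ)))) * pp n := by ring
      _ = pp n := by rw [h10, one_mul]
  calc (n : ℝ) ^ (1 / (2 * (s : ℝ))) * ((Real.log n) ^ a * (n : ℝ) ^ (-(1 / (s : ℝ))))
      = (n : ℝ) ^ (1 / (2 * (s : ℝ))) * (n : ℝ) ^ (-(1 / (s : ℝ))) * (Real.log n) ^ a := by ring
    _ ≤ pp n * (Real.log n) ^ a := mul_le_mul_of_nonneg_right h11 hla.le

end Pool.Agent.Y429.Tens
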